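import Pool.Agent.Lib.HLK.Blue

/-! The canonical anticommutation relations. -/

open scoped Classical Matrix

noncomputable section

namespace Pool.Agent.Lib.HLK

namespace FK1

variable {n : ℕ}

/-- The sign. -/
def sg (k : Fin n) (B : Fs n) : ℂ := (-1) ^ (B.filter (· < k)).card

theorem sg_sq (k : Fin n) (B : Fs n) : sg k B * sg k B = 1 := by
  rw [sg, ← mul_pow]; simp

theorem sg_insert (k : Fin n) {j : Fin n} {B : Fs n} (h : j ∉ B) :
    sg k (insert j B) = (if j < k then -1 else 1) * sg k B := by
  rw [sg, sg, Finset.filter_insert]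
  split_ifs
  · rw [Finset.card_insert_of_notMem fun c => h (Finset.mem_filter.1 c).1, pow_succ']
  · rw [one_mul]

theorem cr_apply (k : Fin n) (A B : Fs n) :
    cr k A B = if k ∉ B ∧ A = insert k B then sg k B else 0 := rfl

theorem an_apply (k : Fin n) (A B : Fs n) :
    an k A B = if k ∉ A ∧ B = insert k A then sg k A else 0 := by
  rw [an, Matrix.conjTranspose_apply, cr_apply]
  split_ifs <;> simp [sg]

theorem mul_cr (Y : Mx (Fs n)) (k : Fin n) (A B : Fs n) :
    (Y * cr k) A B = if k ∈ B then 0 else Y A (insert k B) * sg k B := by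
  rw [Matrix.mul_apply]
  by_cases h : k ∈ B <;> simp [cr_apply, h]

theorem mul_an (Y : Mx (Fs n)) {k : Fin n} (A : Fs n) {B : Fs n} (h : k ∉ B) :
    (Y * an k) A B = 0 ∧ (Y * an k) A (insert k B) = Y A B * sg k B := by
  constructor
  · rw [Matrix.mul_apply]
    refine Finset.sum_eq_zero fun C _ => ?_
    rw [an_apply, if_neg, mul_zero]
    rintro ⟨-, rfl⟩
    exact h (Finset.mem_insert_self _ _)
  · rw [Matrix.mul_apply, Finset.sum_eq_single B, an_apply, if_pos ⟨h, rfl⟩]
    · intro C _ hC
      rw [an_apply, if_neg, mul_zero]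
      exact fun c => hC ((Finset.insert_erase_invOn.2.injOn.eq_iff c.1 h).1 c.2.symm)
    · simp

theorem eps {i j : Fin n} (h : i ≠ j) :
    (if j < i then (-1 : ℂ) else 1) = -if i < j then -1 else 1 := by
  rcases lt_or_gt_of_ne h with c | c <;> simp [c, c.not_gt]

theorem cr_cr (i j : Fin n) : cr i * cr j + cr j * cr i = 0 := by
  ext A B
  rw [Matrix.add_apply, mul_cr, mul_cr, cr_apply, cr_apply, Matrix.zero_apply]
  by_cases e : i = j
  · simp [e]
  by_cases hi : i ∈ B
  · simp [hi]
  by_cases hj : j ∈ B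
  · simp [hj]
  rw [sg_insert i hj, sg_insert j hi, eps e, Finset.insert_comm j i]
  by_cases hA : A = insert i (insert j B)
  · simp [hi, hj, e, Ne.symm e, hA, mul_comm]
  · simp [hA]

theorem ins_iff {i : Fin n} {A B : Fs n} (hA : i ∉ A) (hB : i ∉ B) :
    insert i A = insert i B ↔ A = B :=
  ⟨fun h => by rw [← Finset.erase_insert hA, h, Finset.erase_insert hB], fun h => h ▸ rfl⟩

theorem an_cr (i j : Fin n) : an i * cr j + cr j * an i = if i = j then 1 else 0 := by
  ext A B
  rw [Matrix.add_apply, mul_cr, an_apply]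
  by_cases hi : i ∈ B
  · obtain ⟨C, hC, rfl⟩ : ∃ C, i ∉ C ∧ B = insert i C :=
      ⟨B.erase i, Finset.notMem_erase _ _, (Finset.insert_erase hi).symm⟩
    rw [(mul_an _ A hC).2, cr_apply]
    by_cases e : i = j
    · subst e
      by_cases hA : A = insert i C <;> simp [hC, hA, sg_sq, Matrix.one_apply]
    by_cases hj : j ∈ C
    · simp [hj, e]
    have h1 : i ∉ insert j C := by simp [e, hC]
    have h2 : j ∉ insert i C := by simp [Ne.symm e, hj]
    rw [if_neg h2, if_neg e, Matrix.zero_apply, Finset.insert_comm j i]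
    by_cases hA : A = insert j C
    · subst hA
      rw [if_pos ⟨h1, rfl⟩, if_pos ⟨hj, rfl⟩, sg_insert i hj, sg_insert j hC, eps e]
      split_ifs <;> ring
    · rw [if_neg fun c => hA ((ins_iff h1 c.1).1 c.2).symm, if_neg fun c => hA c.2]
      simp
  · rw [(mul_an _ A hi).1, add_zero]
    by_cases e : i = j
    · subst e
      rw [if_neg hi, if_pos rfl, Matrix.one_apply]
      by_cases hA : A = B
      · rw [if_pos hA, hA, if_pos ⟨hi, rfl⟩, sg_sq]
      · rw [if_neg hA, if_neg fun c => hA ((ins_iff hi c.1).1 c.2).symm, zero_mul]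
    · have : ¬ (i ∉ A ∧ insert j B = insert i A) := fun c => by
        have := c.2 ▸ Finset.mem_insert_self i A
        simp [e, hi] at this
      simp [this, e]

end FK1

open FK1 in
theorem st_FK1 : St_FK1 := by
  refine fun n => ⟨fun i j => ⟨cr_cr i j, ?_, an_cr i j⟩, fun Y X h h0 => ?_⟩
  · have := congrArg Matrix.conjTranspose (cr_cr j i)
    rwa [Matrix.conjTranspose_add, Matrix.conjTranspose_mul, Matrix.conjTranspose_mul,
      Matrix.conjTranspose_zero] at this
  · ext A B
    induction B using Finset.induction_on generalizing A with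
    | empty => exact h0 A
    | insert k B hk ih =>
      have e := congrFun (congrFun (h k) A) B
      rw [mul_cr, if_neg hk, Matrix.mul_apply,
        Finset.sum_eq_zero fun C _ => by rw [ih C, Matrix.zero_apply, mul_zero]] at e
      rw [Matrix.zero_apply, ← mul_one (Y A _), ← sg_sq k B, ← mul_assoc, e, zero_mul]

end Pool.Agent.Lib.HLK
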