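import Pool.Agent.Lib.HLK.Blue

/-! The matrix of the minors. -/

open scoped Classical ComplexOrder Matrix MatrixOrder Matrix.Norms.L2Operator
open Finset

noncomputable section

namespace Pool.Agent.Lib.HLK

open Pool.Agent.Lib.HS32

namespace FK2

variable {n m : ℕ}

theorem la_eq (g : Mat n) {A B : Fs n} (hA : A.card = m) (hB : B.card = m) :
    La g A B = (g.submatrix (A.orderEmbOfFin hA) (B.orderEmbOfFin hB)).det := by
  subst hA
  exact dif_pos hB

theorem la_ne (g : Mat n) {A B : Fs n} (h : B.card ≠ A.card) : La g A B = 0 := dif_neg h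

theorem emb_erase {A : Fs n} (h : A.card = m + 1) (j : Fin (m + 1))
    (h' : (A.erase (A.orderEmbOfFin h j)).card = m) :
    A.orderEmbOfFin h ∘ j.succAbove = (A.erase (A.orderEmbOfFin h j)).orderEmbOfFin h' :=
  orderEmbOfFin_unique h' (fun i => mem_erase.2
    ⟨(A.orderEmbOfFin h).injective.ne (j.succAbove_ne i), orderEmbOfFin_mem _ _ _⟩)
    ((A.orderEmbOfFin h).strictMono.comp (Fin.strictMono_succAbove j))

theorem card_lt {A : Fs n} (h : A.card = m) (j : Fin m) :
    ((A.erase (A.orderEmbOfFin h j)).filter (· < A.orderEmbOfFin h j)).card = j := by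
  rw [← Fin.card_Iio j, ← card_map (A.orderEmbOfFin h).toEmbedding]
  congr 1
  ext x
  simp only [mem_filter, mem_erase, mem_map, mem_Iio, RelEmbedding.coe_toEmbedding]
  constructor
  · rintro ⟨⟨-, hx⟩, hl⟩
    obtain ⟨i, rfl⟩ : x ∈ Set.range (A.orderEmbOfFin h) := by
      rw [range_orderEmbOfFin]; exact hx
    exact ⟨i, (A.orderEmbOfFin h).lt_iff_lt.1 hl, rfl⟩
  · rintro ⟨i, hi, rfl⟩
    have := (A.orderEmbOfFin h).lt_iff_lt.2 hi
    exact ⟨⟨this.ne, orderEmbOfFin_mem _ _ _⟩, this⟩

theorem mul_cr (Y : Mx (Fs n)) (k : Fin n) (A B : Fs n) : (Y * cr k) A B =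
    if k ∈ B then 0 else (-1) ^ (B.filter (· < k)).card * Y A (insert k B) := by
  rw [Matrix.mul_apply, sum_eq_single (insert k B)]
  · by_cases h : k ∈ B <;> simp [cr, h, mul_comm]
  · intro C _ hC
    simp [cr, hC]
  · simp

theorem cr_mul (Y : Mx (Fs n)) (k : Fin n) (A B : Fs n) : (cr k * Y) A B =
    if k ∈ A then (-1) ^ ((A.erase k).filter (· < k)).card * Y (A.erase k) B else 0 := by
  rw [Matrix.mul_apply, sum_eq_single (A.erase k)]
  · by_cases h : k ∈ A
    · simp [cr, h, insert_erase h]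
    · have : A ≠ insert k A := fun e => h (e ▸ mem_insert_self k A)
      simp [cr, h, this]
  · intro C _ hC
    have : ¬(k ∉ C ∧ A = insert k C) := fun ⟨h1, h2⟩ => hC (by rw [h2, erase_insert h1])
    simp only [cr, Matrix.of_apply, if_neg this, zero_mul]
  · simp

theorem rhs (g : Mat n) (k : Fin n) {A B : Fs n} (hA : A.card = m + 1) (hB : B.card = m) :
    (∑ i, g i k • (cr i * La g)) A B = ∑ j : Fin (m + 1), (-1) ^ (j : ℕ) *
      g (A.orderEmbOfFin hA j) k *
        (g.submatrix (A.orderEmbOfFin hA ∘ j.succAbove) (B.orderEmbOfFin hB)).det := by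
  simp only [Matrix.sum_apply, Matrix.smul_apply, cr_mul, smul_eq_mul, mul_ite, mul_zero]
  rw [← sum_filter, filter_mem_eq_inter, univ_inter]
  symm
  refine sum_bij (fun j _ => A.orderEmbOfFin hA j) (fun j _ => orderEmbOfFin_mem _ _ _)
    (fun i _ j _ e => (A.orderEmbOfFin hA).injective e) (fun x hx => ?_) fun j _ => ?_
  · obtain ⟨i, rfl⟩ : x ∈ Set.range (A.orderEmbOfFin hA) := by
      rw [range_orderEmbOfFin]; exact hx
    exact ⟨i, mem_univ _, rfl⟩
  · have h' : (A.erase (A.orderEmbOfFin hA j)).card = m := by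
      rw [card_erase_of_mem (orderEmbOfFin_mem _ _ _), hA]; rfl
    rw [card_lt, emb_erase hA j h', la_eq g h' hB]
    ring

theorem emb_of {C B : Fs n} (hC : C.card = m + 1) (hB : B.card = m) (p : Fin (m + 1))
    (e : C.erase (C.orderEmbOfFin hC p) = B) :
    C.orderEmbOfFin hC ∘ p.succAbove = B.orderEmbOfFin hB := by
  subst e
  exact emb_erase hC p hB

theorem lap (g : Mat n) (k : Fin n) {A B : Fs n} (hA : A.card = m + 1) (hB : B.card = m) :
    (La g * cr k) A B = (∑ i, g i k • (cr i * La g)) A B := by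
  rw [rhs g k hA hB, mul_cr]
  split_ifs with h
  · obtain ⟨p, hp⟩ : k ∈ Set.range (B.orderEmbOfFin hB) := by
      rw [range_orderEmbOfFin]; exact h
    have z : (g.submatrix (A.orderEmbOfFin hA)
        (Fin.cons k (B.orderEmbOfFin hB) : Fin (m + 1) → Fin n)).det = 0 :=
      Matrix.det_zero_of_column_eq (Fin.succ_ne_zero p) fun i => by simp [hp]
    rw [← z, Matrix.det_succ_column_zero]
    exact sum_congr rfl fun j _ => rfl
  · have hC : (insert k B).card = m + 1 := by rw [card_insert_of_notMem h, hB]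
    obtain ⟨p, hp⟩ : k ∈ Set.range ((insert k B).orderEmbOfFin hC) := by
      rw [range_orderEmbOfFin]; exact mem_insert_self k B
    have e : (insert k B).erase ((insert k B).orderEmbOfFin hC p) = B := by
      rw [hp, erase_insert h]
    have e1 : (B.filter (· < k)).card = p := by
      have := card_lt hC p
      rwa [e, hp] at this
    rw [la_eq g hA hC, Matrix.det_succ_column _ p, e1, mul_sum]
    refine sum_congr rfl fun j _ => ?_
    rw [Matrix.submatrix_submatrix, emb_of hC hB p e, Matrix.submatrix_apply, hp, pow_add]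
    have : ((-1 : ℂ) ^ (p : ℕ)) * (-1) ^ (p : ℕ) = 1 := by rw [← mul_pow]; simp
    linear_combination ((-1) ^ (j : ℕ) * g (A.orderEmbOfFin hA j) k *
      (g.submatrix (A.orderEmbOfFin hA ∘ j.succAbove) (B.orderEmbOfFin hB)).det) * this

theorem la_cr (g : Mat n) (k : Fin n) : La g * cr k = ∑ i, g i k • (cr i * La g) := by
  ext A B
  by_cases hA : A.card = B.card + 1
  · exact lap g k hA rfl
  · rw [mul_cr, Matrix.sum_apply, sum_eq_zero]
    · split_ifs with h
      · rfl
      · rw [la_ne g (by rw [card_insert_of_notMem h]; exact Ne.symm hA), mul_zero]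
    · intro i _
      rw [Matrix.smul_apply, cr_mul]
      split_ifs with h
      · rw [la_ne g (fun e => hA (by rw [e, card_erase_add_one h])), mul_zero, smul_zero]
      · exact smul_zero _

theorem la_ct (g : Mat n) : La gᴴ = (La g)ᴴ := by
  ext A B
  rw [Matrix.conjTranspose_apply]
  by_cases h : B.card = A.card
  · rw [la_eq _ rfl h, la_eq _ h rfl, ← Matrix.det_conjTranspose, Matrix.conjTranspose_submatrix]
  · rw [la_ne _ h, la_ne _ (Ne.symm h), star_zero]

theorem la_vac (g : Mat n) (A : Fs n) : La g A ∅ = if A = ∅ then 1 else 0 := by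
  split_ifs with h
  · rw [h, la_eq g (m := 0) rfl rfl, Matrix.det_isEmpty]
  · exact la_ne g fun e => h (card_eq_zero.1 e.symm)

theorem la_one (h : St_FK1) : La (1 : Mat n) = 1 := by
  refine sub_eq_zero.1 ((h n).2 _ cr (fun k => ?_) fun A => ?_)
  · rw [sub_mul, mul_sub, la_cr, sum_eq_single k]
    · simp
    · intro i _ hi
      simp [hi]
    · simp
  · rw [Matrix.sub_apply, la_vac, Matrix.one_apply, sub_self]

theorem la_mul (h : St_FK1) (g g' : Mat n) : La (g * g') = La g * La g' := by
  refine sub_eq_zero.1 ((h n).2 _ (fun k => ∑ i, (g * g') i k • cr i) (fun k => ?_) fun A => ?_)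
  · have key : ∀ j, La g * cr j * La g' = ∑ i, g i j • (cr i * (La g * La g')) := fun j => by
      rw [la_cr, sum_mul]
      simp only [smul_mul_assoc, mul_assoc]
    rw [sub_mul, mul_sub, la_cr, mul_assoc, la_cr, mul_sum, sum_mul, sum_mul]
    simp only [smul_mul_assoc, mul_smul_comm, ← mul_assoc (La g), key, smul_sum, smul_smul]
    rw [sum_comm]
    simp only [Matrix.mul_apply (M := g), sum_smul, mul_comm]
  · rw [Matrix.sub_apply, Matrix.mul_apply, sum_eq_single ∅]
    · simp [la_vac]
    · intro C _ hC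
      simp [la_vac, hC]
    · simp

end FK2

open FK2 in
theorem st_FK2 (hFK1 : St_FK1) : St_FK2 := by
  intro n
  refine ⟨la_one hFK1, fun g => ⟨la_ct g, la_vac g, la_mul hFK1 g, la_cr g, fun k => ?_,
    fun hg => ?_⟩⟩
  · have := congrArg Matrix.conjTranspose (la_cr gᴴ k)
    simpa [la_ct, Matrix.conjTranspose_sum, an] using this
  · obtain ⟨W, hW, rfl⟩ :=
      CStarAlgebra.isStrictlyPositive_iff_eq_star_mul_self.1 hg.isStrictlyPositive
    obtain ⟨V, hV⟩ := hW.exists_left_inv
    rw [Matrix.star_eq_conjTranspose, la_mul hFK1, la_ct]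
    refine Matrix.PosDef.conjTranspose_mul_self _ (Function.LeftInverse.injective
      (g := (La V).mulVec) fun x => ?_)
    rw [Matrix.mulVec_mulVec, ← la_mul hFK1, hV, la_one hFK1, Matrix.one_mulVec]

end Pool.Agent.Lib.HLK
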