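import Pool.Agent.Lib.HLK.Blue

/-! Project hlk, row CHT: the chart of the space of square integrable sections. -/

open scoped Classical Topology ContDiff ComplexOrder Matrix ENNReal
open Set MeasureTheory Complex Metric Filter WithLp

noncomputable section

namespace Pool.Agent.Lib.HLK

open Pool.Agent.Lib.SV (E)
open Pool.Agent.Lib.HS32 Pool.Agent.Lib.KP

namespace CHT

theorem ell_pos {ι V : Type} [Fintype ι] [DecidableEq ι] [NormedAddCommGroup V]
    [InnerProductSpace ℝ V] [FiniteDimensional ℝ V] (a : ι → V →L[ℝ] V)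
    (h : ∀ l : ι → ℝ, ∃ q : ℝ, (l ≠ 0 → 0 < q) ∧ ∀ u w,
      inner ℝ (∑ j, l j • a j u) (∑ j, l j • a j w) = q * inner ℝ u w)
    (p : ι → V) (hp : p ≠ 0) : 0 < TH.ell a p := by
  choose q h0 hq using h
  obtain ⟨Q, pol⟩ : ∃ Q : ι → ι → ℝ, ∀ j k u w,
      inner ℝ (a j u) (a k w) + inner ℝ (a k u) (a j w) = Q j k * inner ℝ u w :=
    ⟨fun j k => q (Pi.single j 1 + Pi.single k 1) - q (Pi.single j 1) - q (Pi.single k 1),
      fun j k u w => by
        have e1 := hq (Pi.single j 1 + Pi.single k 1) u w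
        have e2 := hq (Pi.single j 1) u w
        have e3 := hq (Pi.single k 1) u w
        simp only [Pi.add_apply, add_smul, Finset.sum_add_distrib, Pi.single_apply, ite_smul,
          one_smul, zero_smul, Finset.sum_ite_eq', Finset.mem_univ, if_true, inner_add_left,
          inner_add_right] at e1 e2 e3
        linarith⟩
  obtain ⟨j₀, hj⟩ := Function.ne_iff.1 hp
  have u0 : 0 < inner ℝ (p j₀) (p j₀) := real_inner_self_pos.2 hj
  have pos : ∀ l : ι → ℝ, l ≠ 0 → 0 < ∑ j, ∑ k, Q j k * (l j * l k) := fun l hl => by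
    have e : (∑ j, ∑ k, Q j k * (l j * l k)) * inner ℝ (p j₀) (p j₀) =
        2 * (q l * inner ℝ (p j₀) (p j₀)) := by
      rw [← hq, sum_inner, Finset.sum_mul, Finset.mul_sum]
      refine Finset.sum_congr rfl fun j _ => ?_
      rw [inner_sum, Finset.sum_mul, Finset.mul_sum]
      refine Finset.sum_congr rfl fun k _ => ?_
      rw [mul_right_comm, ← pol, real_inner_smul_left, real_inner_smul_right,
        real_inner_comm (a j (p j₀)) (a k (p j₀))]
      ring
    exact (mul_pos_iff_of_pos_right u0).1 (e ▸ mul_pos two_pos (mul_pos (h0 l hl) u0))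
  have b := stdOrthonormalBasis ℝ V
  have e : TH.ell a p = ∑ m, ∑ j, ∑ k, Q j k * (inner ℝ (b m) (p j) * inner ℝ (b m) (p k)) := by
    rw [Finset.sum_comm, TH.ell]
    refine Finset.sum_congr rfl fun j _ => ?_
    rw [Finset.sum_comm]
    refine Finset.sum_congr rfl fun k _ => ?_
    rw [real_inner_comm (a k (p j)) (a j (p k)), pol, ← Finset.mul_sum,
      ← b.sum_inner_mul_inner (p j) (p k)]
    simp only [real_inner_comm (b _) (p j)]
  obtain ⟨m₀, hm⟩ : ∃ m, inner ℝ (b m) (p j₀) ≠ 0 := by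
    by_contra! hc
    rw [← b.sum_inner_mul_inner] at u0
    simp [hc] at u0
  rw [e]
  refine Finset.sum_pos' (fun m _ => ?_) ⟨m₀, Finset.mem_univ _,
    pos (fun j => inner ℝ (b m₀) (p j)) fun c => hm (congrFun c j₀)⟩
  by_cases c : (fun j => inner ℝ (b m) (p j)) = 0
  · have c' : ∀ j, inner ℝ (b m) (p j) = 0 := congrFun c
    simp [c']
  · exact (pos _ c).le

variable {n : ℕ} {σ : Type} [Fintype σ] [DecidableEq σ]

/-- A matrix as a real operator. -/
def lm (A : Mx σ) : EuclideanSpace ℂ σ →L[ℝ] EuclideanSpace ℂ σ :=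
  LinearMap.toContinuousLinearMap ((Matrix.toEuclideanLin A).restrictScalars ℝ)

theorem lm_ap (A : Mx σ) (u : EuclideanSpace ℂ σ) : (lm A u).ofLp = A *ᵥ u.ofLp := rfl

omit [DecidableEq σ] in
theorem inner_re (u w : EuclideanSpace ℂ σ) : inner ℝ u w = (star u.ofLp ⬝ᵥ w.ofLp).re := by
  simp only [PiLp.inner_apply, dotProduct, re_sum, Complex.inner, Pi.star_apply, RCLike.star_def,
    mul_comm]

omit [DecidableEq σ] in
theorem cd_mv {T : E n → Mx σ} {F : E n → σ → ℂ} {z : E n} (h : SmX T z)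
    (hF : ContDiffAt ℝ ∞ F z) : ContDiffAt ℝ ∞ (fun w => T w *ᵥ F w) z :=
  contDiffAt_pi.2 fun i => ContDiffAt.sum fun j _ => (h i j).mul (contDiffAt_pi.1 hF j)

omit [DecidableEq σ] in
theorem sx_mul {S T : E n → Mx σ} {z : E n} (h : SmX S z) (h' : SmX T z) :
    SmX (fun w => S w * T w) z := fun i j => ContDiffAt.sum fun k _ => (h i k).mul (h' k j)

theorem lm_cd {T : E n → Mx σ} {U : Set (E n)} (h : ∀ z ∈ U, SmX T z) :
    ContDiffOn ℝ ∞ (fun z => lm (T z)) U :=
  contDiffOn_clm_apply.2 fun u z hz => (PiLp.contDiff_toLp.contDiffAt.comp z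
    (cd_mv (h z hz) (contDiffAt_const (c := u.ofLp)))).contDiffWithinAt

/-- The real directions. -/
def dir (p : Fin n × Bool) : E n := Pi.single p.1 (if p.2 then I else 1)

/-- The coefficients in the real directions. -/
def co (A B : Fin n → Mx σ) (p : Fin n × Bool) : Mx σ :=
  if p.2 then (I / 2) • (B p.1 - A p.1) else (1 / 2 : ℂ) • (A p.1 + B p.1)

/-- The derivative of a vector. -/
def dr (W : E n → σ → ℂ) (z v : E n) : σ → ℂ := fun i => fderiv ℝ (fun w => W w i) z v

/-- The derivative of a matrix. -/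
def dX (S : E n → Mx σ) (v z : E n) : Mx σ :=
  Matrix.of fun i j => fderiv ℝ (fun w => S w i j) z v

omit [DecidableEq σ] in
theorem ap_eq {M : Mf n} (D : Op M σ) (W : M.Fam (σ → ℂ)) (e : M.Ch) (z : E n) :
    D.ap W e z = ∑ p, co (D.A · e z) (D.B · e z) p *ᵥ dr (W e) z (dir p) + D.C e z *ᵥ W e z := by
  rw [Op.ap, Fintype.sum_prod_type]
  refine congrArg (· + _) (Finset.sum_congr rfl fun k _ => ?_)
  have e1 : dzv k (W e) z = (1 / 2 : ℂ) • (dr (W e) z (dir (k, false)) -
      I • dr (W e) z (dir (k, true))) := funext fun i => by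
    simp only [dzv, dz, dr, dir, Pi.smul_apply, Pi.sub_apply, smul_eq_mul, if_true,
      Bool.false_eq_true, if_false]
    ring
  have e2 : dzbv k (W e) z = (1 / 2 : ℂ) • (dr (W e) z (dir (k, false)) +
      I • dr (W e) z (dir (k, true))) := funext fun i => by
    simp only [dzbv, dzb, dr, dir, Pi.smul_apply, Pi.add_apply, smul_eq_mul, if_true,
      Bool.false_eq_true, if_false]
    ring
  simp only [e1, e2, Fintype.sum_bool, co, if_true, Bool.false_eq_true, if_false,
    Matrix.mulVec_smul, Matrix.mulVec_add, Matrix.mulVec_sub, Matrix.smul_mulVec,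
    Matrix.add_mulVec, Matrix.sub_mulVec]
  module

omit [DecidableEq σ] in
theorem dr_mul {S : E n → Mx σ} {f : E n → EuclideanSpace ℂ σ} {z : E n} (h : SmX S z)
    (hf : DifferentiableAt ℝ f z) (v : E n) : dr (fun w => S w *ᵥ (f w).ofLp) z v =
      dX S v z *ᵥ (f z).ofLp + S z *ᵥ (fderiv ℝ f z v).ofLp := by
  funext i
  have d : ∀ j, HasFDerivAt (fun w => (f w).ofLp j)
      ((PiLp.proj (𝕜 := ℝ) 2 (fun _ : σ => ℂ) j).comp (fderiv ℝ f z)) z := fun j =>
    (PiLp.proj (𝕜 := ℝ) 2 (fun _ : σ => ℂ) j).hasFDerivAt.comp z hf.hasFDerivAt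
  have s := HasFDerivAt.fun_sum (u := Finset.univ) fun j _ =>
    (cd_diff (h i j)).hasFDerivAt.fun_mul (d j)
  simp only [dr, dX, Matrix.mulVec, dotProduct, Pi.add_apply, Matrix.of_apply]
  rw [s.fderiv, ← Finset.sum_add_distrib, sum_apply]
  refine Finset.sum_congr rfl fun j _ => ?_
  simp only [add_apply, smul_apply, smul_eq_mul,
    ContinuousLinearMap.comp_apply, PiLp.proj_apply]
  ring

omit [Fintype σ] [DecidableEq σ] in
theorem sy_eq {M : Mf n} (D : Op M σ) (e : M.Ch) (z : E n) (l : Fin n × Bool → ℝ) :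
    ∑ p, (l p : ℂ) • co (D.A · e z) (D.B · e z) p =
      D.sy e z fun k => (l (k, false) - I * l (k, true)) / 2 := by
  rw [Op.sy, Fintype.sum_prod_type]
  refine Finset.sum_congr rfl fun k _ => ?_
  simp only [Fintype.sum_bool, co, if_true, Bool.false_eq_true, if_false, RCLike.star_def,
    map_div₀, map_sub, map_mul, conj_I, conj_ofReal, map_ofNat]
  module

theorem dir_ne {V : Type} [NormedAddCommGroup V] [NormedSpace ℝ V] {L : E n →L[ℝ] V}
    (h : L ≠ 0) : (fun p => L (dir p)) ≠ 0 := fun c => h <| ContinuousLinearMap.ext fun v => by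
  have e : v = ∑ k, ((v k).re • dir (k, false) + (v k).im • dir (k, true)) := funext fun i => by
    simp only [dir, Finset.sum_apply, Pi.add_apply, Pi.smul_apply, Pi.single_apply, if_true,
      Bool.false_eq_true, if_false, smul_ite, smul_zero, Finset.sum_add_distrib,
      Finset.sum_ite_eq, Finset.mem_univ, real_smul, mul_one, re_add_im]
  have c' : ∀ p, L (dir p) = 0 := congrFun c
  rw [e]
  simp [c']

variable {M : Mf n}

/-- The section with given components in the chart `e`. -/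
def wf (b : Bun M σ) (e : M.Ch) (F : E n → σ → ℂ) : M.Fam (σ → ℂ) := fun e' z =>
  if e'.symm z ∈ e.source then b.T e' e (e'.symm z) *ᵥ F (e (e'.symm z)) else 0

theorem wf_self {b : Bun M σ} (hb : b.Ok) {e : M.Ch} (he : e ∈ M.C) (F : E n → σ → ℂ) {z : E n}
    (hz : z ∈ e.target) : wf b e F e z = F z := by
  rw [wf, if_pos (e.map_target hz), hb.one e he _ (e.map_target hz), Matrix.one_mulVec,
    e.right_inv hz]

omit [DecidableEq σ] in
theorem wf_zero [M.Cpt] {b : Bun M σ} {e e' : M.Ch} {F : E n → σ → ℂ} {K : Set (E n)}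
    (hK : IsCompact K) (hs : K ⊆ e.target) (h0 : ∀ z ∉ K, F z = 0) {y : M.X}
    (hy : y ∈ e'.source) (h : y ∉ e.symm '' K) : wf b e F e' =ᶠ[𝓝 (e' y)] fun _ => 0 := by
  have c := (hK.image_of_continuousOn (e.continuousOn_symm.mono hs)).isClosed.isOpen_compl
  have t := e'.continuousAt_symm (e'.map_source hy)
  filter_upwards [t.eventually (c.mem_nhds (by rwa [e'.left_inv hy]))] with w hw
  rw [wf]
  split_ifs with h1
  · rw [h0 _ fun h2 => hw ⟨_, h2, e.left_inv h1⟩, Matrix.mulVec_zero]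
  · rfl

theorem wf_sec [M.Cpt] {b : Bun M σ} (hb : b.Ok) {e : M.Ch} (he : e ∈ M.C) {F : E n → σ → ℂ}
    {K : Set (E n)} (hK : IsCompact K) (hs : K ⊆ e.target) (h0 : ∀ z ∉ K, F z = 0)
    (hF : ∀ z ∈ K, ContDiffAt ℝ ∞ F z) : b.Sec (wf b e F) where
  sm := Mf.allOn_of_source fun e' he' y hy => by
    by_cases h : y ∈ e.symm '' K
    · obtain ⟨z, hz, rfl⟩ := h
      have h1 := e.map_target (hs hz)
      refine ((mTR n M).2.2.2.1 _ fun y => if y ∈ e.source then b.T e' e y *ᵥ F (e y) else 0).2.1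
        e he e' he' _ h1 hy ?_
      refine (cd_mv (hb.tsm e' he' e he _ hy h1) (F := F) ?_).congr_of_eventuallyEq ?_
      · rw [e.right_inv (hs hz)]
        exact hF z hz
      · filter_upwards [e.open_target.mem_nhds (e.map_source h1)] with w hw
        rw [Function.comp_apply, if_pos (e.map_target hw), e.right_inv hw]
    · exact contDiffAt_const.congr_of_eventuallyEq (wf_zero hK hs h0 hy h)
  cmp := fun e₁ h₁ e₂ h₂ y y₁ y₂ => by
    simp only [wf, e₁.left_inv y₁, e₂.left_inv y₂]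
    split_ifs with h
    · rw [hb.mul e₁ h₁ e₂ h₂ y y₁ y₂ e he h, Matrix.mulVec_mulVec]
    · rw [Matrix.mulVec_zero]

theorem pn_zero {b : Bun M σ} (hb : b.Ok) {W : M.Fam (σ → ℂ)} (h : b.Sec W) {e : M.Ch}
    (he : e ∈ M.C) {y : M.X} (hy : y ∈ e.source) : b.pn W y = 0 ↔ W e (e y) = 0 := by
  rw [Bun.pn, (hb.pp_rep h h).1.at he hy]
  refine ⟨fun c => by_contra fun c' => ?_, fun c => by simp [c]⟩
  exact (Complex.lt_def.1 ((hb.pos.at he hy).dotProduct_mulVec_pos c')).1.ne' c

theorem coe_eq [M.Cpt] {g : Geo M σ} {u v : Pre g}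
    (h : ∀ y, ∃ e ∈ M.C, y ∈ e.source ∧ u.val e (e y) = v.val e (e y)) :
    (u : L2 g) = (v : L2 g) := by
  have z : ‖u - v‖ ^ 2 = 0 := by
    rw [Pre.norm_sq, Bun.nr]
    refine integral_eq_zero_of_ae (Eventually.of_forall fun y => ?_)
    obtain ⟨e, he, hy, c⟩ := h y
    exact (pn_zero g.ok (u - v).sec he hy).2 (sub_eq_zero.2 c)
  rw [← sub_eq_zero, ← UniformSpace.Completion.coe_sub, ← norm_eq_zero,
    UniformSpace.Completion.norm_coe]
  exact pow_eq_zero_iff two_ne_zero |>.1 z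

end CHT

open CHT in
theorem st_CHT (hGAU : St_GAU) : St_CHT := by
  intro n M _ σ _ _ g D hD x
  have he := Mf.ch_mem x
  have hx := Mf.mem_ch x
  generalize M.ch x = e at he hx
  obtain ⟨R, S, r, r0, hU, hR⟩ := hGAU n σ (g.b.G e) e.target (e x) e.open_target
    (e.map_source hx) fun w hw => ⟨g.ok.gsm e he w hw, g.ok.pos e he w hw⟩
  have xU := mem_ball_self (x := e x) r0
  have oU := isOpen_ball (x := e x) (ε := r)
  generalize ball (e x) r = U at hU hR xU oU
  obtain ⟨a, ha⟩ : ∃ a : Fin n × Bool → E n → Mx σ,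
    ∀ p z, a p z = co (D.A · e z) (D.B · e z) p := ⟨_, fun _ _ => rfl⟩
  have sa : ∀ p, ∀ z ∈ U, SmX (a p) z := fun p z hz i j => by
    have h := (hD.sm e he z (hU hz)).1 p.1
    simp only [ha, co]
    split_ifs
    · exact contDiffAt_const.mul ((h.2 i j).sub (h.1 i j))
    · exact contDiffAt_const.mul ((h.1 i j).add (h.2 i j))
  have f0 : ∀ f : E n → EuclideanSpace ℂ σ, ∀ z ∉ tsupport f, S z *ᵥ (f z).ofLp = 0 :=
    fun f z hz => by rw [image_eq_zero_of_notMem_tsupport hz, ofLp_zero, Matrix.mulVec_zero]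
  have sec : ∀ f : E n → EuclideanSpace ℂ σ, TH.Test U f →
      g.b.Sec (wf g.b e fun z => S z *ᵥ (f z).ofLp) := fun f hf =>
    wf_sec g.ok he hf.2.1 (hf.2.2.trans hU) (f0 f) fun z hz => cd_mv (hR z (hf.2.2 hz)).2.1
      (PiLp.contDiff_ofLp.contDiffAt.comp z hf.1.contDiffAt)
  obtain ⟨ext, hext⟩ : ∃ ext : (E n → EuclideanSpace ℂ σ) → Pre g, ∀ f, TH.Test U f →
      (ext f).val = wf g.b e fun z => S z *ᵥ (f z).ofLp :=
    ⟨fun f => if h : TH.Test U f then Pre.mk _ (sec f h) else 0, fun f h => by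
      simp only [dif_pos h, Pre.val_mk]⟩
  have x1 : ∀ f, TH.Test U f → ∀ z ∈ U, (ext f).val e z = S z *ᵥ (f z).ofLp := fun f hf z hz => by
    rw [hext f hf, wf_self g.ok he _ (hU hz)]
  have x0 : ∀ f, TH.Test U f → ∀ y ∉ e.symm '' U,
      (ext f).val (M.ch y) =ᶠ[𝓝 (M.ch y y)] fun _ => 0 := fun f hf y hy => by
    rw [hext f hf]
    exact wf_zero hf.2.1 (hf.2.2.trans hU) (f0 f) (Mf.mem_ch y) fun c => hy (image_mono hf.2.2 c)
  have ce : ∀ u v : Pre g, (∀ z ∈ U, u.val e z = v.val e z) → (∀ y ∉ e.symm '' U,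
      u.val (M.ch y) (M.ch y y) = 0 ∧ v.val (M.ch y) (M.ch y y) = 0) → (u : L2 g) = v :=
    fun u v h1 h2 => coe_eq fun y => by
      by_cases c : y ∈ e.symm '' U
      · obtain ⟨z, hz, rfl⟩ := c
        exact ⟨e, he, e.map_target (hU hz), by rw [e.right_inv (hU hz), h1 z hz]⟩
      · exact ⟨_, Mf.ch_mem y, Mf.mem_ch y, (h2 y c).1.trans (h2 y c).2.symm⟩
  have sgs : ∀ z ∈ U, (S z)ᴴ * g.b.G e z * S z = 1 := fun z hz => by
    obtain ⟨-, -, h1, -, h2⟩ := hR z hz
    rw [h2, ← mul_assoc, ← Matrix.conjTranspose_mul, mul_assoc, h1, Matrix.conjTranspose_one,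
      mul_one]
  have hγ : ∀ p, ContDiffOn ℝ ∞ (fun z => lm (R z * (a p z * S z))) U := fun p =>
    lm_cd fun z hz => sx_mul (hR z hz).1 (sx_mul (sa p z hz) (hR z hz).2.1)
  have hc : ContDiffOn ℝ ∞
      (fun z => lm (R z * (∑ p, a p z * dX S (dir p) z + D.C e z * S z))) U :=
    lm_cd fun z hz => sx_mul (hR z hz).1 fun i j => by
      simp only [Matrix.add_apply, Matrix.sum_apply]
      exact (ContDiffAt.sum fun p _ => sx_mul (sa p z hz) (T := dX S (dir p))
        (fun i j => cd_fderiv ((hR z hz).2.1 i j) _) i j).add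
        (sx_mul (hD.sm e he z (hU hz)).2 (hR z hz).2.1 i j)
  refine ⟨e, he, U, hU, hx, xU, fun p z => lm (R z * (a p z * S z)), fun p _ => dir p,
    fun z => lm (R z * (∑ p, a p z * dX S (dir p) z + D.C e z * S z)), ext,
    ⟨oU, fun z hz => (cd_re (g.met.sm e he z (hU hz)).det).contDiffWithinAt,
      fun z hz => Mf.pd_det_re (g.met.pos e he z (hU hz)), hγ, fun _ => contDiffOn_const, hc,
      fun f f' hf hf' => ?_⟩, fun f hf => ?_, fun K hK hs s h0 => ?_, fun hd z hz L hL => ?_⟩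
  · rw [real_inner_eq_re_inner ℂ, UniformSpace.Completion.inner_coe, Pre.inner_def, Bun.ip,
      ← integral_re (Pre.itg _ _),
      ((mMU n M g.H g.met).2.2.2.2.2.1 e he U oU.measurableSet hU).2.2.2.2.1 _ fun y hy => by
        rw [Bun.pp, Mf.ev, (x0 f hf y hy).self_of_nhds, star_zero, zero_dotProduct, map_zero],
      ← setIntegral_eq_integral_of_forall_compl_eq_zero (s := U)
        (f := fun z => (g.H e z).det.re * inner ℝ (f z) (f' z)) fun z hz => by
        rw [image_eq_zero_of_notMem_tsupport fun c => hz (hf.2.2 c), inner_zero_left, mul_zero]]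
    refine setIntegral_congr_fun oU.measurableSet fun z hz => ?_
    rw [(g.ok.pp_rep (ext f).sec (ext f').sec).1 e he z (hU hz)]
    beta_reduce
    rw [x1 f hf z hz, x1 f' hf' z hz, Matrix.star_mulVec, ← Matrix.dotProduct_mulVec,
      Matrix.mulVec_mulVec, Matrix.mulVec_mulVec, sgs z hz, Matrix.one_mulVec, inner_re]
    rfl
  · have hP := hf.pfr oU hγ (fun p => contDiffOn_const (c := dir p)) hc
    refine ce _ _ (fun z hz => ?_) fun y hy => ⟨(x0 _ hP y hy).self_of_nhds, ?_⟩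
    · have ev : (ext f).val e =ᶠ[𝓝 z] fun w => S w *ᵥ (f w).ofLp :=
        (oU.eventually_mem hz).mono fun w hw => x1 f hf w hw
      have e1 : ∀ v, dr ((ext f).val e) z v = dr (fun w => S w *ᵥ (f w).ofLp) z v :=
        fun v => funext fun i => DFunLike.congr_fun (ev.fun_comp fun u => u i).fderiv_eq v
      rw [x1 _ hP z hz, Pre.op_val hD.sec _ e he z (hU hz), ap_eq, x1 f hf z hz, TH.Pfr]
      simp only [e1, ← ha, dr_mul (hR z hz).2.1 (hf.1.differentiable (by simp) z), ofLp_add,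
        ofLp_sum, lm_ap, Matrix.mulVec_add, Matrix.mulVec_sum, Matrix.mulVec_mulVec,
        ← mul_assoc (S z), (hR z hz).2.2.2.1, one_mul, Matrix.add_mulVec, Matrix.sum_mulVec,
        Finset.sum_add_distrib]
      abel
    · have ev := x0 f hf y hy
      have e1 : ∀ v, dr ((ext f).val (M.ch y)) (M.ch y y) v = 0 := fun v => funext fun i =>
        DFunLike.congr_fun ((ev.fun_comp fun u => u i).fderiv_eq.trans (fderiv_const_apply 0)) v
      rw [Pre.op_val hD.sec _ _ (Mf.ch_mem y) _ (Mf.ch_tgt y), ap_eq, ev.self_of_nhds]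
      simp [e1]
  · have s0 : ∀ z ∉ K, U.indicator (fun z => toLp 2 (R z *ᵥ s.val e z)) z = 0 := fun z hz =>
      indicator_apply_eq_zero.2 fun hu => by
        have h1 := (pn_zero g.ok s.sec he (e.map_target (hU hu))).1 (h0 _ fun ⟨w, hw, c⟩ =>
          hz (e.symm.injOn (hU (hs hw)) (hU hu) c ▸ hw))
        rw [e.right_inv (hU hu)] at h1
        rw [h1, Matrix.mulVec_zero, toLp_zero]
    have ts : tsupport (U.indicator fun z => toLp 2 (R z *ᵥ s.val e z)) ⊆ K :=
      closure_minimal (fun z hz => by_contra fun c => hz (s0 z c)) hK.isClosed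
    have hf : TH.Test U (U.indicator fun z => toLp 2 (R z *ᵥ s.val e z)) := by
      refine ⟨contDiff_iff_contDiffAt.2 fun z => ?_, hK.of_isClosed_subset (isClosed_tsupport _) ts,
        ts.trans hs⟩
      by_cases c : z ∈ U
      · exact (PiLp.contDiff_toLp.contDiffAt.comp z
          (cd_mv (hR z c).1 (s.sec.sm e he z (hU c)))).congr_of_eventuallyEq
          ((oU.eventually_mem c).mono fun w hw => indicator_of_mem hw _)
      · exact contDiffAt_const.congr_of_eventuallyEq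
          ((hK.isClosed.isOpen_compl.eventually_mem fun h => c (hs h)).mono s0)
    refine ⟨_, hf, ts, ce _ _ (fun z hz => ?_) fun y hy => ⟨(x0 _ hf y hy).self_of_nhds,
      (pn_zero g.ok s.sec (Mf.ch_mem y) (Mf.mem_ch y)).1 (h0 y fun c => hy (image_mono hs c))⟩⟩
    rw [x1 _ hf z hz, indicator_of_mem hz, ofLp_toLp, Matrix.mulVec_mulVec, (hR z hz).2.2.2.1,
      Matrix.one_mulVec]
  · refine ell_pos _ (fun l => ?_) _ (dir_ne hL)
    have sy := sy_eq D e z l
    obtain ⟨ξ, hξ⟩ : ∃ ξ : E n, ξ = fun k => ((l (k, false) : ℂ) - I * l (k, true)) / 2 := ⟨_, rfl⟩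
    rw [← hξ] at sy
    have pd := (g.met.pos e he z (hU hz)).inv.transpose
    have nn := Complex.le_def.1 (pd.posSemidef.dotProduct_mulVec_nonneg ξ)
    refine ⟨(star ξ ⬝ᵥ (g.H e z)⁻¹ᵀ *ᵥ ξ).re, fun l0 =>
      (Complex.lt_def.1 (pd.dotProduct_mulVec_pos fun c => l0 ?_)).1, fun u w => ?_⟩
    · funext p
      have h := congrFun (hξ.symm.trans c) p.1
      rw [Pi.zero_apply, div_eq_zero_iff, or_iff_left two_ne_zero, Complex.ext_iff] at h
      obtain ⟨k, _ | _⟩ := p
      · simpa using h.1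
      · simpa using h.2
    · have e1 : ∀ u : EuclideanSpace ℂ σ, (∑ j, l j • lm (R z * (a j z * S z)) u).ofLp =
          (R z * (D.sy e z ξ * S z)) *ᵥ u.ofLp := fun u => by
        simp only [← sy, ← ha, ofLp_sum, ofLp_smul, lm_ap, Finset.sum_mul, Finset.mul_sum,
          Matrix.sum_mulVec, smul_mul_assoc, mul_smul_comm, Matrix.smul_mulVec, coe_smul]
      have e2 : (R z * (D.sy e z ξ * S z))ᴴ * (R z * (D.sy e z ξ * S z)) =
          (star ξ ⬝ᵥ (g.H e z)⁻¹ᵀ *ᵥ ξ) • (1 : Mx σ) := by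
        rw [← sgs z hz, ← smul_mul_assoc, ← mul_smul_comm, ← hd e he z (hU hz) ξ, (hR z hz).2.2.2.2]
        simp only [Matrix.conjTranspose_mul, mul_assoc]
      rw [inner_re, inner_re, e1, e1, Matrix.star_mulVec, ← Matrix.dotProduct_mulVec,
        Matrix.mulVec_mulVec, e2, Matrix.smul_mulVec, Matrix.one_mulVec, dotProduct_smul,
        smul_eq_mul, mul_re, ← nn.2, zero_im, zero_mul, sub_zero]

end Pool.Agent.Lib.HLK
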