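import Pool.Agent.Lib.HLK.Blue

/-! Project hlk: the curvature term. -/

open scoped Classical Topology ContDiff ComplexOrder Matrix
open Set Complex Filter

noncomputable section

namespace Pool.Agent.Lib.HLK

open Pool.Agent.Lib.SV (E)
open Pool.Agent.Lib.HS32 Pool.Agent.Lib.KP

namespace CU

variable {n : ℕ} {σ : Type} [Fintype σ]

/-- The matrix of the quadratic form. -/
def qm (θ : Mat n) (G : Mx σ) (a : Fin n → Mx σ) : Mx σ := ∑ k, ∑ l, θ l k • ((a l)ᴴ * G * a k)

theorem qm_eq (θ : Mat n) (G : Mx σ) (a : Fin n → Mx σ) (W : σ → ℂ) :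
    ∑ k, ∑ l, θ l k * (star (a l *ᵥ W) ⬝ᵥ G *ᵥ a k *ᵥ W) = star W ⬝ᵥ qm θ G a *ᵥ W := by
  simp only [qm, Matrix.sum_mulVec, dotProduct_sum, Matrix.smul_mulVec, dotProduct_smul,
    smul_eq_mul, ← Matrix.mulVec_mulVec, Matrix.star_mulVec, ← Matrix.dotProduct_mulVec]

theorem qm_psd {θ : Mat n} {G : Mx σ} (hθ : θ.PosSemidef) (hG : G.PosSemidef)
    (a : Fin n → Mx σ) : (qm θ G a).PosSemidef := by
  obtain ⟨B, rfl⟩ := Mf.psd_factor hθ
  have e : qm (Bᴴ * B) G a = ∑ m, (∑ l, B m l • a l)ᴴ * G * ∑ k, B m k • a k := by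
    simp only [qm, Matrix.mul_apply, Matrix.conjTranspose_apply, Finset.sum_smul,
      Matrix.conjTranspose_sum, Matrix.conjTranspose_smul, Finset.sum_mul, Finset.mul_sum,
      Matrix.smul_mul, Matrix.mul_smul, smul_smul, Finset.smul_sum]
    rw [Finset.sum_comm (s := Finset.univ) (t := Finset.univ)
      (f := fun m k => ∑ l, (B m k * star (B m l)) • ((a l)ᴴ * G * a k))]
    refine Finset.sum_congr rfl fun k _ => ?_
    rw [Finset.sum_comm]
    exact Finset.sum_congr rfl fun m _ => Finset.sum_congr rfl fun l _ => by rw [mul_comm]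
  rw [e]
  exact Matrix.posSemidef_sum _ fun m _ => hG.conjTranspose_mul_mul_same _

theorem qm_add (θ θ' : Mat n) (c : ℝ) (G : Mx σ) (a : Fin n → Mx σ) :
    qm (θ + c • θ') G a = qm θ G a + (c : ℂ) • qm θ' G a := by
  simp only [qm, Matrix.add_apply, Matrix.smul_apply, add_smul, Finset.sum_add_distrib,
    Finset.smul_sum, smul_smul, Complex.real_smul]

theorem qm_smul (θ : Mat n) (c : ℂ) (G : Mx σ) (a : Fin n → Mx σ) :
    qm θ (c • G) a = c • qm θ G a := by
  simp only [qm, Matrix.mul_smul, Matrix.smul_mul, Finset.smul_sum, smul_smul, mul_comm c]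

theorem qm_tr (θ J : Mat n) (G T : Mx σ) (a : Fin n → Mx σ)
    (h : ∀ k, a k * T = ∑ j, J k j • (T * a j)) :
    qm (Jᴴ * θ * J) (Tᴴ * G * T) a = Tᴴ * qm θ G a * T := by
  have e : ∀ k l, Tᴴ * (θ l k • ((a l)ᴴ * G * a k)) * T =
      ∑ j, ∑ i, (star (J l i) * θ l k * J k j) • ((a i)ᴴ * (Tᴴ * G * T) * a j) := fun k l => by
    have : Tᴴ * (θ l k • ((a l)ᴴ * G * a k)) * T = θ l k • ((a l * T)ᴴ * G * (a k * T)) := by
      simp only [Matrix.mul_smul, Matrix.smul_mul, Matrix.conjTranspose_mul, Matrix.mul_assoc]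
    rw [this, h, h]
    simp only [Matrix.conjTranspose_sum, Matrix.conjTranspose_smul, Finset.sum_mul, Finset.mul_sum,
      Matrix.smul_mul, Matrix.mul_smul, smul_smul, Finset.smul_sum, Matrix.conjTranspose_mul,
      Matrix.mul_assoc]
    exact Finset.sum_congr rfl fun j _ => Finset.sum_congr rfl fun i _ => by
      rw [show θ l k * (J k j * star (J l i)) = star (J l i) * θ l k * J k j by ring]
  simp only [qm, Finset.mul_sum, Finset.sum_mul, e, Matrix.mul_apply, Matrix.conjTranspose_apply,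
    Finset.sum_smul]
  calc _ = ∑ j, ∑ k, ∑ i, ∑ l, (star (J l i) * θ l k * J k j) • ((a i)ᴴ * (Tᴴ * G * T) * a j) :=
        Finset.sum_congr rfl fun j _ => Finset.sum_comm
    _ = ∑ k, ∑ j, ∑ l, ∑ i, (star (J l i) * θ l k * J k j) • ((a i)ᴴ * (Tᴴ * G * T) * a j) := by
        rw [Finset.sum_comm]
        exact Finset.sum_congr rfl fun k _ => Finset.sum_congr rfl fun j _ => Finset.sum_comm
    _ = _ := Finset.sum_congr rfl fun k _ => Finset.sum_comm

theorem num (h1 : St_FK1) (h2 : St_FK2) {H : Mat n} (hH : H.PosDef) :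
    qm H (La H) an + qm H⁻¹ᵀ (La H) cr = (n : ℂ) • La H := by
  obtain ⟨-, -, -, hc, ha, -⟩ := (h2 n).2 H
  have hu := (Matrix.isUnit_iff_isUnit_det H).1 hH.isUnit
  have e1 : qm H (La H) an = ∑ l, cr l * an l * La H := by
    rw [qm, Finset.sum_comm]
    refine Finset.sum_congr rfl fun l _ => ?_
    rw [Matrix.mul_assoc, ha, Finset.mul_sum]
    simp only [an, Matrix.conjTranspose_conjTranspose, Matrix.mul_smul, Matrix.mul_assoc]
  have e2 : qm H⁻¹ᵀ (La H) cr = ∑ l, an l * cr l * La H := by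
    rw [qm, Finset.sum_comm]
    refine Finset.sum_congr rfl fun l _ => ?_
    have : ∑ k, H⁻¹ k l • (La H * cr k) = cr l * La H := by
      simp only [hc, Finset.smul_sum, smul_smul]
      rw [Finset.sum_comm]
      simp only [← Finset.sum_smul, mul_comm (H⁻¹ _ l), ← Matrix.mul_apply,
        Matrix.mul_nonsing_inv H hu, Matrix.one_apply, ite_smul, one_smul, zero_smul,
        Finset.sum_ite_eq', Finset.mem_univ, if_true]
    rw [Matrix.mul_assoc, ← this, Finset.mul_sum]
    simp only [an, Matrix.transpose_apply, Matrix.mul_smul, Matrix.mul_assoc]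
  rw [e1, e2, ← Finset.sum_add_distrib]
  have : ∀ l : Fin n, cr l * an l * La H + an l * cr l * La H = La H := fun l => by
    rw [← add_mul, add_comm, ((h1 n).1 l l).2.2, if_pos rfl, Matrix.one_mul]
  simp only [this, Finset.sum_const, Finset.card_univ, Fintype.card_fin, Nat.cast_smul_eq_nsmul]

theorem low (h1 : St_FK1) (h2 : St_FK2) {H θ : Mat n} (hH : H.PosDef) {ε c : ℝ} (hε : 0 ≤ ε)
    (hc : 0 ≤ c) (hθ : (θ + ε • H).PosSemidef) (W : Fs n → ℂ) :
    -(ε * n * (star W ⬝ᵥ ((c : ℂ) • La H) *ᵥ W).re) ≤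
      (star W ⬝ᵥ qm θ ((c : ℂ) • La H) an *ᵥ W).re := by
  have hL := (((h2 n).2 H).2.2.2.2.2 hH).posSemidef
  have p1 := (Complex.le_def.1 ((qm_psd hθ hL an).dotProduct_mulVec_nonneg W)).1
  have p2 := (Complex.le_def.1
    ((qm_psd hH.inv.posSemidef.transpose hL cr).dotProduct_mulVec_nonneg W)).1
  have p3 := congrArg (fun A => (star W ⬝ᵥ A *ᵥ W).re) (num h1 h2 hH)
  rw [qm_add] at p1
  simp only [qm_smul, Matrix.add_mulVec, dotProduct_add, Matrix.smul_mulVec, dotProduct_smul,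
    smul_eq_mul, add_re, re_ofReal_mul, zero_re, ← ofReal_natCast] at p1 p2 p3 ⊢
  have := mul_nonneg hc (add_nonneg p1 (mul_nonneg hε p2))
  have e := congrArg (fun t => c * ε * t) p3
  beta_reduce at e
  nlinarith

end CU

open CU

theorem st_CU (hFK1 : St_FK1) (hFK2 : St_FK2) (hLAM : St_LAM) : St_CU := by
  intro n M H θ L φ W hH hθ hφ hW
  have ok := (hLAM n M H L φ hH hφ).1
  have i : M.Inv fun e z => ∑ k, ∑ l,
      θ e z l k * (star (an l *ᵥ W e z) ⬝ᵥ (lam H L φ).G e z *ᵥ an k *ᵥ W e z) :=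
    fun e he e' he' x hx hx' => by
      beta_reduce
      rw [qm_eq, qm_eq, ok.cmp e he e' he' x hx hx', hθ.cmp e he e' he' x hx hx',
        hW.cmp e he e' he' x hx hx', qm_tr, ← Matrix.mulVec_mulVec, ← Matrix.mulVec_mulVec,
        Matrix.dotProduct_mulVec, ← Matrix.star_mulVec]
      intro k
      simp only [lam, Matrix.mul_smul, Matrix.smul_mul, ((hFK2 n).2 _).2.2.2.2.1 k,
        Finset.smul_sum, smul_smul, mul_comm]
  refine ⟨fun e he z hz => congrArg Complex.re (i.rep e he z hz), ?_, fun ε hε hle x => ?_⟩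
  · refine Complex.continuous_re.comp (i.sm fun e he z hz => ?_).continuous
    have hw := contDiffAt_pi.1 (hW.sm e he z hz)
    have mv : ∀ {G : E n → Mx (Fs n)} {V : E n → Fs n → ℂ}, SmX G z →
        (∀ B, ContDiffAt ℝ ∞ (fun w => V w B) z) → ∀ A, ContDiffAt ℝ ∞ (fun w => (G w *ᵥ V w) A) z :=
      fun hG hV A => ContDiffAt.sum (s := Finset.univ) fun B _ => (hG A B).mul (hV B)
    have ha := fun k => mv (G := fun _ => an k) (fun _ _ => contDiffAt_const) hw
    exact ContDiffAt.sum fun k _ => ContDiffAt.sum fun l _ => (hθ.sm e he z hz l k).mul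
      (ContDiffAt.sum fun A _ => (cd_star (ha l A)).mul (mv (ok.gsm e he z hz) (ha k) A))
  · have h := hle.ch x
    rw [Pi.zero_apply, Pi.zero_apply, sub_zero] at h
    have := low hFK1 hFK2 (hH.pos.ch x) hε (Real.exp_pos (-φ (M.ch x) (M.ch x x))).le h
      (W (M.ch x) (M.ch x x))
    rw [← qm_eq] at this
    exact this

end Pool.Agent.Lib.HLK
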