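import Pool.Agent.Lib.HLK.Blue

/-! Row CUT: multiplication by a function and its commutator with an operator. -/

open scoped Classical Topology ContDiff ComplexOrder Matrix
open Set MeasureTheory Complex Filter

noncomputable section

namespace Pool.Agent.Lib.HLK

open Pool.Agent.Lib.SV (E)
open Pool.Agent.Lib.HS32 Pool.Agent.Lib.KP

namespace CUT

variable {n : ℕ} {M : Mf n} {σ : Type} [Fintype σ] [DecidableEq σ]

omit [DecidableEq σ] in
theorem sec_congr {b : Bun M σ} {W W' : M.Fam (σ → ℂ)} (h : b.Sec W)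
    (hW : M.All fun e z => W' e z = W e z) : b.Sec W' :=
  ⟨fun e he z hz => (h.sm e he z hz).congr_of_eventuallyEq
      (by filter_upwards [e.open_target.mem_nhds hz] with w hw using hW e he w hw),
    fun e he e' he' x hx hx' => by
      beta_reduce
      rw [hW e he _ (e.map_source hx), hW e' he' _ (e'.map_source hx')]
      exact h.cmp e he e' he' x hx hx'⟩

omit [DecidableEq σ] in
theorem sec_mul {b : Bun M σ} {χ : M.X → ℝ} (hχ : M.Sm χ) {W : M.Fam (σ → ℂ)} (h : b.Sec W) :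
    b.Sec fun e z => (χ (e.symm z) : ℂ) • W e z :=
  ⟨fun e he z hz => (cd_ofReal (hχ e he z hz)).smul (h.sm e he z hz),
    fun e he e' he' x hx hx' => by
      beta_reduce
      rw [e.left_inv hx, e'.left_inv hx', Matrix.mulVec_smul, h.cmp e he e' he' x hx hx']⟩

/-- The multiplication. -/
def mul (g : Geo M σ) {χ : M.X → ℝ} (hχ : M.Sm χ) : Pre g →ₗ[ℂ] Pre g where
  toFun s := Pre.mk _ (sec_mul hχ s.sec)
  map_add' u v := Pre.ext (funext fun e => funext fun z => smul_add _ (u.val e z) (v.val e z))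
  map_smul' a u := Pre.ext (funext fun e => funext fun z => smul_comm _ a (u.val e z))

theorem bd (hZ : St_ZER) [M.Cpt] (g : Geo M σ) (Φ : M.Fam (Mx σ))
    (hΦ : M.All fun e z => ∀ i j, ContDiffAt ℝ ∞ (fun w => Φ e w i j) z)
    (hs : ∀ W, g.b.Sec W → g.b.Sec fun e z => Φ e z *ᵥ W e z) : ∃ C : ℝ, 0 ≤ C ∧ ∀ s t : Pre g,
      (M.All fun e z => t.val e z = Φ e z *ᵥ s.val e z) → ‖t‖ ≤ C * ‖s‖ := by
  obtain ⟨C, c0, hC⟩ := (hZ n M σ σ g.b g.b Φ g.ok g.ok hΦ).2 hs
  refine ⟨Real.sqrt C, Real.sqrt_nonneg _, fun s t h => ?_⟩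
  refine abs_le_of_sq_le_sq' ?_ (by positivity) |>.2
  rw [mul_pow, Real.sq_sqrt c0, Pre.norm_sq, Pre.norm_sq, Bun.nr, Bun.nr, ← integral_const_mul]
  refine integral_mono (Pre.itg t t).re ((Pre.itg s s).re.const_mul C) fun x => ?_
  have := hC s.val x
  rw [Bun.pn, ← Pre.pp_congr h h] at this
  exact this

omit [DecidableEq σ] in
theorem comm (D : Op M σ) {χ : M.X → ℝ} (hχ : M.Sm χ) {W : M.Fam (σ → ℂ)}
    (h : M.All fun e z => ContDiffAt ℝ ∞ (W e) z) : M.All fun e z =>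
      D.ap (fun e z => (χ (e.symm z) : ℂ) • W e z) e z - (χ (e.symm z) : ℂ) • D.ap W e z =
        (∑ k, (dz k (M.lc χ e) z • D.A k e z + dzb k (M.lc χ e) z • D.B k e z)) *ᵥ W e z :=
  fun e he z hz => by
    have dc : DifferentiableAt ℝ (M.lc χ e) z := cd_diff (cd_ofReal (hχ e he z hz))
    have du := fun i => cd_diff (contDiffAt_pi.1 (h e he z hz) i)
    have e1 : ∀ k, dzv k (fun z => (χ (e.symm z) : ℂ) • W e z) z =
        dz k (M.lc χ e) z • W e z + (χ (e.symm z) : ℂ) • dzv k (W e) z :=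
      fun k => funext fun i => dz_mul dc (du i)
    have e2 : ∀ k, dzbv k (fun z => (χ (e.symm z) : ℂ) • W e z) z =
        dzb k (M.lc χ e) z • W e z + (χ (e.symm z) : ℂ) • dzbv k (W e) z :=
      fun k => funext fun i => dzb_mul dc (du i)
    simp only [Op.ap, e1, e2, Matrix.mulVec_add, Matrix.mulVec_smul, Matrix.sum_mulVec,
      Matrix.add_mulVec, Matrix.smul_mulVec, smul_add, Finset.smul_sum, Finset.sum_add_distrib]
    abel

end CUT

open CUT in
theorem st_CUT (hZER : St_ZER) : St_CUT := by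
  intro n M _ σ _ _ g D hD χ hχ
  obtain ⟨C₁, c1, h1⟩ := bd hZER g (fun e z => (χ (e.symm z) : ℂ) • (1 : Mx σ))
    (fun e he z hz i j => (cd_ofReal (hχ e he z hz)).mul contDiffAt_const)
    fun W hW => sec_congr (sec_mul hχ hW) fun e _ z _ => by
      beta_reduce
      rw [Matrix.smul_mulVec, Matrix.one_mulVec]
  obtain ⟨C₂, c2, h2⟩ := bd hZER g
    (fun e z => ∑ k, (dz k (M.lc χ e) z • D.A k e z + dzb k (M.lc χ e) z • D.B k e z))
    (fun e he z hz i j => by
      have hc : ContDiffAt ℝ ∞ (M.lc χ e) z := cd_ofReal (hχ e he z hz)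
      simp only [Matrix.sum_apply, Matrix.add_apply, Matrix.smul_apply, smul_eq_mul]
      exact ContDiffAt.sum fun k _ => ((cd_dz hc k).mul (((hD.sm e he z hz).1 k).1 i j)).add
        ((cd_dzb hc k).mul (((hD.sm e he z hz).1 k).2 i j)))
    fun W hW => sec_congr (g.b.secs.sub_mem (hD.sec _ (sec_mul hχ hW)) (sec_mul hχ (hD.sec W hW)))
      fun e he z hz => (comm D hχ hW.sm e he z hz).symm
  refine ⟨mul g hχ, C₁ + C₂, add_nonneg c1 c2, fun s => ⟨fun _ _ => rfl, ?_, ?_, fun s' => ?_⟩⟩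
  · refine (h1 s _ fun e _ z _ => ?_).trans (by nlinarith [norm_nonneg s])
    beta_reduce
    rw [Matrix.smul_mulVec, Matrix.one_mulVec]
    rfl
  · refine (h2 s _ fun e he z hz => ?_).trans (by nlinarith [norm_nonneg s])
    refine Eq.trans ?_ (comm D hχ s.sec.sm e he z hz)
    show (Pre.op D hD.sec (mul g hχ s)).val e z -
      (χ (e.symm z) : ℂ) • (Pre.op D hD.sec s).val e z = _
    rw [Pre.op_val hD.sec _ e he z hz, Pre.op_val hD.sec _ e he z hz]
    rfl
  · rw [Pre.inner_def, Pre.inner_def, Bun.ip, Bun.ip]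
    refine integral_congr_ae (Eventually.of_forall fun x => ?_)
    show star ((χ _ : ℂ) • M.ev s.val x) ⬝ᵥ _ *ᵥ M.ev s'.val x =
      star (M.ev s.val x) ⬝ᵥ _ *ᵥ ((χ _ : ℂ) • M.ev s'.val x)
    rw [star_smul, smul_dotProduct, Matrix.mulVec_smul, dotProduct_smul, Complex.star_def,
      Complex.conj_ofReal]

end Pool.Agent.Lib.HLK
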