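import Pool.Agent.Lib.HLK.Blue

/-! Row DNS of the project hlk: dense range, weak solutions are strong solutions. -/

open scoped Classical Topology
open Set Filter

noncomputable section

namespace Pool.Agent.Lib.HLK

namespace DNS

open UniformSpace

variable {C : Type} [SeminormedAddCommGroup C] [InnerProductSpace ℂ C] {T : C →ₗ[ℂ] C}

theorem re0 (hT : ∀ a b, inner ℂ (T a) b = -inner ℂ a (T b)) (s : C) :
    (inner ℂ s (T s)).re = 0 := by
  have h1 := congrArg Complex.re (hT s s)
  have h2 : (inner ℂ (T s) s).re = (inner ℂ s (T s)).re := by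
    rw [← inner_conj_symm, Complex.conj_re]
  rw [h2, Complex.neg_re] at h1
  linarith

theorem nle (hT : ∀ a b, inner ℂ (T a) b = -inner ℂ a (T b)) (t : ℝ) (s : C) :
    ‖s‖ ≤ ‖s + (t : ℂ) • T s‖ := by
  have h := norm_add_sq (𝕜 := ℂ) s ((t : ℂ) • T s)
  have h0 : RCLike.re (inner ℂ s ((t : ℂ) • T s)) = 0 := by
    rw [inner_smul_right]
    show ((t : ℂ) * inner ℂ s (T s)).re = 0
    rw [Complex.re_ofReal_mul, re0 hT s, mul_zero]
  rw [h0] at h
  exact (pow_le_pow_iff_left₀ (norm_nonneg _) (norm_nonneg _) two_ne_zero).1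
    (by nlinarith [sq_nonneg ‖(t : ℂ) • T s‖])

theorem dense (hT : ∀ a b, inner ℂ (T a) b = -inner ℂ a (T b))
    (hW : ∀ u w : Completion C, (∀ s : C, inner ℂ u (T s : Completion C) =
      inner ℂ w (s : Completion C)) → ∃ A : ℝ, ∀ η : ℝ, 0 < η → ∃ s : C, ‖u - s‖ < η ∧ ‖T s‖ ≤ A)
    (t : ℝ) : DenseRange fun s : C => ((s + (t : ℂ) • T s : C) : Completion C) := by
  let L : C →ₗ[ℂ] Completion C :=
    (Completion.toComplL (𝕜 := ℂ) (E := C)).toLinearMap ∘ₗ (LinearMap.id + (t : ℂ) • T)
  have hL : ∀ s, L s = ((s + (t : ℂ) • T s : C) : Completion C) := fun s => rfl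
  have hbot : (LinearMap.range L)ᗮ = ⊥ := by
    rw [Submodule.eq_bot_iff]
    intro u hu
    have h0 : ∀ s : C, inner ℂ u (s : Completion C) + t * inner ℂ u (T s : Completion C) = 0 := by
      intro s
      have h := (Submodule.mem_orthogonal' _ _).1 hu (L s) ⟨s, rfl⟩
      rwa [hL, Completion.coe_add, Completion.coe_smul, inner_add_right, inner_smul_right] at h
    obtain ⟨A, hA⟩ : ∃ A : ℝ, ∀ η : ℝ, 0 < η → ∃ s : C, ‖u - s‖ < η ∧ |t| * ‖T s‖ ≤ A := by
      by_cases ht : t = 0
      · refine ⟨0, fun η hη => ?_⟩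
        obtain ⟨s, hs⟩ := Completion.denseRange_coe.exists_dist_lt u hη
        exact ⟨s, by rwa [dist_eq_norm] at hs, by simp [ht]⟩
      · have ht' : (t : ℂ) ≠ 0 := Complex.ofReal_ne_zero.2 ht
        obtain ⟨A, hA⟩ := hW u ((-(t⁻¹ : ℝ) : ℂ) • u) fun s => by
          rw [inner_smul_left, map_neg, Complex.conj_ofReal, Complex.ofReal_inv]
          have := h0 s
          field_simp
          linear_combination this
        refine ⟨|t| * A, fun η hη => ?_⟩
        obtain ⟨s, h1, h2⟩ := hA η hη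
        exact ⟨s, h1, mul_le_mul_of_nonneg_left h2 (abs_nonneg _)⟩
    have key : ∀ η : ℝ, 0 < η → ‖u‖ ^ 2 ≤ η * (‖u‖ + A) := by
      intro η hη
      obtain ⟨s, h1, h2⟩ := hA η hη
      have e1 : (inner ℂ u (s : Completion C)).re = ‖u‖ ^ 2 - (inner ℂ u (u - s)).re := by
        have e0 : (inner ℂ u u).re = ‖u‖ ^ 2 := inner_self_eq_norm_sq (𝕜 := ℂ) u
        rw [inner_sub_right, Complex.sub_re, e0]
        ring
      have e2 : (inner ℂ u (T s : Completion C)).re = (inner ℂ (u - s) (T s : Completion C)).re := by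
        rw [inner_sub_left, Complex.sub_re, Completion.inner_coe, re0 hT s, sub_zero]
      have e3 := congrArg Complex.re (h0 s)
      rw [Complex.add_re, Complex.re_ofReal_mul, e1, e2, Complex.zero_re] at e3
      have b1 : (inner ℂ u (u - s)).re ≤ ‖u‖ * η :=
        ((Complex.re_le_norm _).trans (norm_inner_le_norm _ _)).trans
          (mul_le_mul_of_nonneg_left h1.le (norm_nonneg _))
      have b2 : |(inner ℂ (u - s) (T s : Completion C)).re| ≤ η * ‖T s‖ := by
        refine ((Complex.abs_re_le_norm _).trans (norm_inner_le_norm _ _)).trans ?_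
        rw [Completion.norm_coe]
        exact mul_le_mul_of_nonneg_right h1.le (norm_nonneg _)
      have b3 : |t * (inner ℂ (u - s) (T s : Completion C)).re| ≤ η * A := by
        rw [abs_mul]
        nlinarith [mul_le_mul_of_nonneg_left b2 (abs_nonneg t), mul_le_mul_of_nonneg_left h2 hη.le]
      nlinarith [(abs_le.1 b3).1]
    have h2 : ‖u‖ ^ 2 ≤ 0 := by
      have hl : Tendsto (fun η : ℝ => η * (‖u‖ + A)) (𝓝[>] 0) (𝓝 (0 * (‖u‖ + A))) :=
        (tendsto_nhdsWithin_of_tendsto_nhds tendsto_id).mul_const _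
      rw [zero_mul] at hl
      exact ge_of_tendsto hl (eventually_nhdsWithin_of_forall key)
    exact norm_eq_zero.1 (pow_eq_zero_iff two_ne_zero |>.1 (le_antisymm h2 (sq_nonneg _)))
  have hd := (Submodule.topologicalClosure_eq_top_iff (K := LinearMap.range L)).2 hbot
  have hd' : Dense (LinearMap.range L : Set (Completion C)) :=
    Submodule.dense_iff_topologicalClosure_eq_top.2 hd
  refine hd'.mono ?_
  rintro _ ⟨s, rfl⟩
  exact ⟨s, rfl⟩

theorem strong (hT : ∀ a b, inner ℂ (T a) b = -inner ℂ a (T b))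
    (hD : ∀ t : ℝ, DenseRange fun s : C => ((s + (t : ℂ) • T s : C) : Completion C))
    (u w : Completion C) (h : ∀ s : C, inner ℂ u (T s : Completion C) =
      inner ℂ w (s : Completion C)) (η : ℝ) (hη : 0 < η) :
    ∃ s : C, ‖u - s‖ < η ∧ ‖w + (T s : C)‖ < η := by
  obtain ⟨s, hs⟩ := (hD 1).exists_dist_lt (u - w) (half_pos hη)
  rw [dist_eq_norm, Complex.ofReal_one, one_smul, Completion.coe_add] at hs
  set e : Completion C := u - w - (s + T s) with he
  have hx : ∀ y : Completion C, ‖inner ℂ (u - s) y‖ ≤ ‖e‖ * ‖y‖ := by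
    intro y
    refine (hD (-1)).induction_on y (isClosed_le (by fun_prop) (by fun_prop)) fun a => ?_
    have e1 : inner ℂ (u - s) ((a + ((-1 : ℝ) : ℂ) • T a : C) : Completion C) =
        inner ℂ e (a : Completion C) := by
      have e2 : inner ℂ (s : Completion C) (T a : Completion C) =
          -inner ℂ (T s : Completion C) (a : Completion C) := by
        rw [Completion.inner_coe, Completion.inner_coe, hT, neg_neg]
      rw [Completion.coe_add, Completion.coe_smul, he]
      simp only [inner_add_right, inner_smul_right, inner_sub_left, inner_add_left, h a, e2]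
      push_cast
      ring
    rw [e1, Completion.norm_coe]
    refine (norm_inner_le_norm _ _).trans ?_
    rw [Completion.norm_coe]
    exact mul_le_mul_of_nonneg_left (nle hT (-1) a) (norm_nonneg _)
  have h1 : ‖u - s‖ ≤ ‖e‖ := by
    have h2 := hx (u - s)
    rw [inner_self_eq_norm_sq_to_K] at h2
    have h3 : ‖u - (s : Completion C)‖ * ‖u - (s : Completion C)‖ ≤ ‖e‖ * ‖u - (s : Completion C)‖ := by
      simpa [sq] using h2
    rcases (norm_nonneg (u - (s : Completion C))).eq_or_lt with h4 | h4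
    · rw [← h4]
      exact norm_nonneg _
    · exact le_of_mul_le_mul_right h3 h4
  refine ⟨s, by linarith, ?_⟩
  have e3 : w + (T s : C) = (u - s) - e := by
    rw [he]
    abel
  rw [e3]
  linarith [norm_sub_le (u - (s : Completion C)) e]

end DNS

theorem st_DNS : St_DNS := by
  intro C _ _ T hT hW
  refine ⟨fun t d f hd => ?_, DNS.strong hT (DNS.dense hT hW)⟩
  obtain ⟨s, hs⟩ := (DNS.dense hT hW t).exists_dist_lt (f : UniformSpace.Completion C) hd
  rw [dist_comm, UniformSpace.Completion.dist_eq, dist_eq_norm] at hs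
  exact ⟨s, hs.le⟩

end Pool.Agent.Lib.HLK
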