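import Pool.Agent.Lib.HLK.Blue

/-! The derivative of the matrix of the minors. -/

open scoped Topology ContDiff Matrix
open Filter

noncomputable section

namespace Pool.Agent.Lib.HLK

open Pool.Agent.Lib.SV (E)
open Pool.Agent.Lib.HS32

namespace FK3

variable {n : ℕ} {T : E n → Mat n} {z : E n}

theorem dif (h : ∀ i j, DifferentiableAt ℂ (fun w => T w i j) z) (A B : Fs n) :
    DifferentiableAt ℂ (fun w => La (T w) A B) z := by
  by_cases c : B.card = A.card
  · simp only [La, Matrix.of_apply, dif_pos c, Matrix.det_apply', Matrix.submatrix_apply]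
    exact DifferentiableAt.fun_sum fun s _ =>
      (HasFDerivAt.finsetProd fun i _ => (h _ _).hasFDerivAt).differentiableAt.const_mul _
  · simp only [La, Matrix.of_apply, dif_neg c]
    exact differentiableAt_const _

theorem sm (h : SmM T z) : SmX (fun w => La (T w)) z := fun A B => by
  by_cases c : B.card = A.card
  · simp only [La, Matrix.of_apply, dif_pos c, Matrix.det_apply', Matrix.submatrix_apply]
    exact ContDiffAt.sum fun s _ => contDiffAt_const.mul (contDiffAt_prod fun i _ => h _ _)
  · simp only [La, Matrix.of_apply, dif_neg c]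
    exact contDiffAt_const

theorem dL_cr (h1 : St_FK1) (a : Mat n) (k : Fin n) :
    dL a * cr k = cr k * dL a + ∑ i, a i k • cr i := by
  have e : ∀ i j : Fin n, cr i * an j * cr k =
      cr k * (cr i * an j) + if j = k then cr i else 0 := fun i j => by
    rw [mul_assoc, eq_sub_of_add_eq ((h1 n).1 j k).2.2, mul_sub, ← mul_assoc, ← mul_assoc,
      eq_neg_of_add_eq_zero_left ((h1 n).1 i k).1]
    split_ifs <;> simp [add_comm]
  simp only [dL, Finset.sum_mul, Finset.mul_sum, Matrix.smul_mul, Matrix.mul_smul, e, smul_add,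
    Finset.sum_add_distrib, smul_ite, smul_zero, Finset.sum_ite_eq', Finset.mem_univ, if_true]

theorem dL_vac (a : Mat n) (A : Fs n) : dL a A ∅ = 0 := by
  have e : ∀ (j : Fin n) (B : Fs n), an j B ∅ = 0 := fun j B => by
    simp [an, cr, (Finset.insert_ne_empty j B).symm]
  simp only [dL, Matrix.sum_apply, Matrix.smul_apply, Matrix.mul_apply, e, mul_zero,
    Finset.sum_const_zero, smul_zero]

theorem key (h1 : St_FK1) (h2 : St_FK2) (hT : SmM T z) (hd : (T z).det ≠ 0)
    (d : (E n → ℂ) → ℂ) (dc : ∀ c : ℂ, d (fun _ => c) = 0)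
    (dm : ∀ f g : E n → ℂ, DifferentiableAt ℝ f z → DifferentiableAt ℝ g z →
      d (fun w => f w * g w) = d f * g z + f z * d g)
    (ds : ∀ (ι : Type) (s : Finset ι) (f : ι → E n → ℂ), (∀ i ∈ s, DifferentiableAt ℝ (f i) z) →
      d (fun w => ∑ i ∈ s, f i w) = ∑ i ∈ s, d (f i)) (A B : Fs n) :
    d (fun w => La (T w) A B) =
      (La (T z) * dL ((T z)⁻¹ * Matrix.of fun i j => d fun w => T w i j)) A B := by
  set T' : Mat n := Matrix.of fun i j => d fun w => T w i j with hT'
  set D : Mx (Fs n) := Matrix.of fun A B => d fun w => La (T w) A B with hD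
  have hL := fun A B => cd_diff (sm hT A B)
  have ht := fun i j => cd_diff (hT i j)
  have l1 : ∀ (X : Mx (Fs n)) A B, d (fun w => (X * La (T w)) A B) = (X * D) A B := fun X A B => by
    simp only [Matrix.mul_apply]
    rw [ds _ _ _ fun C _ => (hL C B).const_mul _]
    refine Finset.sum_congr rfl fun C _ => ?_
    rw [dm _ _ (differentiableAt_const _) (hL C B), dc, zero_mul, zero_add]
    rfl
  have l2 : ∀ (X : Mx (Fs n)) A B, d (fun w => (La (T w) * X) A B) = (D * X) A B := fun X A B => by
    simp only [Matrix.mul_apply]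
    rw [ds _ _ _ fun C _ => (hL A C).mul_const _]
    refine Finset.sum_congr rfl fun C _ => ?_
    rw [dm _ _ (hL A C) (differentiableAt_const _), dc, mul_zero, add_zero]
    rfl
  have l3 : ∀ (X : Mx (Fs n)) A B, DifferentiableAt ℝ (fun w => (X * La (T w)) A B) z :=
    fun X A B => by
      simp only [Matrix.mul_apply]
      exact DifferentiableAt.fun_sum fun C _ => (hL C B).const_mul _
  have e1 : ∀ k, D * cr k = ∑ i, T' i k • (cr i * La (T z)) + ∑ i, T z i k • (cr i * D) :=
    fun k => by
      ext A B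
      rw [← l2]
      simp only [((h2 n).2 _).2.2.2.1, Matrix.sum_apply, Matrix.smul_apply, smul_eq_mul,
        Matrix.add_apply, ← Finset.sum_add_distrib]
      rw [ds _ _ _ fun i _ => (ht i k).fun_mul (l3 _ A B)]
      refine Finset.sum_congr rfl fun i _ => ?_
      rw [dm _ _ (ht i k) (l3 _ A B), l1]
      rfl
  have e2 : T z * ((T z)⁻¹ * T') = T' := by
    rw [← mul_assoc, Matrix.mul_nonsing_inv _ hd.isUnit, one_mul]
  have e3 : ∀ (a : Mat n) k, La (T z) * dL a * cr k = ∑ i, (T z * a) i k • (cr i * La (T z)) +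
      ∑ i, T z i k • (cr i * (La (T z) * dL a)) := fun a k => by
    rw [mul_assoc, dL_cr h1, mul_add, ← mul_assoc, add_comm]
    simp only [Finset.mul_sum, Matrix.mul_smul, ((h2 n).2 _).2.2.2.1, Finset.sum_mul,
      Matrix.smul_mul, mul_assoc, Matrix.mul_apply, Finset.sum_smul, Finset.smul_sum, smul_smul]
    rw [Finset.sum_comm]
    simp only [mul_comm (a _ _)]
  have e4 := (h1 n).2 (D - La (T z) * dL ((T z)⁻¹ * T')) (fun k => ∑ i, T z i k • cr i)
    (fun k => by
      rw [sub_mul, e1, e3, e2]
      simp only [Finset.sum_mul, Matrix.smul_mul, mul_sub]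
      abel)
    (fun A => by
      simp only [Matrix.sub_apply, Matrix.mul_apply, dL_vac, mul_zero, Finset.sum_const_zero,
        sub_zero, hD, Matrix.of_apply, ((h2 n).2 _).2.1, dc])
  exact congrFun (congrFun (sub_eq_zero.1 e4) A) B

end FK3

theorem st_FK3 (hFK1 : St_FK1) (hFK2 : St_FK2) : St_FK3 := fun n T z =>
  ⟨fun h A B => by
    filter_upwards [eventually_all.2 fun i => eventually_all.2 fun j => h i j] with w hw
    exact FK3.dif hw A B,
  fun hT => ⟨FK3.sm hT, fun hd k A B =>
    ⟨FK3.key hFK1 hFK2 hT hd (fun f => dz k f z) (fun c => dz_const c)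
      (fun _ _ hf hg => dz_mul hf hg) (fun _ _ _ h => dz_sum h) A B,
    FK3.key hFK1 hFK2 hT hd (fun f => dzb k f z) (fun c => dzb_const c)
      (fun _ _ hf hg => dzb_mul hf hg) (fun _ _ _ h => dzb_sum h) A B⟩⟩⟩

end Pool.Agent.Lib.HLK
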