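import Pool.Agent.Lib.HLK.Blue

/-! Project hlk, row GAU: a smooth factorisation of a positive matrix. -/

open scoped Classical Topology ContDiff ComplexOrder Matrix
open Set Metric

noncomputable section

namespace Pool.Agent.Lib.HLK

open Pool.Agent.Lib.SV (E)

namespace GAU

variable {n : ℕ} {σ : Type} [Fintype σ] [DecidableEq σ]

/-- An elementary matrix. -/
def el (a : σ) (t : σ → ℂ) : Mx σ :=
  Matrix.of fun i j => (if i = j then 1 else 0) + if i = a then t j else 0

theorem el_conj (G : Mx σ) (a : σ) (t : σ → ℂ) (i j : σ) : ((el a t)ᴴ * G * el a t) i j =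
    G i j + t j * G i a + star (t i) * G a j + star (t i) * t j * G a a := by
  simp only [el, Matrix.mul_apply, Matrix.conjTranspose_apply, Matrix.of_apply, star_add,
    apply_ite star, star_one, star_zero, add_mul, mul_add, ite_mul, mul_ite, one_mul, mul_one,
    zero_mul, mul_zero, Finset.sum_add_distrib, Finset.sum_ite_eq', Finset.mem_univ, if_true]
  ring

theorem el_inj (a : σ) (t : σ → ℂ) (h : 1 + t a ≠ 0) : Function.Injective (el a t).mulVec := by
  have key : ∀ v : σ → ℂ, (el a t).mulVec v = 0 → v = 0 := by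
    intro v hv
    have e : ∀ i, v i + (if i = a then ∑ j, t j * v j else 0) = 0 := by
      intro i
      have := congrFun hv i
      simp only [el, Matrix.mulVec, dotProduct, Matrix.of_apply, add_mul, ite_mul, one_mul,
        zero_mul, Finset.sum_add_distrib, Finset.sum_ite_eq, Finset.mem_univ, if_true,
        Pi.zero_apply] at this
      by_cases hi : i = a
      · simpa [hi] using this
      · simpa [hi] using this
    have h1 : ∀ i, i ≠ a → v i = 0 := fun i hi => by simpa [hi] using e i
    have h2 : ∑ j, t j * v j = t a * v a :=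
      Finset.sum_eq_single a (fun j _ hj => by rw [h1 j hj, mul_zero]) (by simp)
    have h3 : (1 + t a) * v a = 0 := by
      have := e a
      rw [if_pos rfl, h2] at this
      linear_combination this
    funext i
    by_cases hi : i = a
    · rw [hi]; exact (mul_eq_zero.1 h3).resolve_left h
    · exact h1 i hi
  intro v v' hv
  have := key (v - v') (by rw [Matrix.mulVec_sub, hv, sub_self])
  exact sub_eq_zero.1 this

theorem sm_mul {A B : E n → Mx σ} {z : E n} (hA : SmX A z) (hB : SmX B z) :
    SmX (fun w => A w * B w) z := fun i j => by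
  simp only [Matrix.mul_apply]
  exact ContDiffAt.sum fun k _ => (hA i k).mul (hB k j)

theorem sm_ct {A : E n → Mx σ} {z : E n} (hA : SmX A z) : SmX (fun w => (A w)ᴴ) z := fun i j =>
  Complex.conjCLE.contDiff.contDiffAt.comp z (hA j i)

/-- The row of one step of the orthogonalisation. -/
def rw1 (G : Mx σ) (a : σ) (j : σ) : ℂ :=
  if j = a then ((Real.sqrt (G a a).re : ℝ) : ℂ)⁻¹ - 1 else -(G a j * (G a a)⁻¹)

theorem step (G : Mx σ) (hG : G.PosDef) (a : σ) :
    ((el a (rw1 G a))ᴴ * G * el a (rw1 G a)).PosDef ∧ ∀ i,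
      (i = a ∨ ∀ j, G i j = if i = j then 1 else 0) →
      ∀ j, ((el a (rw1 G a))ᴴ * G * el a (rw1 G a)) i j = if i = j then 1 else 0 := by
  have hp : 0 < G a a := hG.diag_pos
  have hr : 0 < (G a a).re := (Complex.pos_iff.1 hp).1
  have hs : ((Real.sqrt (G a a).re : ℝ) : ℂ) ≠ 0 := by
    exact_mod_cast (Real.sqrt_pos.2 hr).ne'
  have hq : ((Real.sqrt (G a a).re : ℝ) : ℂ) * ((Real.sqrt (G a a).re : ℝ) : ℂ) = G a a := by
    rw [← Complex.ofReal_mul, Real.mul_self_sqrt hr.le]
    exact Complex.ext rfl (by simpa using (Complex.pos_iff.1 hp).2)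
  refine ⟨hG.conjTranspose_mul_mul_same (el_inj a _ ?_), fun i hi j => ?_⟩
  · simp only [rw1, if_true, add_sub_cancel]
    exact inv_ne_zero hs
  rw [el_conj]
  by_cases hia : i = a
  · subst hia
    by_cases hj : j = i
    · subst hj
      simp only [rw1, if_true, star_sub, star_inv₀, star_one, Complex.star_def,
        Complex.conj_ofReal]
      generalize ((Real.sqrt (G j j).re : ℝ) : ℂ) = s at hs hq
      rw [← hq]
      field_simp
      ring
    · have hj' : ¬ i = j := fun h => hj h.symm
      simp only [rw1, if_neg hj, if_neg hj']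
      have := hp.ne'
      field_simp
      ring
  · have h0 := hi.resolve_left hia
    have h1 : G i a = 0 := by rw [h0 a, if_neg hia]
    have h2 : G a i = 0 := by rw [← hG.1.apply a i, h1, star_zero]
    have h3 : rw1 G a i = 0 := by simp [rw1, hia, h2]
    rw [h1, h3, h0 j]
    simp

theorem sm_el {G : E n → Mx σ} {z : E n} (hG : SmX G z) (hp : (G z).PosDef) (a : σ) :
    SmX (fun w => el a (rw1 (G w) a)) z := fun i j => by
  have h0 : 0 < G z a a := hp.diag_pos
  have hr : 0 < (G z a a).re := (Complex.pos_iff.1 h0).1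
  simp only [el, Matrix.of_apply]
  refine contDiffAt_const.add ?_
  by_cases hi : i = a
  · simp only [if_pos hi, rw1]
    by_cases hj : j = a
    · simp only [if_pos hj]
      refine (ContDiffAt.inv ?_ ?_).sub contDiffAt_const
      · exact Complex.ofRealCLM.contDiff.contDiffAt.comp z
          ((Complex.reCLM.contDiff.contDiffAt.comp z (hG a a)).sqrt hr.ne')
      · exact_mod_cast (Real.sqrt_pos.2 hr).ne'
    · simp only [if_neg hj]
      exact ((hG a j).mul ((hG a a).inv h0.ne')).neg
  · simp only [if_neg hi]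
    exact contDiffAt_const

theorem ind (G : E n → Mx σ) (U : Set (E n)) (h : ∀ w ∈ U, SmX G w ∧ (G w).PosDef)
    (s : Finset σ) : ∃ S : E n → Mx σ, ∀ w ∈ U, SmX S w ∧ ((S w)ᴴ * G w * S w).PosDef ∧
      ∀ i ∈ s, ∀ j, ((S w)ᴴ * G w * S w) i j = if i = j then 1 else 0 := by
  induction s using Finset.induction_on with
  | empty =>
    exact ⟨fun _ => 1, fun w hw => ⟨fun _ _ => contDiffAt_const, by simpa using (h w hw).2,
      by simp⟩⟩
  | insert a s _ ih =>
    obtain ⟨S, hS⟩ := ih
    refine ⟨fun w => S w * el a (rw1 ((S w)ᴴ * G w * S w) a), fun w hw => ?_⟩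
    obtain ⟨h1, h2, h3⟩ := hS w hw
    have e : ∀ T : Mx σ, (S w * T)ᴴ * G w * (S w * T) = Tᴴ * ((S w)ᴴ * G w * S w) * T := by
      intro T
      simp only [Matrix.conjTranspose_mul, Matrix.mul_assoc]
    obtain ⟨p1, p2⟩ := step _ h2 a
    refine ⟨sm_mul h1 (sm_el (sm_mul (sm_mul (sm_ct h1) (h w hw).1) h1) h2 a), ?_, ?_⟩
    · rw [e]; exact p1
    · intro i hi
      rw [e]
      exact p2 i ((Finset.mem_insert.1 hi).imp id (h3 i))

end GAU

/-- A local smooth factorisation. -/
theorem st_GAU : St_GAU := by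
  intro n σ _ _ G U z hU hz h
  obtain ⟨S, hS⟩ := GAU.ind G U h Finset.univ
  obtain ⟨r, hr, hb⟩ := Metric.isOpen_iff.1 hU z hz
  refine ⟨fun w => (S w)ᴴ * G w, S, r, hr, hb, fun w hw => ?_⟩
  obtain ⟨h1, _, h3⟩ := hS w (hb hw)
  have e1 : (S w)ᴴ * G w * S w = 1 := by
    ext i j
    rw [h3 i (Finset.mem_univ i) j, Matrix.one_apply]
  have e2 : S w * ((S w)ᴴ * G w) = 1 := mul_eq_one_comm.1 e1
  refine ⟨GAU.sm_mul (GAU.sm_ct h1) (h w (hb hw)).1, h1, e1, e2, ?_⟩
  rw [Matrix.conjTranspose_mul, Matrix.conjTranspose_conjTranspose, (h w (hb hw)).2.1.eq,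
    Matrix.mul_assoc, e2, Matrix.mul_one]

end Pool.Agent.Lib.HLK
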