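import Pool.Agent.Lib.HLK.Blue

/-! Project hlk: the gradient term. -/

open scoped Classical Topology ContDiff ComplexOrder Matrix ENNReal
open Set MeasureTheory Complex Metric Filter

set_option linter.unusedVariables false
set_option linter.unusedSectionVars false

noncomputable section

namespace Pool.Agent.Lib.HLK

open Pool.Agent.Lib.SV (E)
open Pool.Agent.Lib.HS32 Pool.Agent.Lib.KP

namespace GB

variable {σ : Type} [Fintype σ] [DecidableEq σ]

/-- The size of a matrix. -/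
def sz (P : Mx σ) : ℝ := 1 + ∑ i, ∑ j, ‖P i j‖

theorem sz_pos (P : Mx σ) : 0 < sz P := by
  unfold sz
  positivity

theorem up (P : Mx σ) (v : σ → ℂ) : (star v ⬝ᵥ P *ᵥ v).re ≤ sz P * ∑ i, ‖v i‖ ^ 2 := by
  have h1 : ∀ i, ‖v i‖ ^ 2 ≤ ∑ i, ‖v i‖ ^ 2 := fun i =>
    Finset.single_le_sum (f := fun i => ‖v i‖ ^ 2) (fun _ _ => sq_nonneg _) (Finset.mem_univ i)
  have h0 : 0 ≤ ∑ i, ‖v i‖ ^ 2 := Finset.sum_nonneg fun _ _ => sq_nonneg _
  have h2 : ‖star v ⬝ᵥ P *ᵥ v‖ ≤ (∑ i, ∑ j, ‖P i j‖) * ∑ i, ‖v i‖ ^ 2 := by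
    rw [Finset.sum_mul]
    simp only [dotProduct, Matrix.mulVec]
    refine (norm_sum_le _ _).trans (Finset.sum_le_sum fun i _ => ?_)
    rw [Finset.sum_mul, Finset.mul_sum]
    refine (norm_sum_le _ _).trans (Finset.sum_le_sum fun j _ => ?_)
    rw [norm_mul, norm_mul, Pi.star_apply, norm_star, mul_left_comm]
    refine mul_le_mul_of_nonneg_left ?_ (norm_nonneg _)
    nlinarith [h1 i, h1 j, sq_nonneg (‖v i‖ - ‖v j‖)]
  have := (re_le_norm _).trans h2
  unfold sz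
  nlinarith

theorem self_re (v : σ → ℂ) : (star v ⬝ᵥ v).re = ∑ i, ‖v i‖ ^ 2 := by
  simp only [dotProduct, re_sum, Pi.star_apply]
  refine Finset.sum_congr rfl fun i _ => ?_
  rw [RCLike.star_def, Complex.conj_mul', ← ofReal_pow, ofReal_re]

theorem lo {P : Mx σ} (hP : P.PosDef) (v : σ → ℂ) :
    ∑ i, ‖v i‖ ^ 2 ≤ sz P⁻¹ * (star v ⬝ᵥ P *ᵥ v).re := by
  have hs := sz_pos P⁻¹
  obtain ⟨t, ht⟩ : ∃ t : ℝ, t * sz P⁻¹ = 1 := ⟨_, inv_mul_cancel₀ hs.ne'⟩
  have hu : IsUnit P.det := hP.det_pos.ne'.isUnit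
  have h1 := hP.posSemidef.conjTranspose_mul_mul_same (1 - (t : ℂ) • P⁻¹)
  have h2 : (1 - (t : ℂ) • P⁻¹)ᴴ * P * (1 - (t : ℂ) • P⁻¹) =
      P - ((2 * t : ℝ) : ℂ) • (1 : Mx σ) + ((t ^ 2 : ℝ) : ℂ) • P⁻¹ := by
    rw [Matrix.conjTranspose_sub, Matrix.conjTranspose_one, Matrix.conjTranspose_smul,
      hP.inv.1.eq, RCLike.star_def, conj_ofReal, Matrix.sub_mul, Matrix.one_mul, Matrix.smul_mul,
      Matrix.nonsing_inv_mul _ hu, Matrix.mul_sub, Matrix.mul_one, Matrix.mul_smul, Matrix.sub_mul,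
      Matrix.mul_nonsing_inv _ hu, Matrix.smul_mul, Matrix.one_mul]
    push_cast
    module
  rw [h2] at h1
  have h3 := (Complex.le_def.1 (h1.dotProduct_mulVec_nonneg v)).1
  rw [Matrix.add_mulVec, Matrix.sub_mulVec, Matrix.smul_mulVec, Matrix.smul_mulVec,
    Matrix.one_mulVec, dotProduct_add, dotProduct_sub, dotProduct_smul, dotProduct_smul, add_re,
    sub_re, smul_eq_mul, smul_eq_mul, re_ofReal_mul, re_ofReal_mul, self_re, zero_re] at h3
  have h4 := mul_le_mul_of_nonneg_left (up P⁻¹ v) (sq_nonneg t)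
  have h5 : t ^ 2 * (sz P⁻¹ * ∑ i, ‖v i‖ ^ 2) = t * ∑ i, ‖v i‖ ^ 2 := by
    linear_combination (t * ∑ i, ‖v i‖ ^ 2) * ht
  have h6 : t * ∑ i, ‖v i‖ ^ 2 ≤ (star v ⬝ᵥ P *ᵥ v).re := by linarith
  have h7 := mul_le_mul_of_nonneg_left h6 hs.le
  rwa [← mul_assoc, mul_comm _ t, ht, one_mul] at h7

theorem lo1 {P : Mx σ} (hP : P.PosDef) (v : σ → ℂ) (i : σ) :
    ‖v i‖ ^ 2 ≤ sz P⁻¹ * (star v ⬝ᵥ P *ᵥ v).re :=
  (Finset.single_le_sum (f := fun i => ‖v i‖ ^ 2) (fun _ _ => sq_nonneg _)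
    (Finset.mem_univ i)).trans (lo hP v)

theorem diag {n : ℕ} {H N : Mat n} (hH : H.PosDef) (hN : N.PosSemidef) (k : Fin n) :
    (N k k).re ≤ sz H * (H⁻¹ * N).trace.re := by
  obtain ⟨W, rfl⟩ := Mf.psd_factor hN
  have h1 : (H⁻¹ * (Wᴴ * W)).trace = ∑ r, star (star (W r)) ⬝ᵥ H⁻¹ *ᵥ star (W r) := by
    rw [← Matrix.mul_assoc, Matrix.trace_mul_comm]
    simp only [star_star]
    rfl
  have h2 : ((Wᴴ * W) k k).re = ∑ r, ‖star (W r) k‖ ^ 2 := by
    have := self_re fun r => W r k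
    simp only [Pi.star_apply, norm_star]
    exact this
  rw [h1, h2, re_sum, Finset.mul_sum]
  refine Finset.sum_le_sum fun r _ => ?_
  have := lo1 hH.inv (star (W r)) k
  rwa [Matrix.nonsing_inv_nonsing_inv _ hH.det_pos.ne'.isUnit] at this

theorem sz_cont {X : Type} [TopologicalSpace X] {P : X → Mx σ} {z : X} (h : ContinuousAt P z) :
    ContinuousAt (fun w => sz (P w)) z :=
  continuousAt_const.add (tendsto_finsetSum _ fun i _ => tendsto_finsetSum _ fun j _ =>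
    (continuousAt_pi.1 (continuousAt_pi.1 h i) j).norm)

variable {n : ℕ} {M : Mf n} {b : Bun M σ} {W : M.Fam (σ → ℂ)}

theorem dzb_hol {f : E n → ℂ} {z : E n} {j : Fin n} (h : DifferentiableAt ℂ f z) :
    dzb j f z = 0 := ((mHOL n f z).1 (h.restrictScalars ℝ)).1 h j

/-- The matrix of the derivatives. -/
def dm (W : M.Fam (σ → ℂ)) (e : M.Ch) (z : E n) : Matrix σ (Fin n) ℂ :=
  Matrix.of fun i l => dzbv l (W e) z i

/-- The tensor of the products of the derivatives. -/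
def nt (b : Bun M σ) (W : M.Fam (σ → ℂ)) : M.Fam (Mat n) := fun e z =>
  ((dm W e z)ᴴ * b.G e z * dm W e z)ᵀ

theorem nt_apply (e : M.Ch) (z : E n) (k l : Fin n) :
    nt b W e z l k = star (dzbv k (W e) z) ⬝ᵥ b.G e z *ᵥ dzbv l (W e) z := by
  rw [nt, Matrix.mul_assoc]
  rfl

theorem dm_cmp (hl : b.Hl) (h : b.Sec W) : M.Ov fun e e' x =>
    b.T e e' x * dm W e' (e' x) = dm W e (e x) * ((M.J e e' x)ᴴ)ᵀ := by
  intro e he e' he' x hx hx'
  ext k l
  obtain ⟨hN, hJ, -, hev, -⟩ := (mTR n M).2.1 e he e' he' x hx hx'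
  have hψ : (e ∘ e'.symm) (e' x) = e x := by simp [e'.left_inv hx']
  obtain ⟨c1, c2, -, c4, -, -, -, -, -, c10, -⟩ := mCHN n _ _ hN
  have s1 := h.sm e he _ (e.map_source hx)
  have s2 := h.sm e' he' _ (e'.map_source hx')
  have d1 : DifferentiableAt ℝ (fun y => W e y k) ((e ∘ e'.symm) (e' x)) := by
    rw [hψ]
    exact cd_diff (contDiffAt_pi.1 s1 k)
  have d2 : ∀ a, DifferentiableAt ℂ (fun y => b.T e e' (e'.symm y) k a) (e' x) := fun a =>
    (hl e he e' he' x hx hx' k a).self_of_nhds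
  have heq : (fun y => ∑ a, b.T e e' (e'.symm y) k a * W e' y a) =ᶠ[𝓝 (e' x)]
      (fun y => W e y k) ∘ (e ∘ e'.symm) := by
    filter_upwards [hev] with y hy
    have := congrFun (h.cmp e he e' he' _ hy.2.1 hy.2.2.1) k
    rw [hy.2.2.2.2.2.1] at this
    exact this.symm
  have h := dzb_congr (j := l) heq
  rw [(c10 _ d1 l).2, hψ, dzb_sum fun a _ =>
    ((d2 a).restrictScalars ℝ).fun_mul (cd_diff (contDiffAt_pi.1 s2 a))] at h
  refine Eq.trans (Finset.sum_congr rfl fun a _ => ?_) h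
  rw [dzb_mul ((d2 a).restrictScalars ℝ) (cd_diff (contDiffAt_pi.1 s2 a)), dzb_hol (d2 a),
    zero_mul, zero_add, e'.left_inv hx']
  rfl

theorem nt_ten (hb : b.Ok) (hl : b.Hl) (h : b.Sec W) : M.Ten (nt b W) where
  sm e he z hz l k := by
    simp only [nt_apply, dotProduct, Matrix.mulVec, Pi.star_apply]
    exact ContDiffAt.sum fun i _ => (cd_star (cd_dzb (contDiffAt_pi.1 (h.sm e he z hz) i) k)).mul
      (ContDiffAt.sum fun j _ => (hb.gsm e he z hz i j).mul
        (cd_dzb (contDiffAt_pi.1 (h.sm e he z hz) j) l))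
  cmp e he e' he' x hx hx' := by
    have h1 : (dm W e' (e' x))ᴴ * b.G e' (e' x) * dm W e' (e' x) =
        (b.T e e' x * dm W e' (e' x))ᴴ * b.G e (e x) * (b.T e e' x * dm W e' (e' x)) := by
      rw [hb.cmp e he e' he' x hx hx', Matrix.conjTranspose_mul]
      simp only [Matrix.mul_assoc]
    have h2 : (((M.J e e' x)ᴴ)ᵀ)ᴴ = (M.J e e' x)ᵀ := by
      ext i j
      simp
    simp only [nt]
    rw [h1, dm_cmp hl h e he e' he' x hx hx', Matrix.conjTranspose_mul, h2]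
    simp only [Matrix.transpose_mul, Matrix.transpose_transpose, Matrix.mul_assoc]

theorem nt_psd (hb : b.Ok) : M.All fun e z => (nt b W e z).PosSemidef := fun e he z hz =>
  ((hb.pos e he z hz).posSemidef.conjTranspose_mul_mul_same _).transpose

theorem tr_eq (H : Mat n) (e : M.Ch) (z : E n) : (H * nt b W e z).trace =
    ∑ k, ∑ l, H k l * (star (dzbv k (W e) z) ⬝ᵥ b.G e z *ᵥ dzbv l (W e) z) := by
  simp only [← nt_apply]
  rfl

theorem gb_eq (H : M.Fam (Mat n)) : gb H b W = M.tr H (nt b W) := by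
  funext x
  exact congrArg re (tr_eq _ _ _).symm

end GB

open GB in
theorem st_GB : St_GB := by
  intro n M σ _ _ H b hH hb hl
  have key : ∀ W, b.Sec W → M.Rep (gb H b W) (fun e z => ((H e z)⁻¹ * nt b W e z).trace.re) ∧
      M.Sm (gb H b W) := fun W hW => by
    rw [gb_eq]
    exact ⟨((mINV n M H hH).1 _ (nt_ten hb hl hW)).1, ((mINV n M H hH).1 _ (nt_ten hb hl hW)).2.1⟩
  have pos : ∀ W x, 0 ≤ gb H b W x := fun W x => by
    rw [gb_eq]
    exact Mf.trace_inv_mul_nonneg (hH.ev_pos x) ((nt_psd hb).ch x)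
  refine ⟨fun W hW => ⟨fun e he z hz => ?_, (key W hW).2.continuous, pos W, fun V hV hh => ?_⟩,
    fun e he => ⟨fun z => sz (b.G e z)⁻¹ + sz (b.G e z)⁻¹ * sz (H e z) + sz (b.G e z),
      fun z hz => ?_⟩⟩
  · exact ((key W hW).1 e he z hz).trans (congrArg re (tr_eq _ _ _))
  · funext x
    have : ∀ k, dzbv k ((W - V) (M.ch x)) (M.ch x x) = dzbv k (W (M.ch x)) (M.ch x x) := fun k => by
      funext i
      have := dzb_sub (j := k) (cd_diff (contDiffAt_pi.1 (hW.sm.ch x) i))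
        (cd_diff (contDiffAt_pi.1 (hV.sm.ch x) i))
      rw [dzb_hol (Mf.AllOn.ch hh x i).self_of_nhds, sub_zero] at this
      exact this
    simp only [gb, Mf.ev, this]
  · have hG := hb.pos e he z hz
    have cG : ContinuousAt (b.G e) z := continuousAt_pi.2 fun i => continuousAt_pi.2 fun j =>
      (hb.gsm e he z hz i j).continuousAt
    have cI : ContinuousAt (fun w => (b.G e w)⁻¹) z :=
      (continuousAt_matrix_inv _
        (NormedRing.inverse_continuousAt hG.det_pos.ne'.isUnit.unit)).comp cG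
    have p1 := sz_pos (b.G e z)⁻¹
    have p2 := sz_pos (H e z)
    have p3 := sz_pos (b.G e z)
    have p4 := mul_pos p1 p2
    refine ⟨((sz_cont cI).add ((sz_cont cI).mul (sz_cont (hH.sm e he z hz).continuousAt))).add
      (sz_cont cG), by positivity, fun W hW => ?_⟩
    have e1 : b.pn W (e.symm z) = (star (W e z) ⬝ᵥ b.G e z *ᵥ W e z).re :=
      congrArg re ((hb.pp_rep hW hW).1 e he z hz)
    have n1 : 0 ≤ b.pn W (e.symm z) := by
      rw [e1]
      exact (Complex.le_def.1 (hG.posSemidef.dotProduct_mulVec_nonneg _)).1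
    refine ⟨fun i => ?_, fun k i => ?_, ?_⟩
    · have := lo1 hG (W e z) i
      rw [← e1] at this
      exact this.trans (mul_le_mul_of_nonneg_right (by linarith) n1)
    · have h1 := lo1 hG (dzbv k (W e) z) i
      have h2 := diag (hH.pos e he z hz) (nt_psd (W := W) hb e he z hz) k
      rw [nt_apply, ← show gb H b W (e.symm z) = ((H e z)⁻¹ * nt b W e z).trace.re from
        (key W hW).1 e he z hz] at h2
      refine (h1.trans (mul_le_mul_of_nonneg_left h2 p1.le)).trans ?_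
      rw [← mul_assoc]
      exact mul_le_mul_of_nonneg_right (by linarith) (pos W _)
    · rw [e1]
      exact (up _ _).trans (mul_le_mul_of_nonneg_right (by linarith)
        (Finset.sum_nonneg fun _ _ => sq_nonneg _))

end Pool.Agent.Lib.HLK
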