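import Pool.Agent.Lib.HLK.Blue

/-! Project hlk: the bundle of the multivectors. -/

open scoped Classical Topology ContDiff ComplexOrder Matrix ENNReal
open Set MeasureTheory Complex Metric Filter

set_option linter.unusedVariables false

noncomputable section

namespace Pool.Agent.Lib.HLK

open Pool.Agent.Lib.SV (E)
open Pool.Agent.Lib.HS32 Pool.Agent.Lib.KP
open Pool.Agent.Lib.EXH (aw)

namespace LAM

variable {n : ℕ} {M : Mf n} {H : M.Fam (Mat n)} {L : M.Co} {φ : M.Fam ℝ}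

theorem hl (hFK3 : St_FK3) : (lam H L φ).Hl := fun e he e' he' x hx hx' A B => by
  obtain ⟨t1, -, -, t3, -⟩ := (mTR n M).2.1 e he e' he' x hx hx'
  have hj : ∀ i j, HolN (fun w => jm (e ∘ e'.symm) w i j) (e' x) := fun i j => by
    filter_upwards [((mHOL n _ _).2.2 (BCHN.hol_comp t1 i)).2.1 j,
      (BCHN.jm_ev mHOL t1 i j).eventually_nhds] with w h1 h2 using h1.congr_of_eventuallyEq h2
  have hc := L.hol e he e' he' x hx hx'
  have h0 : ∀ᶠ w in 𝓝 (e' x), L.c e e' (e'.symm w) ≠ 0 :=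
    hc.self_of_nhds.continuousAt.eventually_ne
      (by simpa only [e'.left_inv hx'] using L.ne e he e' he' x hx hx')
  filter_upwards [(hFK3 n _ _).1 hj A B, hc, h0, t3.eventually_nhds] with w h1 h2 h3 h4
  refine ((h2.inv h3).mul h1).congr_of_eventuallyEq (h4.mono fun y hy => ?_)
  simp only [lam, hy.2.2.2.2.2.2, Matrix.smul_apply, smul_eq_mul, Pi.mul_apply, Pi.inv_apply]

theorem ok (hFK2 : St_FK2) (hFK3 : St_FK3) (hH : M.Met H) (hφ : M.WtC L φ) : (lam H L φ).Ok where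
  tsm e he e' he' x hx hx' A B := ((mHOL n _ _).2.2 (hl hFK3 e he e' he' x hx hx' A B)).1
  one e he x hx := by
    simp only [lam, Mf.Co.self L he hx, (mTR n M).2.2.1 e he x hx, (hFK2 n).1, inv_one, one_smul]
  mul e he e' he' x hx hx' e'' he'' hx'' := by
    simp only [lam, L.mul e he e' he' x hx hx' e'' he'' hx'',
      ((mTR n M).2.1 e he e' he' x hx hx').2.2.2.2 e'' he'' hx'', ((hFK2 n).2 _).2.2.1,
      Matrix.smul_mul, Matrix.mul_smul, smul_smul, mul_inv]
    rw [mul_comm]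
  gsm e he z hz A B :=
    (cd_ofReal (hφ.sm e he z hz).neg.exp).mul (((hFK3 n _ _).2 (hH.sm e he z hz)).1 A B)
  pos e he z hz := (((hFK2 n).2 _).2.2.2.2.2 (hH.pos e he z hz)).smul
    (Complex.zero_lt_real.2 (Real.exp_pos _))
  cmp e he e' he' x hx hx' := by
    have h0 := L.ne e he e' he' x hx hx'
    have e1 : ((Real.exp (-φ e' (e' x)) : ℝ) : ℂ) =
        star (L.c e e' x)⁻¹ * (((Real.exp (-φ e (e x)) : ℝ) : ℂ) * (L.c e e' x)⁻¹) := by
      rw [hφ.cmp e he e' he' x hx hx', neg_add, Real.exp_add, Real.exp_neg (Real.log _),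
        Real.exp_log (normSq_pos.2 h0), ofReal_mul, ofReal_inv, normSq_eq_conj_mul_self, star_inv₀,
        mul_inv, RCLike.star_def]
      ring
    simp only [lam, hH.cmp e he e' he' x hx hx', ((hFK2 n).2 _).2.2.1, ((hFK2 n).2 _).1, e1,
      Matrix.conjTranspose_smul, Matrix.smul_mul, Matrix.mul_smul, smul_smul]
    congr 1
    ring

theorem g_aw (w : M.X → ℝ) (x : M.X) : (lam H L (aw M φ w)).G (M.ch x) (M.ch x x) =
    ((Real.exp (-w x) : ℝ) : ℂ) • (lam H L φ).G (M.ch x) (M.ch x x) := by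
  simp only [lam, aw, Pi.add_apply, Mf.ch_symm, neg_add, Real.exp_add, ofReal_mul, smul_smul,
    mul_comm]

end LAM

theorem st_LAM (hFK2 : St_FK2) (hFK3 : St_FK3) : St_LAM := by
  intro n M H L φ hH hφ
  refine ⟨LAM.ok hFK2 hFK3 hH hφ, LAM.hl hFK3, fun w => ⟨fun hw => hφ.addF hw, fun W W' x => ?_⟩⟩
  have p : ∀ U U', (lam H L (aw M φ w)).pp U U' x =
      (lam H L φ).pp U U' x * (Real.exp (-w x) : ℝ) := fun U U' => by
    simp only [Bun.pp, Mf.ev, LAM.g_aw, Matrix.smul_mulVec, dotProduct_smul, smul_eq_mul, mul_comm]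
  refine ⟨p W W', by rw [Bun.pn, p, re_mul_ofReal, Bun.pn], ?_⟩
  simp only [gb, Mf.ev, LAM.g_aw, Matrix.smul_mulVec, dotProduct_smul, smul_eq_mul]
  rw [← re_mul_ofReal, Finset.sum_mul]
  refine congrArg re (Finset.sum_congr rfl fun k _ => ?_)
  rw [Finset.sum_mul]
  exact Finset.sum_congr rfl fun l _ => by ring

end Pool.Agent.Lib.HLK
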