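import Pool.Agent.Lib.HLK.Blue

/-! Project hlk, row NEAR: almost minimal representatives. -/

noncomputable section

namespace Pool.Agent.Lib.HLK

namespace NEAR

variable {C : Type} [SeminormedAddCommGroup C] [InnerProductSpace ℂ C]

theorem pyth (a b : C) (t : ℝ) (h : (inner ℂ a b).re = 0) :
    ‖a + (t : ℂ) • b‖ ^ 2 = ‖a‖ ^ 2 + (|t| * ‖b‖) ^ 2 := by
  rw [norm_add_sq (𝕜 := ℂ), inner_smul_right, norm_smul, Complex.norm_real, Real.norm_eq_abs]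
  simp only [RCLike.re_to_complex, Complex.re_ofReal_mul, h]
  ring

theorem both (a b f : C) (t d : ℝ) (h : (inner ℂ a b).re = 0)
    (hd : ‖a + (t : ℂ) • b - f‖ ≤ d) : ‖a‖ ≤ ‖f‖ + d ∧ |t| * ‖b‖ ≤ ‖f‖ + d := by
  have h1 : ‖a + (t : ℂ) • b‖ ≤ ‖f‖ + d := by
    have := norm_add_le (a + (t : ℂ) • b - f) f
    rw [sub_add_cancel] at this
    linarith
  have h2 := pyth a b t h
  have h3 : ‖a + (t : ℂ) • b‖ ^ 2 ≤ (‖f‖ + d) ^ 2 := pow_le_pow_left₀ (norm_nonneg _) h1 2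
  have h0 : 0 ≤ ‖f‖ + d := (norm_nonneg _).trans h1
  exact ⟨abs_le_of_sq_le_sq' (by nlinarith [sq_nonneg (|t| * ‖b‖)]) h0 |>.2,
    abs_le_of_sq_le_sq' (by nlinarith [sq_nonneg ‖a‖]) h0 |>.2⟩

theorem half (a b : C) (c : ℝ) (ha : ‖a‖ ≤ c) (hb : ‖b‖ ≤ c) :
    ‖(2⁻¹ : ℂ) • (a + b)‖ ≤ c ∧ ‖(2⁻¹ : ℂ) • (a - b)‖ ≤ c := by
  have e : ‖(2⁻¹ : ℂ)‖ = 2⁻¹ := by simp
  rw [norm_smul, norm_smul, e]
  exact ⟨by linarith [norm_add_le a b], by linarith [norm_sub_le a b]⟩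

theorem re_le (a b : C) : |(inner ℂ a b).re| ≤ ‖a‖ * ‖b‖ :=
  (Complex.abs_re_le_norm _).trans (norm_inner_le_norm a b)

theorem re_self (a : C) : (inner ℂ a a).re = ‖a‖ ^ 2 := inner_self_eq_norm_sq (𝕜 := ℂ) a

theorem re_symm (a b : C) : (inner ℂ a b).re = (inner ℂ b a).re := by
  rw [← inner_conj_symm, Complex.conj_re]

end NEAR

open NEAR in
theorem st_NEAR : St_NEAR := by
  intro C _ _ P Q hA hO hD t d f ht hd
  have sk : ∀ a : C, (inner ℂ a (Q a + P a)).re = 0 := fun a => by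
    rw [inner_add_right, Complex.add_re, re_symm a (Q a), hA, Complex.neg_re]
    ring
  obtain ⟨u, hu⟩ := hD t d f hd
  obtain ⟨v, hv⟩ := hD (-t) d f hd
  obtain ⟨u1, u2⟩ := both _ _ _ _ _ (sk u) hu
  obtain ⟨v1, v2⟩ := both _ _ _ _ _ (sk v) hv
  rw [abs_of_pos ht] at u2
  rw [abs_neg, abs_of_pos ht] at v2
  obtain ⟨r1, r2⟩ := half _ _ _ hu hv
  obtain ⟨w1, y1⟩ := half _ _ _ u1 v1
  have nt : ∀ a : C, ‖(t : ℂ) • a‖ = t * ‖a‖ := fun a => by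
    rw [norm_smul, Complex.norm_real, Real.norm_eq_abs, abs_of_pos ht]
  obtain ⟨w2, -⟩ := half _ _ _ ((nt _).trans_le u2) ((nt _).trans_le v2)
  generalize hr : (2⁻¹ : ℂ) • (u + (t : ℂ) • (Q u + P u) - f +
    (v + ((-t : ℝ) : ℂ) • (Q v + P v) - f)) = r at r1
  generalize hs : (2⁻¹ : ℂ) • (u + (t : ℂ) • (Q u + P u) - f -
    (v + ((-t : ℝ) : ℂ) • (Q v + P v) - f)) = s at r2
  have e1 : (2⁻¹ : ℂ) • (u + v) + (t : ℂ) • (Q ((2⁻¹ : ℂ) • (u - v)) + P ((2⁻¹ : ℂ) • (u - v))) =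
      f + r := by
    rw [← hr]
    simp only [map_smul, map_sub, Complex.ofReal_neg]
    module
  have e2 : (2⁻¹ : ℂ) • (u - v) + (t : ℂ) • (Q ((2⁻¹ : ℂ) • (u + v)) + P ((2⁻¹ : ℂ) • (u + v))) =
      s := by
    rw [← hs]
    simp only [map_smul, map_add, Complex.ofReal_neg]
    module
  have e3 : (t : ℂ) • (Q ((2⁻¹ : ℂ) • (u + v)) + P ((2⁻¹ : ℂ) • (u + v))) =
      (2⁻¹ : ℂ) • ((t : ℂ) • (Q u + P u) + (t : ℂ) • (Q v + P v)) := by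
    simp only [map_smul, map_add]
    module
  generalize (2⁻¹ : ℂ) • (u + v) = w at *
  generalize (2⁻¹ : ℂ) • (u - v) = y at *
  refine ⟨w, y, r, e1, r1, w1, y1, by rw [← nt, e3]; exact w2, ?_⟩
  have a1 := congrArg (fun x => (inner ℂ x (P y)).re) e1
  have a2 := congrArg (fun x => (inner ℂ (Q w) x).re) e2
  simp only [inner_add_left, inner_add_right, inner_smul_left, inner_smul_right, hO,
    Complex.conj_ofReal, Complex.add_re, Complex.re_ofReal_mul, re_self, zero_add, add_zero,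
    Complex.zero_re] at a1 a2
  have b1 : (inner ℂ w (P y)).re = -(inner ℂ (Q w) y).re := by rw [hA, Complex.neg_re, neg_neg]
  have b2 : (inner ℂ f (P y)).re = -(inner ℂ (Q f) y).re := by rw [hA, Complex.neg_re, neg_neg]
  have c1 := (abs_le.1 (re_le (Q f) y)).1
  have c2 := (abs_le.1 (re_le r (P y))).2
  have c3 := (abs_le.1 (re_le (Q w) s)).2
  have d1 : ‖Q f‖ * ‖y‖ ≤ ‖Q f‖ * (‖f‖ + d) := mul_le_mul_of_nonneg_left y1 (norm_nonneg _)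
  have d2 : ‖r‖ * ‖P y‖ ≤ d * ‖P y‖ := mul_le_mul_of_nonneg_right r1 (norm_nonneg _)
  have d3 : ‖Q w‖ * ‖s‖ ≤ ‖Q w‖ * d := mul_le_mul_of_nonneg_left r2 (norm_nonneg _)
  have k : t * ‖P y‖ ^ 2 + t * ‖Q w‖ ^ 2 ≤ ‖Q f‖ * (‖f‖ + d) + d * ‖P y‖ + ‖Q w‖ * d := by
    linarith
  have k2 := mul_le_mul_of_nonneg_left k ht.le
  nlinarith [sq_nonneg (t * ‖P y‖ - d), sq_nonneg (2 * (t * ‖Q w‖) - d), sq_nonneg d]

end Pool.Agent.Lib.HLK
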