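import Pool.Agent.Lib.HLK.Blue

/-! Project hlk: the theorem of Rellich. -/

open scoped Classical Topology ContDiff RealInnerProductSpace
open Set MeasureTheory Metric Filter

noncomputable section

namespace Pool.Agent.Lib.HLK

open Pool.Agent.Lib.SV (E)
open Pool.Agent.Lib.HS32

namespace REL

/-- A bounded set with finite rank approximations is totally bounded. -/
theorem tb {H : Type} [NormedAddCommGroup H] [InnerProductSpace ℝ H] {A : Set H} {B : ℝ}
    (hB : ∀ u ∈ A, ‖u‖ ≤ B) (h : ∀ δ : ℝ, 0 < δ → ∃ (m : ℕ) (F G : Fin m → H),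
      ∀ u ∈ A, ‖u - ∑ i, ⟪G i, u⟫ • F i‖ < δ) : TotallyBounded A := by
  refine Metric.totallyBounded_iff.2 fun ε hε => ?_
  obtain ⟨m, F, G, h1⟩ := h (ε / 2) (half_pos hε)
  have h2 : IsCompact ((fun c : Fin m → ℝ => ∑ i, c i • F i) ''
      univ.pi fun i => closedBall 0 (‖G i‖ * B)) :=
    (isCompact_univ_pi fun i => isCompact_closedBall _ _).image (by fun_prop)
  obtain ⟨t, ht, h3⟩ := Metric.totallyBounded_iff.1 h2.totallyBounded (ε / 2) (half_pos hε)
  refine ⟨t, ht, fun u hu => ?_⟩
  obtain ⟨y, hy, h4⟩ := mem_iUnion₂.1 (h3 ⟨fun i => ⟪G i, u⟫, fun i _ => mem_closedBall_zero_iff.2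
    ((norm_inner_le_norm (𝕜 := ℝ) _ _).trans
      (mul_le_mul_of_nonneg_left (hB u hu) (norm_nonneg _))), rfl⟩)
  refine mem_iUnion₂.2 ⟨y, hy, mem_ball.2 ?_⟩
  have h5 := dist_triangle u (∑ i, ⟪G i, u⟫ • F i) y
  have h6 := h1 u hu
  rw [← dist_eq_norm] at h6
  linarith [mem_ball.1 h4]

end REL

theorem st_REL (hCUT : St_CUT) (hCHT : St_CHT) : St_REL := by
  intro n M _ σ _ _ g D hD hdir
  choose e he U hU hx hxU γ v c ext hch hop hrep hell using hCHT n M σ g D hD
  obtain ⟨V, hV⟩ := (mCOV n M).2.1 M.C (fun x => (e x).source ∩ e x ⁻¹' U x) ⟨Subset.rfl, M.cov⟩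
    fun x => ((e x).isOpen_inter_preimage (hch x).op).mem_nhds ⟨hx x, hxU x⟩
  choose x hxa using fun a => (hV a).2
  choose m C hC hm using fun a => hCUT n M σ g D hD (fun y => V.χ a y ^ 2) ((V.sm a).pow 2)
  set S : Set (Pre g) := {s | ‖s‖ ≤ 1 ∧ ‖Pre.op D hD.sec s‖ ≤ 1} with hS
  have key : ∀ a, TotallyBounded ((fun s : Pre g => ((m a s : Pre g) : L2 g)) '' S) := by
    intro a
    have hb : ∀ s ∈ S, ‖m a s‖ ≤ C a ∧ ‖Pre.op D hD.sec (m a s)‖ ≤ 2 * C a := fun s hs => by
      have h1 := (hm a s).2.1.trans (mul_le_of_le_one_right (hC a) hs.1)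
      have h2 := (hm a s).2.2.1.trans (mul_le_of_le_one_right (hC a) hs.1)
      have h3 := (hm a (Pre.op D hD.sec s)).2.1.trans (mul_le_of_le_one_right (hC a) hs.2)
      have h4 := norm_add_le (Pre.op D hD.sec (m a s) - m a (Pre.op D hD.sec s))
        (m a (Pre.op D hD.sec s))
      rw [sub_add_cancel] at h4
      exact ⟨h1, by linarith⟩
    have hK₀ : IsCompact ((V.e a).symm '' closedBall (V.c a) (4 * V.ρ a)) :=
      (isCompact_closedBall _ _).image_of_continuousOn ((V.e a).continuousOn_symm.mono (V.sub a))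
    have hK := hK₀.image_of_continuousOn
      ((e (x a)).continuousOn.mono ((hxa a).trans inter_subset_left))
    have hKU : e (x a) '' ((V.e a).symm '' closedBall (V.c a) (4 * V.ρ a)) ⊆ U (x a) := by
      rintro _ ⟨y, hy, rfl⟩
      exact (hxa a hy).2
    refine REL.tb (B := C a) ?_ fun δ hδ => ?_
    · rintro _ ⟨s, hs, rfl⟩
      rw [UniformSpace.Completion.norm_coe]
      exact (hb s hs).1
    have hC' : 0 < 5 * C a ^ 2 + 1 := by positivity
    obtain ⟨k, F, G, -, -, hR⟩ := (hch (x a)).rellich (hell (x a) hdir) hK hKU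
      (δ := δ ^ 2 / (5 * C a ^ 2 + 1)) (by positivity)
    refine ⟨k, fun i => ext (x a) (F i), fun i => ext (x a) (G i), ?_⟩
    rintro _ ⟨s, hs, rfl⟩
    obtain ⟨f, hf, hfK, hfe⟩ := hrep (x a) _ hK hKU (m a s) fun y hy => by
      have h0 : V.χ a y = 0 := by
        by_contra h
        obtain ⟨h1, h2⟩ := V.supp a y h
        have h3 : y ∈ (V.e a).symm '' closedBall (V.c a) (4 * V.ρ a) :=
          ⟨_, ball_subset_closedBall (ball_subset_ball (by linarith [V.pos a]) h2),
            (V.e a).left_inv h1⟩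
        exact hy ⟨_, ⟨y, h3, rfl⟩, (e (x a)).left_inv (hxa a h3).1⟩
      have h1 : M.ev (m a s).val y = 0 := by
        rw [Mf.ev, (hm a s).1, (M.ch y).left_inv (M.cov y).choose_spec.2, h0]
        simp
      simp [Bun.pn, Bun.pp, h1]
    have h1 := hR f hf hfK
    have h2 : ((Pre.op D hD.sec (ext (x a) f) : Pre g) : L2 g) =
        (Pre.op D hD.sec (m a s) : Pre g) := by
      refine ext_inner_right ℂ fun w => ?_
      induction w using UniformSpace.Completion.induction_on with
      | hp => exact isClosed_eq (by fun_prop) (by fun_prop)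
      | ih w =>
        rw [UniformSpace.Completion.inner_coe, UniformSpace.Completion.inner_coe,
          Pre.op_skew hD, Pre.op_skew hD, ← UniformSpace.Completion.inner_coe (ext (x a) f),
          ← UniformSpace.Completion.inner_coe (m a s), hfe]
    simp only [hop (x a) f hf, hfe, h2, UniformSpace.Completion.norm_coe] at h1
    refine lt_of_pow_lt_pow_left₀ 2 hδ.le (h1.trans_lt ?_)
    rw [div_mul_eq_mul_div, div_lt_iff₀ hC']
    refine mul_lt_mul_of_pos_left ?_ (by positivity)
    nlinarith [(hb s hs).1, (hb s hs).2, norm_nonneg (m a s), norm_nonneg (Pre.op D hD.sec (m a s))]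
  have hc : IsCompact ((fun u : Fin V.r → L2 g => ∑ a, u a) '' univ.pi fun a =>
      closure ((fun s : Pre g => ((m a s : Pre g) : L2 g)) '' S)) :=
    (isCompact_univ_pi fun a => (key a).closure.isCompact_of_isClosed isClosed_closure).image
      (by fun_prop)
  refine hc.totallyBounded.subset ?_
  rintro _ ⟨s, hs, rfl⟩
  refine ⟨fun a => m a s, fun a _ => subset_closure ⟨s, hs, rfl⟩, ?_⟩
  have h1 : ∑ a, m a s = s := Pre.ext (funext fun e' => funext fun z => by
    have h2 : (∑ a, m a s).val e' z = ∑ a, (m a s).val e' z := by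
      induction (Finset.univ : Finset (Fin V.r)) using Finset.induction_on with
      | empty => rfl
      | insert a t ha ih => rw [Finset.sum_insert ha, Finset.sum_insert ha, ← ih]; rfl
    rw [h2, Finset.sum_congr rfl fun a _ => (hm a s).1 e' z, ← Finset.sum_smul,
      ← Complex.ofReal_sum, V.sum, Complex.ofReal_one, one_smul])
  exact (map_sum (UniformSpace.Completion.toComplL (𝕜 := ℂ) (E := Pre g)) _ _).symm.trans
    (congrArg _ h1)

end Pool.Agent.Lib.HLK
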