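import Pool.Agent.Lib.HLK.Blue
import Pool.Agent.Lib.DX.Abs

/-! The inequality of Sobolev for sections of a holomorphic bundle. -/

open scoped Classical Topology ContDiff ComplexOrder Matrix ENNReal NNReal
open Set MeasureTheory Complex Metric Filter

noncomputable section

namespace Pool.Agent.Lib.HLK

open Pool.Agent.Lib.SV (E nsq)
open Pool.Agent.Lib.HS32
open Pool.Agent.Lib.HS21 (Kb Kb_sub Kb_cpt)

namespace SOB

variable {n : ℕ} {M : Mf n} {σ : Type} [Fintype σ] [DecidableEq σ]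

/-- The image of the compact piece of a chart. -/
def Sb (V : M.Cov) (a : Fin V.r) : Set M.X := (V.e a).symm '' Kb V a

/-- The smallest squared modulus of the chosen components. -/
def Yf (V : M.Cov) (W : M.Fam (σ → ℂ)) (f : Fin V.r → σ) (x : M.X) : ℝ≥0∞ :=
  ⨅ a, (Sb V a).piecewise
    (fun x => ENNReal.ofReal (normSq (W (V.e a) (V.e a x) (f a)))) (fun _ => ⊤) x

omit [DecidableEq σ] in
theorem Yf_meas [M.Cpt] (V : M.Cov) {W : M.Fam (σ → ℂ)}
    (h : M.All fun e z => ContDiffAt ℝ ∞ (W e) z) (f : Fin V.r → σ) : Measurable (Yf V W f) := by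
  refine Measurable.iInf fun a => ?_
  have c : IsCompact (Sb V a) :=
    (Kb_cpt V a).image_of_continuousOn ((V.e a).continuousOn_symm.mono (Kb_sub V a))
  refine ContinuousOn.measurable_piecewise ?_ continuousOn_const c.isClosed.measurableSet
  rintro _ ⟨z, hz, rfl⟩
  have hs := (V.e a).map_target (Kb_sub V a hz)
  have h1 : ContinuousAt (fun x => W (V.e a) (V.e a x) (f a)) ((V.e a).symm z) :=
    (contDiffAt_pi.1 (h _ (V.mem a) _ ((V.e a).map_source hs)) (f a)).continuousAt.comp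
      ((V.e a).continuousAt hs)
  exact ((ENNReal.continuous_ofReal.comp continuous_normSq).continuousAt.comp
    h1).continuousWithinAt

omit [Fintype σ] [DecidableEq σ] in
theorem Yf_le (V : M.Cov) (W : M.Fam (σ → ℂ)) (f : Fin V.r → σ) (a : Fin V.r) {z : E n}
    (hz : z ∈ Kb V a) :
    Yf V W f ((V.e a).symm z) ≤ ENNReal.ofReal (normSq (W (V.e a) z (f a))) := by
  refine (iInf_le _ a).trans (le_of_eq ?_)
  rw [piecewise_eq_of_mem _ _ _ (show (V.e a).symm z ∈ Sb V a from ⟨z, hz, rfl⟩),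
    (V.e a).right_inv (Kb_sub V a hz)]

omit [DecidableEq σ] in
theorem le_Yf [Nonempty σ] (V : M.Cov) (W : M.Fam (σ → ℂ)) (p : M.X → ℝ) (K : ℝ) (hK : 0 < K)
    (h : ∀ a, ∀ z ∈ Kb V a, p ((V.e a).symm z) ≤ K * ∑ i, ‖W (V.e a) z i‖ ^ 2) (x : M.X) :
    ENNReal.ofReal (p x / (K * Fintype.card σ)) ≤ ∑ f, Yf V W f x := by
  choose f hf using fun a : Fin V.r => Finite.exists_max fun i => ‖W (V.e a) (V.e a x) i‖ ^ 2
  refine le_trans (le_iInf fun a => ?_)
    (Finset.single_le_sum (f := fun f => Yf V W f x) (fun _ _ => zero_le) (Finset.mem_univ f))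
  by_cases hx : x ∈ Sb V a
  · rw [piecewise_eq_of_mem _ _ _ hx]
    obtain ⟨z, hz, rfl⟩ := hx
    have hf' := hf a
    rw [(V.e a).right_inv (Kb_sub V a hz)] at hf' ⊢
    have c0 : (0 : ℝ) < Fintype.card σ := Nat.cast_pos.2 Fintype.card_pos
    refine ENNReal.ofReal_le_ofReal ((div_le_iff₀ (by positivity)).2 ((h a z hz).trans ?_))
    have := Finset.sum_le_card_nsmul Finset.univ _ _ fun i _ => hf' i
    rw [nsmul_eq_mul, Finset.card_univ] at this
    rw [normSq_eq_norm_sq]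
    nlinarith
  · rw [piecewise_eq_of_notMem _ _ _ hx]
    exact le_top

theorem bnd (V : M.Cov) (c : Fin V.r → E n → ℝ)
    (h : ∀ a, ∀ z ∈ (V.e a).target, ContinuousAt (c a) z) :
    ∃ K : ℝ, 0 < K ∧ ∀ a, ∀ z ∈ Kb V a, c a z ≤ K := by
  choose D hD using fun a => (Kb_cpt V a).exists_bound_of_continuousOn (f := c a)
    fun z hz => (h a z (Kb_sub V a hz)).continuousWithinAt
  refine ⟨∑ a, |D a| + 1, by positivity, fun a z hz => ?_⟩
  have := Finset.single_le_sum (f := fun a => |D a|) (fun _ _ => abs_nonneg _) (Finset.mem_univ a)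
  have h1 := (le_abs_self _).trans (hD a z hz)
  have h2 := le_abs_self (D a)
  linarith

end SOB

open SOB in
theorem st_SOB (hGB : St_GB) : St_SOB := by
  intro n M _ σ _ _ H b hn hH hb hl
  rcases isEmpty_or_nonempty σ with hσ | hσ
  · exact ⟨0, le_rfl, fun W ρ A _ _ _ => by simp [Bun.pn, Bun.pp, dotProduct]⟩
  obtain ⟨g1, g2⟩ := hGB n M σ H b hH hb hl
  obtain ⟨V, -⟩ := (mCOV n M).2.2.1
  obtain ⟨C0, h0⟩ := DX.abs_le hn hH V
  choose c hc using fun a : Fin V.r => g2 _ (V.mem a)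
  obtain ⟨K, hK, hcK⟩ := bnd V c fun a z hz => (hc a z hz).1
  obtain ⟨-, hfin, -, -, hi, -⟩ := mMU n M H hH
  have c0 : (0 : ℝ) < Fintype.card σ := Nat.cast_pos.2 Fintype.card_pos
  have n1 : (1 : ℝ) ≤ n := Nat.one_le_cast.2 hn
  refine ⟨K * Fintype.card σ * (Fintype.card (Fin V.r → σ) * C0 * (n * n * K)), by positivity,
    fun W ρ A hW mρ hρ => ?_⟩
  have p0 : ∀ x, 0 ≤ b.pn W x := Pre.pn_nonneg (g := ⟨H, b, hH, hb⟩) W
  have pc : Continuous (b.pn W) := continuous_re.comp (hb.pp_rep hW hW).2.continuous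
  obtain ⟨-, gc, g0, -⟩ := g1 W hW
  have key : ∀ f : Fin V.r → σ, ∫⁻ x, ENNReal.ofReal (ρ x) * Yf V W f x ∂M.mu H ≤
      C0 * (∫⁻ x, ENNReal.ofReal (ρ x) ^ (2 * n : ℝ) ∂M.mu H) ^ (1 / (2 * n : ℝ)) *
        ∫⁻ x, ENNReal.ofReal (n * n * K * (b.pn W x + gb H b W x)) ∂M.mu H := fun f => by
    refine h0 (fun a w _ => W (V.e a) w (f a)) _ _ _ (Yf_meas V hW.sm f) mρ.ennreal_ofReal
      (fun a _ z hz => contDiffAt_pi.1 (hW.sm _ (V.mem a) z hz) (f a)) fun a z hz => ⟨?_, ?_⟩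
    · refine (Yf_le V W f a hz).trans (ENNReal.ofReal_le_ofReal ?_)
      simp only [nsq, Finset.sum_const, Finset.card_univ, Fintype.card_fin, nsmul_eq_mul]
      exact le_mul_of_one_le_left (normSq_nonneg _) n1
    · obtain ⟨-, -, k⟩ := hc a z (Kb_sub V a hz)
      obtain ⟨k1, k2, -⟩ := k W hW
      have a1 := (k1 (f a)).trans (mul_le_mul_of_nonneg_right (hcK a z hz) (p0 _))
      have a2 := Finset.sum_le_card_nsmul Finset.univ _ _ fun l _ =>
        (k2 l (f a)).trans (mul_le_mul_of_nonneg_right (hcK a z hz) (g0 _))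
      refine ENNReal.ofReal_le_ofReal ?_
      simp only [DX.g2, Finset.sum_const, Finset.card_univ, Fintype.card_fin, nsmul_eq_mul,
        normSq_eq_norm_sq, dzbv] at a2 ⊢
      rw [mul_assoc, mul_assoc]
      refine mul_le_mul_of_nonneg_left ?_ (by positivity)
      have := mul_le_mul_of_nonneg_right n1 (mul_nonneg hK.le (p0 ((V.e a).symm z)))
      nlinarith
  have i2 : Integrable (fun x => ρ x ^ (2 * n)) (M.mu H) :=
    Integrable.of_bound (mρ.pow_const _).aestronglyMeasurable (A ^ (2 * n))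
      (Eventually.of_forall fun x => by
        rw [Real.norm_of_nonneg (pow_nonneg (hρ x).1 _)]
        exact pow_le_pow_left₀ (hρ x).1 (hρ x).2 _)
  have I0 : 0 ≤ ∫ x, ρ x ^ (2 * n) ∂M.mu H := integral_nonneg fun x => pow_nonneg (hρ x).1 _
  have J0 : 0 ≤ b.nr H W + ∫ x, gb H b W x ∂M.mu H :=
    add_nonneg (integral_nonneg p0) (integral_nonneg g0)
  have e1 : ∫⁻ x, ENNReal.ofReal (ρ x) ^ (2 * n : ℝ) ∂M.mu H =
      ENNReal.ofReal (∫ x, ρ x ^ (2 * n) ∂M.mu H) := by
    rw [ofReal_integral_eq_lintegral_ofReal i2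
      (Eventually.of_forall fun x => pow_nonneg (hρ x).1 _)]
    refine lintegral_congr fun x => ?_
    rw [ENNReal.ofReal_pow (hρ x).1, ← ENNReal.rpow_natCast]
    push_cast
    rfl
  have e2 : ∫⁻ x, ENNReal.ofReal (n * n * K * (b.pn W x + gb H b W x)) ∂M.mu H =
      ENNReal.ofReal (n * n * K * (b.nr H W + ∫ x, gb H b W x ∂M.mu H)) := by
    rw [← ofReal_integral_eq_lintegral_ofReal (hi ℝ _ (by fun_prop))
      (Eventually.of_forall fun x => mul_nonneg (by positivity) (add_nonneg (p0 x) (g0 x))),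
      integral_const_mul, integral_add (hi ℝ _ pc) (hi ℝ _ gc), Bun.nr]
  have hp : ∀ a, ∀ z ∈ Kb V a, b.pn W ((V.e a).symm z) ≤ K * ∑ i, ‖W (V.e a) z i‖ ^ 2 :=
    fun a z hz => ((hc a z (Kb_sub V a hz)).2.2 W hW).2.2.trans
      (mul_le_mul_of_nonneg_right (hcK a z hz) (by positivity))
  have main : ∫⁻ x, ENNReal.ofReal (ρ x * (b.pn W x / (K * Fintype.card σ))) ∂M.mu H ≤
      ENNReal.ofReal (Fintype.card (Fin V.r → σ) * C0 * (n * n * K) *
        (∫ x, ρ x ^ (2 * n) ∂M.mu H) ^ (1 / (2 * n : ℝ)) *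
          (b.nr H W + ∫ x, gb H b W x ∂M.mu H)) := by
    refine (lintegral_mono (g := fun x => ∑ f, ENNReal.ofReal (ρ x) * Yf V W f x)
      fun x => ?_).trans ?_
    · show _ ≤ ∑ f, ENNReal.ofReal (ρ x) * Yf V W f x
      rw [ENNReal.ofReal_mul (hρ x).1, ← Finset.mul_sum]
      exact mul_le_mul_right (le_Yf V W _ K hK hp x) _
    · rw [lintegral_finsetSum (f := fun f x => ENNReal.ofReal (ρ x) * Yf V W f x) _
        fun f _ => mρ.ennreal_ofReal.mul (Yf_meas V hW.sm f)]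
      refine (Finset.sum_le_card_nsmul _ _ _ fun f _ => key f).trans (le_of_eq ?_)
      rw [e1, e2, ENNReal.ofReal_rpow_of_nonneg I0 (by positivity), ← ENNReal.ofReal_coe_nnreal,
        ← ENNReal.ofReal_mul (by positivity), ← ENNReal.ofReal_mul (by positivity),
        ← ENNReal.ofReal_nsmul, nsmul_eq_mul, Finset.card_univ]
      congr 1
      ring
  have e3 : ∫ x, ρ x * b.pn W x ∂M.mu H =
      K * Fintype.card σ * ∫ x, ρ x * (b.pn W x / (K * Fintype.card σ)) ∂M.mu H := by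
    rw [← integral_const_mul]
    refine integral_congr_ae (Eventually.of_forall fun x => ?_)
    field_simp
  rw [e3, integral_eq_lintegral_of_nonneg_ae
    (f := fun x => ρ x * (b.pn W x / (K * Fintype.card σ)))
    (Eventually.of_forall fun x => mul_nonneg (hρ x).1 (div_nonneg (p0 x) (by positivity)))
    (mρ.mul (pc.measurable.div_const _)).aestronglyMeasurable,
    mul_assoc (K * _ * _), mul_assoc (K * _)]
  refine mul_le_mul_of_nonneg_left ?_ (mul_pos hK c0).le
  rw [← mul_assoc]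
  refine ENNReal.toReal_le_of_le_ofReal ?_ main
  positivity

end Pool.Agent.Lib.HLK
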