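import Pool.Agent.Lib.HLK.Blue

/-! The weighted divergence preserves the sections. -/

open scoped Classical Topology ContDiff ComplexOrder Matrix
open Set Complex Filter

noncomputable section

namespace Pool.Agent.Lib.HLK

open Pool.Agent.Lib.SV (E)
open Pool.Agent.Lib.HS32 Pool.Agent.Lib.KP
open Pool.Agent.Lib.KP.T60 (phC)

namespace SP

variable {n : ℕ}

theorem an_dL (h1 : St_FK1) (Γ : Fin n → Mat n) (hs : ∀ m i j, Γ m i j = Γ j i m) :
    ∑ m, an m * dL (Γ m) = ∑ m, (Γ m).trace • an m := by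
  have a : ∀ i, ∑ m, ∑ j, Γ m i j • (an m * an j : Mx (Fs n)) = 0 := fun i => by
    have : ∑ m, ∑ j, Γ m i j • (an m * an j : Mx (Fs n)) =
        -∑ m, ∑ j, Γ m i j • (an m * an j : Mx (Fs n)) := by
      conv_lhs => rw [Finset.sum_comm]
      simp only [← Finset.sum_neg_distrib, ← smul_neg]
      exact Finset.sum_congr rfl fun m _ => Finset.sum_congr rfl fun j _ => by
        rw [hs j i m, eq_neg_of_add_eq_zero_left ((h1 n).1 j m).2.1]
    have h2 : (2 : ℂ) • ∑ m, ∑ j, Γ m i j • (an m * an j : Mx (Fs n)) = 0 := by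
      rw [two_smul]; exact add_eq_zero_iff_eq_neg.2 this
    exact (smul_eq_zero.1 h2).resolve_left two_ne_zero
  have b : ∀ m i j : Fin n, an m * (cr i * an j) =
      (if m = i then an j else 0) - cr i * (an m * an j) := fun m i j => by
    rw [← mul_assoc, eq_sub_of_add_eq ((h1 n).1 m i).2.2, sub_mul, mul_assoc]
    split_ifs <;> simp
  have c : ∑ m, ∑ i, ∑ j, Γ m i j • (cr i * (an m * an j) : Mx (Fs n)) = 0 := by
    rw [Finset.sum_comm]
    refine Finset.sum_eq_zero fun i _ => ?_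
    simpa only [Finset.mul_sum, mul_smul_comm, mul_zero] using congrArg (cr i * ·) (a i)
  simp only [dL, Finset.mul_sum, mul_smul_comm, b, smul_sub, Finset.sum_sub_distrib, c, sub_zero,
    smul_ite, smul_zero]
  simp only [Finset.sum_ite_irrel, Finset.sum_const_zero, Finset.sum_ite_eq, Finset.mem_univ,
    if_true, Matrix.trace, Matrix.diag, Finset.sum_smul]
  rw [Finset.sum_comm]
  exact Finset.sum_congr rfl fun j _ => Finset.sum_congr rfl fun m _ => by rw [hs]

theorem alg (h1 : St_FK1) (h2 : St_FK2) {J : Mat n} (hJ : J.det ≠ 0) (c : ℂ) (Γ : Fin n → Mat n)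
    (hs : ∀ m i j, Γ m i j = Γ j i m) (u v : Fin n → Fs n → ℂ) (W : Fs n → ℂ)
    (h : ∀ m, ∑ a, J a m • u a =
      (c • La J) *ᵥ (v m + (dL (Γ m) *ᵥ W - (Γ m).trace • W))) :
    ∑ k, an k *ᵥ u k = (c • La J) *ᵥ ∑ m, an m *ᵥ v m := by
  have e1 : ∀ k, u k = ∑ m, J⁻¹ m k • ∑ a, J a m • u a := fun k => by
    simp only [Finset.smul_sum, smul_smul]
    rw [Finset.sum_comm]
    simp only [← Finset.sum_smul, mul_comm (J⁻¹ _ k), ← Matrix.mul_apply,
      Matrix.mul_nonsing_inv _ hJ.isUnit, Matrix.one_apply, ite_smul, one_smul, zero_smul,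
      Finset.sum_ite_eq', Finset.mem_univ, if_true]
  have e2 : ∀ m, ∑ k, J⁻¹ m k • (an k * (c • La J)) = c • La J * an m := fun m => by
    simp only [mul_smul_comm, smul_mul_assoc, ((h2 n).2 J).2.2.2.2.1, Finset.smul_sum, smul_smul]
    rw [Finset.sum_comm]
    simp only [← Finset.sum_smul, mul_left_comm (J⁻¹ m _), ← Finset.mul_sum, ← Matrix.mul_apply,
      Matrix.nonsing_inv_mul _ hJ.isUnit, Matrix.one_apply, mul_ite, mul_one, mul_zero, ite_smul,
      zero_smul, Finset.sum_ite_eq, Finset.mem_univ, if_true]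
  have e3 := congrArg (· *ᵥ W) (an_dL h1 Γ hs)
  simp only [Matrix.sum_mulVec, ← Matrix.mulVec_mulVec, Matrix.smul_mulVec] at e3
  calc ∑ k, an k *ᵥ u k = ∑ m, (∑ k, J⁻¹ m k • (an k * (c • La J))) *ᵥ
        (v m + (dL (Γ m) *ᵥ W - (Γ m).trace • W)) := by
        simp only [Matrix.sum_mulVec, Matrix.smul_mulVec (J⁻¹ _ _), ← Matrix.mulVec_mulVec, ← h]
        rw [Finset.sum_comm]
        exact Finset.sum_congr rfl fun k _ => by
          simpa only [Matrix.mulVec_sum, Matrix.mulVec_smul] using congrArg (an k *ᵥ ·) (e1 k)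
    _ = _ := by
        simp only [e2, ← Matrix.mulVec_mulVec, ← Matrix.mulVec_sum]
        simp only [Matrix.mulVec_add, Matrix.mulVec_sub, Matrix.mulVec_smul, Finset.sum_add_distrib,
          Finset.sum_sub_distrib, e3, sub_self, add_zero]

theorem ap_eq {M : Mf n} (H : M.Fam (Mat n)) (φ : M.Fam ℝ) (W : M.Fam (Fs n → ℂ)) (e : M.Ch)
    (z : E n) : (oP H φ).ap W e z =
      ∑ k, an k *ᵥ (dzv k (W e) z - dz k (fun w => (phC M H φ e w : ℂ)) z • W e z) := by
  simp only [Op.ap, oP, Matrix.zero_mulVec, add_zero, Matrix.neg_mulVec, Matrix.sum_mulVec,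
    Matrix.smul_mulVec, Matrix.mulVec_sub, Matrix.mulVec_smul, Finset.sum_sub_distrib,
    ← sub_eq_add_neg]

end SP

theorem st_SP (hFK1 : St_FK1) (hFK2 : St_FK2) (hFK3 : St_FK3) : St_SP := by
  intro n M H L φ W hH hw hW
  refine ⟨fun e he z hz => ?_, fun e he e' he' x hx hx' => ?_⟩
  · beta_reduce
    rw [show (oP H φ).ap W e = _ from funext (SP.ap_eq H φ W e)]
    have a := fun i => contDiffAt_pi.1 (hW.sm e he z hz) i
    refine ContDiffAt.sum fun k _ => contDiffAt_pi.2 fun i => ?_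
    simp only [Matrix.mulVec, dotProduct]
    exact ContDiffAt.sum fun j _ => contDiffAt_const.mul ((cd_dz (a j) k).sub
      ((cd_dz (cd_ofReal (T60.phC_sm hH hw he hz)) k).mul (a j)))
  obtain ⟨t1, t2, -, t4, -⟩ := (mTR n M).2.1 e he e' he' x hx hx'
  obtain ⟨-, c2, c3, -, c5, -, -, -, -, c10, -⟩ := mCHN n _ _ t1
  have ex : (e ∘ e'.symm) (e' x) = e x := congrArg e (e'.left_inv hx')
  have hc := L.hol e he e' he' x hx hx'
  have c0 : (fun w => L.c e e' (e'.symm w)) (e' x) ≠ 0 := by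
    simpa only [e'.left_inv hx'] using L.ne e he e' he' x hx hx'
  obtain ⟨s1, -, -, s2⟩ := (mHOL n _ _).2.2 hc
  obtain ⟨s2, -, s3⟩ := s2 c0
  obtain ⟨s4, -, s5⟩ := ((mHOL n _ _).2.2 c5).2.2.2 t2
  obtain ⟨f1, f2⟩ := (hFK3 n _ _).2 c2
  have a := fun i => cd_diff (contDiffAt_pi.1 (hW.sm e he _ (e.map_source hx)) i)
  have a' := fun i => cd_diff (contDiffAt_pi.1 (hW.sm e' he' _ (e'.map_source hx')) i)
  have p := cd_diff (cd_ofReal (T60.phC_sm hH hw he (e.map_source hx)))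
  beta_reduce
  rw [SP.ap_eq, SP.ap_eq]
  refine SP.alg hFK1 hFK2 t2 _ (fun m => (M.J e e' x)⁻¹ * dM m (jm (e ∘ e'.symm)) (e' x))
    (fun m i j => by simp only [Matrix.mul_apply, fun k => c3 k j m]) _ _ (W e' (e' x)) fun m => ?_
  have g1 : dz m (fun w => (phC M H φ e' w : ℂ)) (e' x) =
      ∑ a, dz a (fun w => (phC M H φ e w : ℂ)) (e x) * M.J e e' x a m +
        dz m (fun w => L.c e e' (e'.symm w)) (e' x) / L.c e e' x -
        ((M.J e e' x)⁻¹ * dM m (jm (e ∘ e'.symm)) (e' x)).trace := by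
    have q := (c10 (fun w => (phC M H φ e w : ℂ)) (ex ▸ p) m).1
    have q0 : DifferentiableAt ℝ ((fun w => (phC M H φ e w : ℂ)) ∘ e ∘ e'.symm) (e' x) :=
      DifferentiableAt.comp _ (ex ▸ p) ((mCHN n _ _ t1).1.differentiableAt (by simp))
    have ev : (fun w => (phC M H φ e' w : ℂ)) =ᶠ[𝓝 (e' x)] fun w =>
        ((fun w => (phC M H φ e w : ℂ)) ∘ e ∘ e'.symm) w +
          (Real.log (normSq (L.c e e' (e'.symm w))) : ℝ) -
          (Real.log (normSq (jm (e ∘ e'.symm) w).det) : ℝ) := by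
      filter_upwards [t4] with w k
      have k1 := hw.cmp e he e' he' _ k.2.1 k.2.2.1
      have k2 := (mINV n M H hH).2.2.2.2.2.2.1.cmp e he e' he' _ k.2.1 k.2.2.1
      simp only [k.2.2.2.2.2.1, k.2.2.2.2.2.2] at k1 k2
      simp only [phC, k1, k2, Function.comp]
      push_cast; ring
    rw [dz_congr ev, dz_sub (q0.fun_add (cd_diff (cd_ofReal s2))) (cd_diff (cd_ofReal s4)),
      dz_add q0 (cd_diff (cd_ofReal s2)), q, s3, s5, ((mCOF n _ _ c2).2.2.1 m).1, ex,
      e'.left_inv hx', Matrix.inv_def, Ring.inverse_eq_inv', Matrix.smul_mul, Matrix.trace_smul,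
      smul_eq_mul, div_eq_inv_mul _ (Matrix.det _)]
    rfl
  funext i
  have ev : (fun w => W e w i) ∘ e ∘ e'.symm =ᶠ[𝓝 (e' x)] fun w =>
      (L.c e e' (e'.symm w))⁻¹ * ∑ j, La (jm (e ∘ e'.symm) w) i j * W e' w j := by
    filter_upwards [t4] with w k
    have k1 := congrFun (hW.cmp e he e' he' _ k.2.1 k.2.2.1) i
    simp only [lam, k.2.2.2.2.2.1, k.2.2.2.2.2.2, Matrix.smul_mulVec] at k1
    exact k1
  have d : ∀ j, DifferentiableAt ℝ (fun w => La (jm (e ∘ e'.symm) w) i j) (e' x) :=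
    fun j => cd_diff (f1 i j)
  have g2 := (c10 (fun w => W e w i) (ex ▸ a i) m).1
  rw [dz_congr ev, dz_mul ((cd_diff s1).fun_inv c0) (.fun_sum fun j _ => (d j).fun_mul (a' j)),
    dz_inv (cd_diff s1) c0, dz_sum fun j _ => (d j).fun_mul (a' j), ex] at g2
  simp only [fun j => dz_mul (j := m) (d j) (a' j), fun j => (f2 t2 m i j).1,
    e'.left_inv hx'] at g2
  have g3 := congrFun (hW.cmp e he e' he' x hx hx') i
  have c0' := L.ne e he e' he' x hx hx'
  have g4 : (∑ a, M.J e e' x a m • (dzv a (W e) (e x) -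
      dz a (fun w => (phC M H φ e w : ℂ)) (e x) • W e (e x))) i =
      ∑ a, dz a (fun w => W e w i) (e x) * M.J e e' x a m -
        (∑ a, dz a (fun w => (phC M H φ e w : ℂ)) (e x) * M.J e e' x a m) * W e (e x) i := by
    simp only [Finset.sum_apply, Pi.smul_apply, Pi.sub_apply, smul_eq_mul, dzv, Finset.sum_mul,
      ← Finset.sum_sub_distrib]
    exact Finset.sum_congr rfl fun a _ => by ring
  have g5 : -(dz m (fun w => L.c e e' (e'.symm w)) (e' x) / L.c e e' x ^ 2) *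
      (La (M.J e e' x) *ᵥ W e' (e' x)) i + (L.c e e' x)⁻¹ * ((La (M.J e e' x) *ᵥ
        dL ((M.J e e' x)⁻¹ * dM m (jm (e ∘ e'.symm)) (e' x)) *ᵥ W e' (e' x)) i +
        (La (M.J e e' x) *ᵥ dzv m (W e') (e' x)) i) =
      ∑ a, dz a (fun w => W e w i) (e x) * M.J e e' x a m := by
    rw [Matrix.mulVec_mulVec]
    rw [Finset.sum_add_distrib] at g2
    exact g2
  rw [g4, ← g5, g3, g1]
  simp only [lam, Matrix.smul_mulVec, Matrix.mulVec_add, Matrix.mulVec_sub, Matrix.mulVec_smul,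
    Pi.add_apply, Pi.sub_apply, Pi.smul_apply, smul_eq_mul]
  field_simp
  ring

end Pool.Agent.Lib.HLK
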