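import Pool.Agent.Lib.HLK.Blue
import Pool.Agent.Lib.EXH.B_ALG

/-! Project hlk: the operator `Q` preserves the sections and has square zero. -/

open scoped Classical Topology ContDiff ComplexOrder Matrix ENNReal
open Set MeasureTheory Complex Metric Filter

noncomputable section

namespace Pool.Agent.Lib.HLK

open Pool.Agent.Lib.SV (E)
open Pool.Agent.Lib.HS32 Pool.Agent.Lib.KP
open Pool.Agent.Lib.HS.SIUK (dzb_hol)

namespace SQ

variable {n : ℕ} {M : Mf n} {H : M.Fam (Mat n)} {L : M.Co} {φ : M.Fam ℝ}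
  {W : M.Fam (Fs n → ℂ)}

theorem ap_eq (e : M.Ch) (z : E n) : (oQ H).ap W e z =
    ∑ l, ∑ k, (H e z)⁻¹ k l • (cr k *ᵥ dzbv l (W e) z) := by
  simp only [Op.ap, oQ, Matrix.zero_mulVec, zero_add, add_zero, Matrix.sum_mulVec,
    Matrix.smul_mulVec]

theorem cd_dzbv {V : E n → Fs n → ℂ} {z : E n} (h : ContDiffAt ℝ ∞ V z) (l : Fin n) :
    ContDiffAt ℝ ∞ (dzbv l V) z := contDiffAt_pi.2 fun i => cd_dzb (contDiffAt_pi.1 h i) l

theorem cd_cmv {V : E n → Fs n → ℂ} {z : E n} (h : ContDiffAt ℝ ∞ V z) (A : Mx (Fs n)) :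
    ContDiffAt ℝ ∞ (fun w => A *ᵥ V w) z := contDiffAt_pi.2 fun i => by
  simp only [Matrix.mulVec, dotProduct]
  exact ContDiffAt.sum fun j _ => contDiffAt_const.mul (contDiffAt_pi.1 h j)

theorem dzbv_mv {T : E n → Mx (Fs n)} {V : E n → Fs n → ℂ} {z : E n} (hT : SmX T z)
    (h : ContDiffAt ℝ ∞ V z) (l : Fin n) (h0 : ∀ A B, dzb l (fun w => T w A B) z = 0) :
    dzbv l (fun w => T w *ᵥ V w) z = T z *ᵥ dzbv l V z := funext fun A => by
  simp only [dzbv, Matrix.mulVec, dotProduct]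
  rw [dzb_sum fun B _ => (cd_diff (hT A B)).fun_mul (cd_diff (contDiffAt_pi.1 h B))]
  refine Finset.sum_congr rfl fun B _ => ?_
  rw [dzb_mul (cd_diff (hT A B)) (cd_diff (contDiffAt_pi.1 h B)), h0, zero_mul, zero_add]

/-- The derivatives of a section in two charts. -/
theorem dd (h3 : St_FK3) (h : (lam H L φ).Sec W) : M.Ov fun e e' x => ∀ l,
    (lam H L φ).T e e' x *ᵥ dzbv l (W e') (e' x) =
      ∑ a, star (M.J e e' x a l) • dzbv a (W e) (e x) := by
  intro e he e' he' x hx hx' l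
  obtain ⟨hN, hJ, -, hev, -⟩ := (mTR n M).2.1 e he e' he' x hx hx'
  have hψ : (e ∘ e'.symm) (e' x) = e x := by simp [e'.left_inv hx']
  obtain ⟨c1, c2, -, c4, -, -, -, -, -, c10, -⟩ := mCHN n _ _ hN
  have s1 := h.sm e he _ (e.map_source hx)
  have s2 := h.sm e' he' _ (e'.map_source hx')
  have hc := L.hol e he e' he' x hx hx'
  have c0 : L.c e e' (e'.symm (e' x)) ≠ 0 := by
    rw [e'.left_inv hx']
    exact L.ne e he e' he' x hx hx'
  have d2 : DifferentiableAt ℂ (fun y => (L.c e e' (e'.symm y))⁻¹) (e' x) :=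
    hc.self_of_nhds.inv c0
  have d3 : ContDiffAt ℝ ∞ (fun y => (L.c e e' (e'.symm y))⁻¹) (e' x) := ((mHOL n _ _).2.2 hc).1.inv c0
  obtain ⟨f1, f2⟩ := (h3 n (jm (e ∘ e'.symm)) (e' x)).2 c2
  have heq : (fun y => ((L.c e e' (e'.symm y))⁻¹ • La (jm (e ∘ e'.symm) y)) *ᵥ W e' y) =ᶠ[𝓝 (e' x)]
      fun y => W e ((e ∘ e'.symm) y) := by
    filter_upwards [hev] with y hy
    have := h.cmp e he e' he' _ hy.2.1 hy.2.2.1
    beta_reduce at this
    rw [hy.2.2.2.2.2.1] at this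
    rw [← hy.2.2.2.2.2.2]
    exact this.symm
  have k := dzbv_mv (T := fun y => (L.c e e' (e'.symm y))⁻¹ • La (jm (e ∘ e'.symm) y))
    (fun A B => d3.mul (f1 A B)) s2 l fun A B => by
      show dzb l (fun y => (L.c e e' (e'.symm y))⁻¹ * La (jm (e ∘ e'.symm) y) A B) (e' x) = 0
      rw [dzb_mul (d2.restrictScalars ℝ) (cd_diff (f1 A B)), dzb_hol d2, (f2 hJ l A B).2, c4 l]
      simp [dL]
  rw [e'.left_inv hx'] at k
  refine k.symm.trans (funext fun A => ?_)
  have d1 : DifferentiableAt ℝ (fun y => W e y A) ((e ∘ e'.symm) (e' x)) := by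
    rw [hψ]
    exact cd_diff (contDiffAt_pi.1 s1 A)
  refine (dzb_congr (heq.mono fun y hy => congrFun hy A)).trans (((c10 _ d1 l).2).trans ?_)
  rw [hψ, Finset.sum_apply]
  exact Finset.sum_congr rfl fun a _ => mul_comm _ _

theorem sec (h2 : St_FK2) (h3 : St_FK3) (hH : M.Met H) (h : (lam H L φ).Sec W) :
    (lam H L φ).Sec ((oQ H).ap W) := by
  refine ⟨fun e he z hz => ?_, fun e he e' he' x hx hx' => ?_⟩
  · beta_reduce
    rw [show (oQ H).ap W e = _ from funext (ap_eq e)]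
    exact ContDiffAt.sum fun l _ => ContDiffAt.sum fun k _ =>
      ((hH.sm e he z hz).inv (hH.det_ne e he z hz) k l).smul (cd_cmv (cd_dzbv (h.sm e he z hz) l) _)
  · have hJ := ((mTR n M).2.1 e he e' he' x hx hx').2.1
    have hJ' : (M.J e e' x)ᴴ.det ≠ 0 := by rw [Matrix.det_conjTranspose]; exact star_ne_zero.2 hJ
    have a : (H e (e x))⁻¹ = M.J e e' x * (H e' (e' x))⁻¹ * (M.J e e' x)ᴴ := by
      rw [hH.cmp e he e' he' x hx hx', Matrix.mul_inv_rev, Matrix.mul_inv_rev, ← Matrix.mul_assoc,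
        Matrix.mul_nonsing_inv _ hJ.isUnit, Matrix.one_mul, Matrix.mul_assoc,
        Matrix.nonsing_inv_mul _ hJ'.isUnit, Matrix.mul_one]
    have t : ∀ k v, (lam H L φ).T e e' x *ᵥ (cr k *ᵥ v) =
        ∑ i, M.J e e' x i k • (cr i *ᵥ ((lam H L φ).T e e' x *ᵥ v)) := fun k v => by
      simp only [lam, Matrix.mulVec_mulVec, Matrix.smul_mul, ((h2 n).2 _).2.2.2.1 k,
        Finset.smul_sum, Matrix.sum_mulVec, Matrix.smul_mulVec, Matrix.mulVec_smul,
        smul_comm _ (M.J e e' x _ k)]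
    beta_reduce
    rw [ap_eq, ap_eq, a]
    simp only [Matrix.mulVec_sum, Matrix.mulVec_smul, t, dd h3 h e he e' he' x hx hx',
      Finset.smul_sum, smul_smul, Matrix.mul_apply, Finset.sum_mul, Finset.sum_smul,
      Matrix.conjTranspose_apply]
    calc _ = ∑ a, ∑ l, ∑ i, ∑ k, _ := Finset.sum_congr rfl fun _ _ => Finset.sum_comm
      _ = ∑ l, ∑ a, ∑ i, ∑ k, _ := Finset.sum_comm
      _ = ∑ l, ∑ a, ∑ k, ∑ i, _ :=
        Finset.sum_congr rfl fun _ _ => Finset.sum_congr rfl fun _ _ => Finset.sum_comm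
      _ = ∑ l, ∑ k, ∑ a, ∑ i, _ := Finset.sum_congr rfl fun _ _ => Finset.sum_comm
      _ = ∑ l, ∑ k, ∑ i, ∑ a, _ :=
        Finset.sum_congr rfl fun _ _ => Finset.sum_congr rfl fun _ _ => Finset.sum_comm
      _ = _ := by
        refine Finset.sum_congr rfl fun _ _ => Finset.sum_congr rfl fun _ _ =>
          Finset.sum_congr rfl fun _ _ => Finset.sum_congr rfl fun _ _ => ?_
        congr 1
        ring

/-- A symmetric combination of the products vanishes. -/
theorem anti (h1 : St_FK1) (v : Fin n → Fin n → Fs n → ℂ) (h : ∀ k m, v k m = v m k) :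
    ∑ k, ∑ m, cr k *ᵥ (cr m *ᵥ v k m) = 0 := by
  have a : ∑ k, ∑ m, cr k *ᵥ (cr m *ᵥ v k m) + ∑ k, ∑ m, cr k *ᵥ (cr m *ᵥ v k m) = 0 := by
    nth_rewrite 2 [Finset.sum_comm]
    rw [← Finset.sum_add_distrib]
    refine Finset.sum_eq_zero fun k _ => ?_
    rw [← Finset.sum_add_distrib]
    refine Finset.sum_eq_zero fun m _ => ?_
    rw [h m k, Matrix.mulVec_mulVec, Matrix.mulVec_mulVec, ← Matrix.add_mulVec,
      ((h1 n).1 k m).1, Matrix.zero_mulVec]
  rw [← two_smul ℂ] at a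
  exact (smul_eq_zero.1 a).resolve_left two_ne_zero

theorem sq (h1 : St_FK1) (hH : M.Kae H) (h : (lam H L φ).Sec W) :
    M.All fun e z => (oQ H).ap ((oQ H).ap W) e z = 0 := fun e he z hz => by
  have s := hH.sm e he z hz
  have d0 := hH.toMet.det_ne e he z hz
  have si := s.inv d0
  have sw := h.sm e he z hz
  have y : ∀ l a b, (gam (H e) l z)ᴴ a b = (gam (H e) a z)ᴴ l b := fun l a b => by
    simp only [Matrix.conjTranspose_apply, gam, Matrix.mul_apply, fun c => hH.cl e he z hz c a l]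
  have q : ∀ l, dzbv l ((oQ H).ap W e) z = ∑ m, cr m *ᵥ ∑ p, (dMb l (fun w => (H e w)⁻¹) z m p •
      dzbv p (W e) z + (H e z)⁻¹ m p • dzbv l (dzbv p (W e)) z) := fun l => by
    have u : (oQ H).ap W e = fun w => ∑ m, cr m *ᵥ ∑ p, (H e w)⁻¹ m p • dzbv p (W e) w :=
      funext fun w => by
        rw [ap_eq, Finset.sum_comm]
        simp only [Matrix.mulVec_sum, Matrix.mulVec_smul]
    have c : ∀ m, ContDiffAt ℝ ∞ (fun w => ∑ p, (H e w)⁻¹ m p • dzbv p (W e) w) z :=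
      fun m => ContDiffAt.sum fun p _ => (si m p).smul (cd_dzbv sw p)
    rw [u]
    funext A
    simp only [dzbv, Finset.sum_apply]
    rw [dzb_sum fun m _ => cd_diff (contDiffAt_pi.1 (cd_cmv (c m) (cr m)) A)]
    refine Finset.sum_congr rfl fun m _ => ?_
    refine (congrFun (dzbv_mv (T := fun _ => cr m) (fun _ _ => contDiffAt_const) (c m) l
      fun _ _ => dzb_const _) A).trans (congrFun (congrArg _ (funext fun B => ?_)) A)
    simp only [dzbv, Finset.sum_apply, Pi.add_apply, Pi.smul_apply, smul_eq_mul]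
    rw [dzb_sum fun p _ => (cd_diff (si m p)).fun_mul (cd_diff (cd_dzb (contDiffAt_pi.1 sw B) p))]
    exact Finset.sum_congr rfl fun p _ =>
      dzb_mul (cd_diff (si m p)) (cd_diff (cd_dzb (contDiffAt_pi.1 sw B) p))
  beta_reduce
  rw [ap_eq, Finset.sum_comm, ← anti h1 (fun k m => ∑ l, (H e z)⁻¹ k l •
    ∑ p, (dMb l (fun w => (H e w)⁻¹) z m p • dzbv p (W e) z +
      (H e z)⁻¹ m p • dzbv l (dzbv p (W e)) z)) fun k m => ?_]
  · refine Finset.sum_congr rfl fun k _ => ?_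
    simp only [q, Matrix.mulVec_sum, Matrix.mulVec_smul, Finset.smul_sum]
    exact Finset.sum_comm
  · simp only [Finset.smul_sum, smul_add, Finset.sum_add_distrib, smul_smul]
    congr 1
    · rw [Finset.sum_comm, Finset.sum_comm (f := fun l p => (_ * dMb l _ z k p) • _)]
      refine Finset.sum_congr rfl fun p _ => ?_
      rw [← Finset.sum_smul, ← Finset.sum_smul]
      congr 1
      simp only [(HS68.met_loc hH.toMet he hz).dMb_inv, Matrix.neg_apply, Matrix.mul_apply, Finset.mul_sum, Finset.sum_mul,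
        mul_neg, Finset.sum_neg_distrib, neg_inj]
      rw [Finset.sum_comm]
      refine Finset.sum_congr rfl fun a _ => Finset.sum_congr rfl fun l _ => ?_
      rw [y l a p]
      ring
    · rw [Finset.sum_comm]
      refine Finset.sum_congr rfl fun p _ => Finset.sum_congr rfl fun l _ => ?_
      rw [mul_comm]
      exact congrArg _ (funext fun B => dzb_dzb (contDiffAt_pi.1 sw B) _ _)

end SQ

theorem st_SQ (hFK1 : St_FK1) (hFK2 : St_FK2) (hFK3 : St_FK3) : St_SQ :=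
  fun _ _ _ _ _ _ hH h => ⟨SQ.sec hFK2 hFK3 hH h, fun hK => SQ.sq hFK1 hK h⟩

end Pool.Agent.Lib.HLK
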