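import Pool.Agent.Lib.HLK.Blue
import Pool.Agent.Lib.EXH.B_L21

/-! Row VL: holomorphic limit of almost holomorphic sections. -/

open scoped Classical Topology ContDiff ComplexOrder Matrix ENNReal
open Set MeasureTheory Complex Metric Filter

noncomputable section

namespace Pool.Agent.Lib.HLK

open Pool.Agent.Lib.SV (E)
open Pool.Agent.Lib.HS32 Pool.Agent.Lib.KP
open Pool.Agent.Lib.VF72 (Lo pB pN ov ov_open ov_hol limh uniq idN Ct)

namespace VL

theorem fin {X : Type} [MeasurableSpace X] (μ : Measure X) [IsFiniteMeasure μ] (l : Filter ℕ)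
    (f : ℕ → X → ℝ) (C s : ℝ) (hs : 0 < s) (hm : ∀ j, Measurable (f j))
    (hi : ∀ j, Integrable (f j) μ) (h0 : ∀ j x, 0 ≤ f j x)
    (h1 : Tendsto (fun j => ∫⁻ x, ENNReal.ofReal (Real.sqrt (f j x)) ∂μ) l (𝓝 0))
    (h2 : ∀ j S, MeasurableSet S → ∫ x, S.indicator 1 x * f j x ∂μ ≤ C * μ.real S ^ s) :
    Tendsto (fun j => ∫ x, f j x ∂μ) l (𝓝 0) := by
  refine tendsto_order.2 ⟨fun a ha => Eventually.of_forall fun j =>
    ha.trans_le (integral_nonneg (h0 j)), fun ε hε => ?_⟩
  have hμ : 0 ≤ μ.real univ := measureReal_nonneg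
  set t := ε / (2 * (μ.real univ + 1)) with ht
  have t0 : 0 < t := by positivity
  have d0 : ENNReal.ofReal (Real.sqrt t) ≠ 0 := by simpa using t0
  let S : ℕ → Set X := fun j => {x | t ≤ f j x}
  have mS : ∀ j, MeasurableSet (S j) := fun j => measurableSet_le measurable_const (hm j)
  have a1 : Tendsto (fun j => μ (S j)) l (𝓝 0) := by
    have := ENNReal.Tendsto.div_const (b := ENNReal.ofReal (Real.sqrt t)) h1 (Or.inr d0)
    rw [ENNReal.zero_div] at this
    refine tendsto_of_tendsto_of_tendsto_of_le_of_le tendsto_const_nhds this (fun _ => zero_le)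
      fun j => (measure_mono fun x hx => ?_).trans (meas_ge_le_lintegral_div
        (f := fun x => ENNReal.ofReal (Real.sqrt (f j x)))
        (hm j).sqrt.ennreal_ofReal.aemeasurable d0 ENNReal.ofReal_ne_top)
    exact ENNReal.ofReal_le_ofReal (Real.sqrt_le_sqrt hx)
  have a2 : Tendsto (fun j => C * μ.real (S j) ^ s) l (𝓝 0) := by
    have := ((Real.continuousAt_rpow_const 0 s (Or.inr hs.le)).tendsto.comp
      ((ENNReal.tendsto_toReal ENNReal.zero_ne_top).comp a1)).const_mul C
    rw [Real.zero_rpow hs.ne', mul_zero] at this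
    exact this
  filter_upwards [(tendsto_order.1 a2).2 (ε / 2) (half_pos hε)] with j hj
  have i2 : Integrable (fun x => (S j).indicator 1 x * f j x) μ :=
    ((hi j).indicator (mS j)).congr (Eventually.of_forall fun x => by
      by_cases h : x ∈ S j <;> simp [h])
  have a3 : ∫ x, f j x ∂μ ≤ ∫ x, (t + (S j).indicator 1 x * f j x) ∂μ :=
    integral_mono (hi j) ((integrable_const t).add i2) fun x => by
      by_cases h : x ∈ S j
      · simp [h, t0.le]
      · simpa [h] using (not_le.1 h).le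
  rw [integral_add (integrable_const t) i2, integral_const, smul_eq_mul] at a3
  have a4 : μ.real univ * t ≤ ε / 2 := by
    rw [ht, mul_div_assoc', div_le_div_iff₀ (by positivity) two_pos]
    nlinarith
  linarith [h2 j _ (mS j)]

variable {n : ℕ} {M : Mf n} {σ : Type} [Fintype σ] [DecidableEq σ]

theorem lim [M.Cpt] {H : M.Fam (Mat n)} {b : Bun M σ} (l : Ultrafilter ℕ)
    {W : ℕ → M.Fam (σ → ℂ)} (hH : M.Met H) (hb : b.Ok) (hW : ∀ a, b.Sec (W a))
    (hB : ∀ e ∈ M.C, ∀ k, Lo pB e.target fun a z => W a e z k)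
    (h0 : ∀ e ∈ M.C, ∀ k j, Lo (pN l) e.target fun a => dzb j fun z => W a e z k) :
    ∃ V, b.Sec V ∧ Hol V ∧ ∀ e ∈ M.C, ∀ k, Lo (pN l) e.target fun a z => W a e z k - V e z k := by
  have loc : ∀ (e : M.Ch) (k : σ), ∃ P : E n → ℂ, e ∈ M.C →
      (∀ z ∈ e.target, HolN P z) ∧ Lo (pN l) e.target fun a z => W a e z k - P z := fun e k => by
    by_cases he : e ∈ M.C
    · obtain ⟨P, hP⟩ := limh l (Q := fun a z => W a e z k) e.open_target
        (fun a z hz => contDiffAt_pi.1 ((hW a).sm e he z hz) k) (hB e he k) (h0 e he k)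
      exact ⟨P, fun _ => hP⟩
    · exact ⟨0, fun h => absurd h he⟩
  choose P hP using loc
  refine ⟨fun e z k => P e k z, ⟨fun e he z hz => contDiffAt_pi.2 fun k =>
    BHOL.smooth ((hP e k he).1 z hz), fun e he e' he' x hx hx' => funext fun i => ?_⟩,
    fun e he z hz k => (hP e k he).1 z hz, fun e he k => (hP e k he).2⟩
  have cJ : ∀ k, ∀ w ∈ ov e e' e.target, ContinuousAt (fun w => b.T e e' (e'.symm w) i k) w :=
    fun k w hw => by
      have h1 := (hb.tsm e he e' he' _ hw.2.1 (e'.map_target hw.1) i k).continuousAt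
      rwa [e'.right_inv hw.1] at h1
  have cW : ∀ k, Ct (ov e e' e.target) fun a w => W a e' w k := fun k a w hw =>
    (contDiffAt_pi.1 ((hW a).sm e' he' w hw.1) k).continuousAt
  have cP : ∀ k, ∀ w ∈ ov e e' e.target, ContinuousAt (P e' k) w := fun k w hw =>
    ((hP e' k he').1 w hw.1).self_of_nhds.continuousAt
  have key := uniq (l := l) (U := ov e e' e.target)
    (Q := fun a w => ∑ k, b.T e e' (e'.symm w) i k * W a e' w k)
    (P := fun w => ∑ k, b.T e e' (e'.symm w) i k * P e' k w)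
    (P' := fun w => P e i (e (e'.symm w))) (ov_open e.open_target)
    (fun a w hw => tendsto_finsetSum _ fun k _ => (cJ k w hw).mul (cW k a w hw))
    (fun w hw => tendsto_finsetSum _ fun k _ => (cJ k w hw).mul (cP k w hw))
    (fun w hw => ContinuousAt.comp (f := e ∘ e'.symm)
      ((hP e i he).1 _ hw.2.2).self_of_nhds.continuousAt
      (ov_hol he he' hw).self_of_nhds.continuousAt)
    ((Lo.sum (idN _) Finset.univ
      (R := fun k a w => (W a e' w k - P e' k w) * b.T e e' (e'.symm w) i k)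
      (fun k => ((hP e' k he').2.sub inter_subset_left).mul (idN _) (cJ k))
      fun k a w hw => ((cW k a w hw).sub (cP k w hw)).mul (cJ k w hw)).le (idN _)
      fun a w _ => le_of_eq (congrArg _ (by
        rw [← Finset.sum_sub_distrib]
        exact Finset.sum_congr rfl fun k _ => by ring)))
    (((hP e i he).2.chg (idN _) hH he he').le (idN _) fun a w hw =>
      le_of_eq (congrArg _ (by
        have h1 := congrFun ((hW a).cmp e he e' he' _ hw.2.1 (e'.map_target hw.1)) i
        rw [e'.right_inv hw.1] at h1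
        exact congrArg (· - _) h1.symm)))
    (e' x) ⟨e'.map_source hx', by
      simp only [mem_preimage, mem_inter_iff, e'.left_inv hx']
      exact ⟨hx, e.map_source hx⟩⟩
  rw [e'.left_inv hx'] at key
  exact key.symm

theorem glob [M.Cpt] {H : M.Fam (Mat n)} (l : Filter ℕ) (f : ℕ → M.X → ℝ) (hH : M.Met H)
    (h : ∀ e ∈ M.C, Lo (pN l) e.target fun a z =>
      (((H e z).det.re * Real.sqrt (f a (e.symm z)) : ℝ) : ℂ)) :
    Tendsto (fun j => ∫⁻ x, ENNReal.ofReal (Real.sqrt (f j x)) ∂M.mu H) l (𝓝 0) := by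
  obtain ⟨V, -⟩ := (mCOV n M).2.2.1
  have sb : ∀ a, closedBall (V.c a) (V.ρ a) ⊆ (V.e a).target := fun a =>
    (closedBall_subset_closedBall (by linarith [V.pos a])).trans (V.sub a)
  have cv : (univ : Set M.X) ⊆ ⋃ a, (V.e a).symm '' closedBall (V.c a) (V.ρ a) := fun x _ => by
    obtain ⟨a, h1, h2, -⟩ := V.cov x
    exact mem_iUnion.2 ⟨a, _, ball_subset_closedBall h2, (V.e a).left_inv h1⟩
  have t := tendsto_finsetSum Finset.univ fun a _ =>
    h _ (V.mem a) _ (isCompact_closedBall (V.c a) (V.ρ a)) (sb a)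
  rw [Finset.sum_const_zero] at t
  refine tendsto_of_tendsto_of_tendsto_of_le_of_le tendsto_const_nhds t (fun _ => zero_le)
    fun j => ?_
  rw [← setLIntegral_univ]
  refine (lintegral_mono_set cv).trans ((lintegral_iUnion_le _ _).trans ?_)
  rw [tsum_fintype]
  refine Finset.sum_le_sum fun a _ => ?_
  rw [((mMU n M H hH).2.2.2.2.2.1 _ (V.mem a) _ measurableSet_closedBall (sb a)).2.1]
  refine setLIntegral_mono' measurableSet_closedBall fun z hz => ?_
  have d := (Mf.pd_det_re (hH.pos _ (V.mem a) z (sb a hz))).le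
  rw [← ENNReal.ofReal_mul d, ← ofReal_norm, Complex.norm_real, Real.norm_eq_abs]
  exact ENNReal.ofReal_le_ofReal (le_abs_self _)

end VL

theorem st_VL (hGB : St_GB) (hSOB : St_SOB) : St_VL := by
  intro n M _ σ _ _ H b l W D hn hH hb hl hW h0
  obtain ⟨G1, G2⟩ := hGB n M σ H b hH hb hl
  obtain ⟨C, C0, hC⟩ := hSOB n M σ H b hn hH hb hl
  let g : Geo M σ := ⟨H, b, hH, hb⟩
  have pc : ∀ U, b.Sec U → Continuous (b.pn U) := fun U hU =>
    continuous_re.comp (hb.pp_rep hU hU).2.continuous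
  have p0 : ∀ U x, 0 ≤ b.pn U x := fun U x => Pre.pn_nonneg (g := g) U x
  obtain ⟨V, hV, hol, hL⟩ := VL.lim l hH hb (fun a => (hW a).1)
    (fun e he k => by
      obtain ⟨c, hc⟩ := G2 e he
      exact (EXH.st_L21 n M H ℕ (fun a => b.pn (W a)) (fun a z => W a e z k) c hH e he
        (fun a => ⟨pc _ (hW a).1, p0 _⟩) fun z hz =>
          ⟨(hc z hz).1, fun a => ((hc z hz).2.2 _ (hW a).1).1 k⟩).1 D fun a => (hW a).2.1)
    fun e he k j => by
      obtain ⟨c, hc⟩ := G2 e he
      exact (EXH.st_L21 n M H ℕ (fun a => gb H b (W a)) (fun a => dzb j fun z => W a e z k) c hH e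
        he (fun a => ⟨(G1 _ (hW a).1).2.1, (G1 _ (hW a).1).2.2.1⟩) fun z hz =>
          ⟨(hc z hz).1, fun a => ((hc z hz).2.2 _ (hW a).1).2.1 j k⟩).2 l h0
  refine ⟨V, hV, hol, ?_⟩
  have sU : ∀ j, b.Sec (W j - V) := fun j => b.secs.sub_mem (hW j).1 hV
  obtain ⟨-, fm, -, -, itg, -⟩ := mMU n M H hH
  have n0 : (0 : ℝ) < n := Nat.cast_pos.2 hn
  refine VL.fin (M.mu H) l (fun j => b.pn (W j - V)) (C * (2 * D + 2 * b.nr H V + D))
    (1 / (2 * n)) (by positivity) (fun j => (pc _ (sU j)).measurable)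
    (fun j => itg _ _ (pc _ (sU j))) (fun j => p0 _) (VL.glob l _ hH fun e he => ?_) fun j S hS => ?_
  · obtain ⟨c, hc⟩ := G2 e he
    refine (Lo.sum (idN l) Finset.univ (R := fun k a z => ((‖W a e z k - V e z k‖ : ℝ) : ℂ))
      (fun k => (hL e he k).le (idN _) fun a z _ => by simp) fun k a z hz =>
        continuous_ofReal.continuousAt.comp
          ((contDiffAt_pi.1 ((sU a).sm e he z hz) k).continuousAt.norm)).dom (idN _)
      (φ := fun z => (H e z).det.re * Real.sqrt (c z))
      (fun z hz => (VF72.det_cont hH he hz).mul (hc z hz).1.sqrt) fun a z hz => ?_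
    have d := (Mf.pd_det_re (hH.pos e he z hz)).le
    have s0 : 0 ≤ ∑ k, ‖W a e z k - V e z k‖ := Finset.sum_nonneg fun _ _ => norm_nonneg _
    rw [← ofReal_sum, Complex.norm_real, Complex.norm_real, Real.norm_of_nonneg s0,
      Real.norm_of_nonneg (mul_nonneg d (Real.sqrt_nonneg _)), mul_assoc]
    refine mul_le_mul_of_nonneg_left ?_ d
    rw [← Real.sqrt_sq s0, ← Real.sqrt_mul (hc z hz).2.1.le]
    exact Real.sqrt_le_sqrt (((hc z hz).2.2 _ (sU a)).2.2.trans (mul_le_mul_of_nonneg_left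
      (Finset.sum_sq_le_sq_sum_of_nonneg fun _ _ => norm_nonneg _) (hc z hz).2.1.le))
  · have h1 := hC (W j - V) (S.indicator 1) 1 (sU j) (measurable_one.indicator hS) fun x => by
      by_cases h : x ∈ S <;> simp [h]
    have h2 : ∫ x, (S.indicator 1 x : ℝ) ^ (2 * n) ∂M.mu H = (M.mu H).real S := by
      rw [← integral_indicator_one hS]
      refine integral_congr_ae (Eventually.of_forall fun x => ?_)
      by_cases h : x ∈ S <;> simp [h, hn.ne']
    have h3 : b.nr H (W j - V) ≤ 2 * D + 2 * b.nr H V := by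
      have e1 := Pre.norm_sq (g := g) (Pre.mk (W j) (hW j).1 - Pre.mk V hV)
      have e2 := Pre.norm_sq (g := g) (Pre.mk (W j) (hW j).1)
      have e3 := Pre.norm_sq (g := g) (Pre.mk V hV)
      have e4 := norm_sub_le (Pre.mk (g := g) (W j) (hW j).1) (Pre.mk V hV)
      have e5 := pow_le_pow_left₀ (norm_nonneg _) e4 2
      simp only [Pre.val_sub, Pre.val_mk] at e1 e2 e3
      have e6 := (hW j).2.1
      change _ = b.nr H _ at e1 e2 e3
      nlinarith [sq_nonneg (‖Pre.mk (g := g) (W j) (hW j).1‖ - ‖Pre.mk (g := g) V hV‖)]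
    rw [h2, (G1 _ (hW j).1).2.2.2 V hV hol] at h1
    rw [mul_right_comm C]
    exact h1.trans (mul_le_mul_of_nonneg_left (add_le_add h3 (hW j).2.2)
      (mul_nonneg C0 (Real.rpow_nonneg measureReal_nonneg _)))

end Pool.Agent.Lib.HLK
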