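import Pool.Agent.Lib.HLK.Blue

/-! Project hlk, row WS: weak solutions have approximants with bounded image. -/

open scoped Classical Topology ContDiff ComplexOrder Matrix ENNReal
open Set MeasureTheory Complex Metric Filter

set_option linter.unusedVariables false

noncomputable section

namespace Pool.Agent.Lib.HLK

open Pool.Agent.Lib.SV (E)
open Pool.Agent.Lib.HS32 Pool.Agent.Lib.KP
open UniformSpace (Completion)

namespace WS

/-- A symmetric bounded map with a bounded commutator preserves the weak solutions. -/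
theorem loc {C : Type} [SeminormedAddCommGroup C] [InnerProductSpace ℂ C] (T m : C →ₗ[ℂ] C)
    {A : ℝ} (h1 : ∀ s, ‖m s‖ ≤ A * ‖s‖) (h2 : ∀ s, ‖T (m s) - m (T s)‖ ≤ A * ‖s‖)
    (h3 : ∀ s s', inner ℂ (m s) s' = inner ℂ s (m s')) :
    ∃ m' : Completion C →L[ℂ] Completion C, (∀ s : C, m' s = (m s : C)) ∧
      ∀ u w : Completion C, (∀ s : C, inner ℂ u (T s : Completion C) = inner ℂ w (s : Completion C)) →
        ∃ w' : Completion C, ∀ s : C,
          inner ℂ (m' u) (T s : Completion C) = inner ℂ w' (s : Completion C) := by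
  let m' := (m.mkContinuous A h1).completion
  let b' := ((T ∘ₗ m - m ∘ₗ T).mkContinuous A h2).completion
  have e1 : ∀ s : C, m' s = (m s : C) := fun s => ContinuousLinearMap.completion_apply_coe _ s
  have e2 : ∀ s : C, b' s = (T (m s) - m (T s) : C) := fun s =>
    ContinuousLinearMap.completion_apply_coe _ s
  have e3 : ∀ (u : Completion C) (s : C),
      inner ℂ (m' u) (s : Completion C) = inner ℂ u ((m s : C) : Completion C) := fun u s => by
    induction u using Completion.induction_on with
    | hp => exact isClosed_eq (by fun_prop) (by fun_prop)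
    | ih a => rw [e1, Completion.inner_coe, Completion.inner_coe, h3]
  refine ⟨m', e1, fun u w hw => ⟨m' w - b'.adjoint u, fun s => ?_⟩⟩
  rw [inner_sub_left, ContinuousLinearMap.adjoint_inner_left, e2, e3, e3, Completion.coe_sub,
    inner_sub_right, hw]
  ring

theorem val_sum {n : ℕ} {M : Mf n} {σ : Type} [Fintype σ] [DecidableEq σ] {g : Geo M σ}
    {ι : Type} (s : Finset ι) (f : ι → Pre g) : (∑ a ∈ s, f a).val = ∑ a ∈ s, (f a).val := by
  induction s using Finset.induction_on with
  | empty => rfl
  | insert a s ha ih => rw [Finset.sum_insert ha, Finset.sum_insert ha, Pre.val_add, ih]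

theorem coe_sum {C : Type} [SeminormedAddCommGroup C] {ι : Type} (s : Finset ι) (f : ι → C) :
    ((∑ a ∈ s, f a : C) : Completion C) = ∑ a ∈ s, (f a : Completion C) :=
  map_sum Completion.toCompl f s

end WS

theorem st_WS (hCHT : St_CHT) (hCUT : St_CUT) : St_WS := by
  intro n M _ σ _ _ g D hD u w hw
  choose e he U hU hx hxU γ v c ext hch hop hsup _ using hCHT n M σ g D hD
  obtain ⟨V, hV⟩ := (mCOV n M).2.1 M.C (fun x => (e x).source ∩ e x ⁻¹' U x) Mf.sub_all fun x =>
    ((e x).isOpen_inter_preimage (hch x).op).mem_nhds ⟨hx x, hxU x⟩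
  choose x hx' using fun a => (hV a).2
  choose m A hA hm using fun a => hCUT n M σ g D hD (fun y => V.χ a y ^ 2) ((V.sm a).pow 2)
  choose m' hm' hw' using fun a => WS.loc (Pre.op D hD.sec) (m a) (fun s => (hm a s).2.1)
    (fun s => (hm a s).2.2.1) fun s => (hm a s).2.2.2
  have hsum : ∀ y : L2 g, ∑ a, m' a y = y := fun y => by
    induction y using Completion.induction_on with
    | hp => exact isClosed_eq (by fun_prop) (by fun_prop)
    | ih s =>
      simp only [hm']
      rw [← WS.coe_sum]
      refine congrArg _ (Pre.ext (funext fun e' => funext fun z => ?_))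
      rw [WS.val_sum, Finset.sum_apply, Finset.sum_apply]
      simp only [fun a => (hm a s).1 e' z]
      rw [← Finset.sum_smul, ← Complex.ofReal_sum, V.sum, Complex.ofReal_one, one_smul]
  have key : ∀ a, ∃ B : ℝ, ∀ η : ℝ, 0 < η → ∃ s : Pre g, ‖m' a u - s‖ < η ∧
      ‖Pre.op D hD.sec s‖ ≤ B := fun a => by
    obtain ⟨w', h'⟩ := hw' a u w hw
    have hK0 : IsCompact ((V.e a).symm '' closedBall (V.c a) (4 * V.ρ a)) :=
      (isCompact_closedBall _ _).image_of_continuousOn ((V.e a).continuousOn_symm.mono (V.sub a))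
    have hK := hK0.image_of_continuousOn
      ((e (x a)).continuousOn.mono ((hx' a).trans inter_subset_left))
    have hKU : e (x a) '' ((V.e a).symm '' closedBall (V.c a) (4 * V.ρ a)) ⊆ U (x a) := by
      rintro _ ⟨y, hy, rfl⟩
      exact (hx' a hy).2
    have hcl : ∀ y : L2 g, m' a y ∈ closure ((fun f => (ext (x a) f : L2 g)) '' {f | TH.Test (U (x a)) f ∧
        tsupport f ⊆ e (x a) '' ((V.e a).symm '' closedBall (V.c a) (4 * V.ρ a))}) := fun y => by
      induction y using Completion.induction_on with
      | hp => exact isClosed_closure.preimage (m' a).continuous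
      | ih s =>
        obtain ⟨f, f1, f2, f3⟩ := hsup (x a) _ hK hKU (m a s) fun y hy => by
          have h0 : V.χ a y = 0 := by
            by_contra h
            obtain ⟨p, q⟩ := V.supp a y h
            have r : y ∈ (V.e a).symm '' closedBall (V.c a) (4 * V.ρ a) :=
              ⟨_, ball_subset_closedBall (ball_subset_ball (by linarith [V.pos a]) q),
                (V.e a).left_inv p⟩
            exact hy ⟨_, mem_image_of_mem _ r, (e (x a)).left_inv (hx' a r).1⟩
          rw [Bun.pn, Bun.pp, Mf.ev, (hm a s).1, Mf.ch_symm, h0]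
          simp
        exact subset_closure ⟨f, ⟨f1, f2⟩, f3.trans (hm' a s).symm⟩
    obtain ⟨B, hB⟩ := (hch (x a)).weak_strong (σ := -1) (u := m' a u) (w := w')
      (fun f f' hf hf' => by
        change (inner ℂ _ _ : ℂ).re = -1 * (inner ℂ _ _ : ℂ).re
        rw [hop _ f hf, hop _ f' hf', Completion.inner_coe, Completion.inner_coe, Pre.op_skew hD,
          Complex.neg_re, neg_one_mul]) hK hKU
      (hcl u)
      (fun f hf => by
        change (inner ℂ _ _ : ℂ).re = (inner ℂ _ _ : ℂ).re
        rw [hop _ f hf, h'])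
    refine ⟨B, fun η hη => ?_⟩
    obtain ⟨f, hf, h1, h2⟩ := hB η hη
    exact ⟨_, h1, by rwa [hop _ f hf, Completion.norm_coe] at h2⟩
  choose B hB using key
  refine ⟨∑ a, B a, fun η hη => ?_⟩
  choose s hs using fun a => hB a (η / (V.r + 1)) (by positivity)
  refine ⟨∑ a, s a, ?_, ?_⟩
  · rw [WS.coe_sum, ← hsum u, ← Finset.sum_sub_distrib]
    refine (norm_sum_le_of_le _ fun a _ => (hs a).1.le).trans_lt ?_
    rw [Finset.sum_const, Finset.card_univ, Fintype.card_fin, nsmul_eq_mul, mul_div_assoc',
      div_lt_iff₀ (by positivity)]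
    linarith
  · rw [map_sum]
    exact norm_sum_le_of_le _ fun a _ => (hs a).2

end Pool.Agent.Lib.HLK
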