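import Pool.Agent.Lib.HLK.Blue

/-! Project hlk: operators of order zero. -/

open scoped Classical Topology ContDiff ComplexOrder Matrix ENNReal
open Set MeasureTheory Complex Metric Filter

set_option linter.unusedVariables false

noncomputable section

namespace Pool.Agent.Lib.HLK

open Pool.Agent.Lib.SV (E)
open Pool.Agent.Lib.HS32

namespace ZER

variable {n : ℕ} {σ τ : Type} [Fintype σ] [Fintype τ] {M : Mf n}

/-- The value of a matrix on a vector. -/
def qf (A : Mx σ) (v : σ → ℂ) : ℝ := (star v ⬝ᵥ A *ᵥ v).re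

theorem qf_smul (A : Mx σ) (r : ℝ) (v : σ → ℂ) : qf A (r • v) = r ^ 2 * qf A v := by
  simp only [qf, Matrix.mulVec_smul, star_smul, star_trivial, smul_dotProduct, dotProduct_smul,
    real_smul, re_ofReal_mul, sq]
  ring

theorem qf_conj (A : Mx τ) (J : Matrix τ σ ℂ) (v : σ → ℂ) : qf (Jᴴ * A * J) v = qf A (J *ᵥ v) := by
  simp only [qf, Matrix.star_mulVec, ← Matrix.mulVec_mulVec, Matrix.dotProduct_mulVec,
    Matrix.vecMul_vecMul]

theorem qf_cont {T : E n → Mx σ} {p : E n × (σ → ℂ)}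
    (h : ∀ i j, ContinuousAt (fun w => T w i j) p.1) :
    ContinuousAt (fun p : E n × (σ → ℂ) => qf (T p.1) p.2) p := by
  simp only [qf, dotProduct, Matrix.mulVec]
  refine continuous_re.continuousAt.comp (tendsto_finsetSum _ fun i _ => ?_)
  refine ContinuousAt.mul (f := fun p : E n × (σ → ℂ) => star p.2 i) (by fun_prop)
    (tendsto_finsetSum _ fun j _ => ?_)
  exact ContinuousAt.mul (f := fun p : E n × (σ → ℂ) => T p.1 i j)
    (ContinuousAt.comp (g := fun w => T w i j) (h i j) continuousAt_fst) (by fun_prop)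

/-- Comparison on a compact set. -/
theorem loc {K : Set (E n)} (hK : IsCompact K) {A G : E n → Mx σ}
    (hA : ∀ z ∈ K, ∀ i j, ContinuousAt (fun w => A w i j) z)
    (hG : ∀ z ∈ K, ∀ i j, ContinuousAt (fun w => G w i j) z) (hp : ∀ z ∈ K, (G z).PosDef) :
    ∃ C : ℝ, 0 < C ∧ ∀ D, C ≤ D → ∀ z ∈ K, ∀ v, qf (A z) v ≤ D * qf (G z) v := by
  have ps : ∀ p ∈ K ×ˢ sphere (0 : σ → ℂ) 1, 0 < qf (G p.1) p.2 := fun p hq =>
    (hp _ hq.1).re_dotProduct_pos (by
      rintro e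
      simpa [e] using hq.2)
  obtain ⟨B, hB⟩ := (hK.prod (isCompact_sphere (0 : σ → ℂ) 1)).exists_bound_of_continuousOn
    (f := fun p => qf (A p.1) p.2 / qf (G p.1) p.2) fun p hq =>
      ((qf_cont (hA _ hq.1)).div (qf_cont (hG _ hq.1)) (ps p hq).ne').continuousWithinAt
  refine ⟨|B| + 1, by positivity, fun D hD z hz v => ?_⟩
  by_cases hv : v = 0
  · simp [hv, qf]
  have h0 : 0 < ‖v‖ := norm_pos_iff.2 hv
  have hm : (z, ‖v‖⁻¹ • v) ∈ K ×ˢ sphere (0 : σ → ℂ) 1 := ⟨hz, by simp [norm_smul, h0.ne']⟩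
  have h1 : qf (A z) (‖v‖⁻¹ • v) / qf (G z) (‖v‖⁻¹ • v) ≤ D :=
    (le_abs_self _).trans ((hB _ hm).trans ((le_abs_self B).trans (by linarith)))
  rw [div_le_iff₀ (ps _ hm), qf_smul, qf_smul, mul_left_comm] at h1
  exact le_of_mul_le_mul_left h1 (by positivity)

variable [DecidableEq σ]

/-- A section with a given value. -/
theorem bump [M.Cpt] {b : Bun M σ} (hb : b.Ok) {e : M.Ch} (he : e ∈ M.C) {x : M.X}
    (hx : x ∈ e.source) (v : σ → ℂ) : ∃ W, b.Sec W ∧ W e (e x) = v := by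
  obtain ⟨χ, hs, -, h1, h0⟩ := (mCOV n M).2.2.2.2.2 {x} e.source isClosed_singleton e.open_source
    (singleton_subset_iff.2 hx)
  refine ⟨fun a z => (χ (a.symm z) : ℂ) • b.T a e (a.symm z) *ᵥ v,
    ⟨fun a ha z hz => ?_, fun a ha a' ha' y hy hy' => ?_⟩, ?_⟩
  · by_cases hy : a.symm z ∈ e.source
    · refine (cd_ofReal (hs a ha z hz)).smul (contDiffAt_pi.2 fun i => ?_)
      simp only [Matrix.mulVec, dotProduct]
      refine ContDiffAt.sum fun j _ => ContDiffAt.mul ?_ contDiffAt_const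
      have := ((mTR n M).2.2.2.1 ℂ fun y => b.T a e y i j).2.1 e he a ha _ hy (a.map_target hz)
        (hb.tsm a ha e he _ (a.map_target hz) hy i j)
      rwa [a.right_inv hz] at this
    · refine (contDiffAt_const (c := (0 : σ → ℂ))).congr_of_eventuallyEq ?_
      have h2 : χ =ᶠ[𝓝 (a.symm z)] 0 := notMem_tsupport_iff_eventuallyEq.1 fun h => hy (h0 h)
      filter_upwards [(a.continuousAt_symm hz).eventually h2] with w hw
      rw [hw, Pi.zero_apply, ofReal_zero, zero_smul]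
  · simp only [a.left_inv hy, a'.left_inv hy']
    by_cases h : y ∈ e.source
    · rw [hb.mul a ha a' ha' y hy hy' e he h, Matrix.mulVec_smul, Matrix.mulVec_mulVec]
    · rw [image_eq_zero_of_notMem_tsupport fun h' => h (h0 h')]
      simp
  · simp only [e.left_inv hx, hb.one e he x hx, h1.self_of_nhdsSet x rfl]
    simp

theorem cmp_of [M.Cpt] {b : Bun M σ} {b' : Bun M τ} {Φ : M.Fam (Matrix τ σ ℂ)} (hb : b.Ok)
    (h : ∀ W, b.Sec W → b'.Sec fun e z => Φ e z *ᵥ W e z) :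
    M.Ov fun e e' x => Φ e (e x) * b.T e e' x = b'.T e e' x * Φ e' (e' x) := by
  intro e he e' he' x hx hx'
  refine Matrix.ext_of_mulVec_single fun i => ?_
  obtain ⟨W, hW, hv⟩ := bump hb he' hx' (Pi.single i 1)
  have h1 := (h W hW).cmp e he e' he' x hx hx'
  have h2 := hW.cmp e he e' he' x hx hx'
  beta_reduce at h1 h2
  rw [h2, hv, Matrix.mulVec_mulVec, Matrix.mulVec_mulVec] at h1
  exact h1

end ZER

open ZER in
theorem st_ZER : St_ZER := by
  intro n M _ σ τ _ _ _ _ b b' Φ hb hb' hΦ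
  refine ⟨⟨cmp_of hb, fun h W hW => ⟨fun e he z hz => contDiffAt_pi.2 fun i => ?_,
    fun e he e' he' x hx hx' => ?_⟩⟩, fun h => ?_⟩
  · simp only [Matrix.mulVec, dotProduct]
    exact ContDiffAt.sum fun j _ => (hΦ e he z hz i j).mul (contDiffAt_pi.1 (hW.sm e he z hz) j)
  · beta_reduce
    rw [hW.cmp e he e' he' x hx hx', Matrix.mulVec_mulVec, Matrix.mulVec_mulVec,
      h e he e' he' x hx hx']
  obtain ⟨V, -⟩ := (mCOV n M).2.2.1
  obtain ⟨C, C0, hC⟩ := BBD.glob M V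
    (fun e z D => ∀ v, qf ((Φ e z)ᴴ * b'.G e z * Φ e z) v ≤ D * qf (b.G e z) v)
    fun e he K hK hs => loc hK (fun z hz i j => by
      simp only [Matrix.mul_apply, Matrix.conjTranspose_apply]
      exact (ContDiffAt.sum fun k _ => (ContDiffAt.sum fun l _ =>
        (cd_star (hΦ e he z (hs hz) l i)).mul (hb'.gsm e he z (hs hz) l k)).mul
          (hΦ e he z (hs hz) k j)).continuousAt)
      (fun z hz i j => (hb.gsm e he z (hs hz) i j).continuousAt) fun z hz => hb.pos e he z (hs hz)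
  refine ⟨C, C0.le, fun W x => ?_⟩
  obtain ⟨e, he, hx, h1⟩ := hC x
  have e1 := hb.cmp e he _ (Mf.ch_mem x) x hx (Mf.mem_ch x)
  have e2 := hb'.cmp e he _ (Mf.ch_mem x) x hx (Mf.mem_ch x)
  have e3 := cmp_of hb h e he _ (Mf.ch_mem x) x hx (Mf.mem_ch x)
  beta_reduce at e1 e2 e3
  show qf (b'.G (M.ch x) (M.ch x x)) (Φ (M.ch x) (M.ch x x) *ᵥ W (M.ch x) (M.ch x x)) ≤
    C * qf (b.G (M.ch x) (M.ch x x)) (W (M.ch x) (M.ch x x))
  rw [e1, e2, qf_conj, qf_conj, Matrix.mulVec_mulVec, ← e3, ← Matrix.mulVec_mulVec, ← qf_conj]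
  exact h1 _

end Pool.Agent.Lib.HLK
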