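import Pool.Agent.Lib.HLK.B_ADJ
import Pool.Agent.Lib.HLK.B_CHT
import Pool.Agent.Lib.HLK.B_CU
import Pool.Agent.Lib.HLK.B_CUT
import Pool.Agent.Lib.HLK.B_DNS
import Pool.Agent.Lib.HLK.B_FK1
import Pool.Agent.Lib.HLK.B_FK2
import Pool.Agent.Lib.HLK.B_FK3
import Pool.Agent.Lib.HLK.B_GAU
import Pool.Agent.Lib.HLK.B_GB
import Pool.Agent.Lib.HLK.B_LAM
import Pool.Agent.Lib.HLK.B_NEAR
import Pool.Agent.Lib.HLK.B_REL
import Pool.Agent.Lib.HLK.B_SKW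
import Pool.Agent.Lib.HLK.B_SOB
import Pool.Agent.Lib.HLK.B_SP
import Pool.Agent.Lib.HLK.B_SQ
import Pool.Agent.Lib.HLK.B_VL
import Pool.Agent.Lib.HLK.B_WS
import Pool.Agent.Lib.HLK.B_ZER

/-! Project hlk: assembly, first part. -/

namespace Pool.Agent.Lib.HLK

theorem aFK1 : St_FK1 := st_FK1
theorem aFK2 : St_FK2 := st_FK2 aFK1
theorem aFK3 : St_FK3 := st_FK3 aFK1 aFK2
theorem aLAM : St_LAM := st_LAM aFK2 aFK3
theorem aSQ : St_SQ := st_SQ aFK1 aFK2 aFK3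
theorem aSP : St_SP := st_SP aFK1 aFK2 aFK3
theorem aADJ : St_ADJ := st_ADJ aFK1 aFK2 aFK3 aLAM aSQ aSP
theorem aSKW : St_SKW := st_SKW aFK1 aFK2 aFK3 aLAM aSQ aSP aADJ
theorem aGB : St_GB := st_GB
theorem aCU : St_CU := st_CU aFK1 aFK2 aLAM
theorem aZER : St_ZER := st_ZER
theorem aCUT : St_CUT := st_CUT aZER
theorem aCHT : St_CHT := st_CHT st_GAU
theorem aWS : St_WS := st_WS aCHT aCUT
theorem aREL : St_REL := st_REL aCUT aCHT
theorem aDNS : St_DNS := st_DNS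
theorem aNEAR : St_NEAR := st_NEAR
theorem aSOB : St_SOB := st_SOB aGB
theorem aVL : St_VL := st_VL aGB aSOB

end Pool.Agent.Lib.HLK
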