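import Pool.Agent.Lib.HLK.Blue
import Pool.Agent.Lib.HS68.Fun

/-! Project hlk: the identity of Bochner, Kodaira and Nakano. -/

open scoped Classical Topology ContDiff ComplexOrder Matrix ENNReal
open Set MeasureTheory Complex Metric Filter

noncomputable section

namespace Pool.Agent.Lib.HLK

open Pool.Agent.Lib.SV (E)
open Pool.Agent.Lib.HS32 Pool.Agent.Lib.KP
open Pool.Agent.Lib.KP.T60 (phC phC_sm)
open Pool.Agent.Lib.HS68 (met_loc clo_kl Loc Kl)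

namespace BOC

section alg

variable {ι σ : Type} [Fintype ι] [DecidableEq ι] [Fintype σ] {c a : ι → Mx σ}

theorem anti (h : ∀ m k v, a m *ᵥ c k *ᵥ v = (if m = k then v else 0) - c k *ᵥ a m *ᵥ v)
    (P : ι → ι → ℂ) (U : ι → ι → σ → ℂ) :
    ∑ m, a m *ᵥ (∑ l, ∑ k, P k l • c k *ᵥ U m l) + ∑ l, ∑ k, P k l • c k *ᵥ (∑ m, a m *ᵥ U m l) =
      ∑ k, ∑ l, P k l • U k l := by
  simp only [Matrix.mulVec_sum, Matrix.mulVec_smul, h, smul_sub, Finset.sum_sub_distrib,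
    Finset.smul_sum, smul_ite, smul_zero, Finset.sum_ite_eq, Finset.mem_univ, if_true]
  rw [sub_add_eq_add_sub, sub_eq_iff_eq_add, add_right_inj]
  calc _ = ∑ l, ∑ m, ∑ k, P k l • c k *ᵥ a m *ᵥ U m l :=
        Finset.sum_congr rfl fun _ _ => Finset.sum_comm
    _ = _ := Finset.sum_comm

theorem conn (h : ∀ m k v, a m *ᵥ c k *ᵥ v = (if m = k then v else 0) - c k *ᵥ a m *ᵥ v)
    (P : ι → ι → ℂ) (Γ : ι → ι → ι → ℂ) (hΓ : ∀ m k j, Γ m k j = Γ j k m) (B : ι → σ → ℂ) :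
    ∑ m, a m *ᵥ (∑ l, ∑ k, (-∑ j, Γ m k j * P j l) • c k *ᵥ B l) =
      ∑ k, ∑ l, P k l • ((∑ i, ∑ j, Γ k i j • (c i * a j)) *ᵥ B l - (∑ j, Γ k j j) • B l) := by
  simp only [Matrix.mulVec_sum, Matrix.mulVec_smul, h, smul_sub, Finset.sum_sub_distrib,
    smul_ite, smul_zero, Matrix.sum_mulVec,
    Matrix.smul_mulVec, ← Matrix.mulVec_mulVec, neg_smul, Finset.sum_neg_distrib, Finset.sum_smul,
    Finset.smul_sum, smul_smul, Matrix.mulVec_neg, neg_sub]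
  congr 1
  · calc _ = ∑ m, ∑ l, ∑ j, ∑ k, (Γ m k j * P j l) • c k *ᵥ a m *ᵥ B l :=
          Finset.sum_congr rfl fun _ _ => Finset.sum_congr rfl fun _ _ => Finset.sum_comm
      _ = ∑ l, ∑ j, ∑ m, ∑ k, (Γ m k j * P j l) • c k *ᵥ a m *ᵥ B l :=
          Finset.sum_comm.trans (Finset.sum_congr rfl fun _ _ => Finset.sum_comm)
      _ = ∑ j, ∑ l, ∑ k, ∑ m, (Γ m k j * P j l) • c k *ᵥ a m *ᵥ B l :=
          Finset.sum_comm.trans (Finset.sum_congr rfl fun _ _ => Finset.sum_congr rfl fun _ _ =>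
            Finset.sum_comm)
      _ = _ := by simp only [hΓ _ _ _, mul_comm]
  · simp only [Finset.sum_ite_irrel, Finset.sum_const_zero, Finset.sum_ite_eq, Finset.mem_univ,
      if_true]
    calc _ = ∑ l, ∑ j, ∑ m, (Γ m m j * P j l) • B l :=
          Finset.sum_comm.trans (Finset.sum_congr rfl fun _ _ => Finset.sum_comm)
      _ = ∑ j, ∑ l, ∑ m, (Γ m m j * P j l) • B l := Finset.sum_comm
      _ = _ := Finset.sum_congr rfl fun j _ => Finset.sum_congr rfl fun l _ =>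
          Finset.sum_congr rfl fun m _ => by rw [hΓ m m j, mul_comm]

theorem weitz (h : ∀ m k v, a m *ᵥ c k *ᵥ v = (if m = k then v else 0) - c k *ᵥ a m *ᵥ v)
    (P : ι → ι → ℂ) (Γ : ι → ι → ι → ℂ) (hΓ : ∀ m k j, Γ m k j = Γ j k m) (f : ι → ℂ)
    (θ : ι → ι → ℂ) (W : σ → ℂ) (B : ι → σ → ℂ) (S : ι → ι → σ → ℂ) :
    (∑ m, a m *ᵥ (∑ l, ∑ k, ((-∑ j, Γ m k j * P j l) • c k *ᵥ B l + P k l • c k *ᵥ S m l)) -
      ∑ m, (f m - ∑ j, Γ m j j) • a m *ᵥ (∑ l, ∑ k, P k l • c k *ᵥ B l)) +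
      ∑ l, ∑ k, P k l • c k *ᵥ (∑ m, a m *ᵥ S m l -
        ∑ m, (θ l m • a m *ᵥ W + (f m - ∑ j, Γ m j j) • a m *ᵥ B l)) =
      ∑ k, ∑ l, P k l • (S k l - f k • B l + (∑ i, ∑ j, Γ k i j • (c i * a j)) *ᵥ B l) -
        ∑ m, ∑ l, θ l m • (∑ k, P k l • c k) *ᵥ a m *ᵥ W := by
  have e1 := anti h P S
  have e2 := anti h P fun m l => (f m - ∑ j, Γ m j j) • B l
  have e3 := conn h P Γ hΓ B
  have e4 : ∑ l, ∑ k, P k l • c k *ᵥ (∑ m, θ l m • a m *ᵥ W) =
      ∑ m, ∑ l, θ l m • (∑ k, P k l • c k) *ᵥ a m *ᵥ W := by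
    simp only [Matrix.mulVec_sum, Matrix.mulVec_smul, Matrix.sum_mulVec, Matrix.smul_mulVec,
      Finset.smul_sum, smul_smul, mul_comm]
    exact (Finset.sum_congr rfl fun _ _ => Finset.sum_comm).trans Finset.sum_comm
  have e5 : ∀ m, a m *ᵥ (∑ l, ∑ k, P k l • c k *ᵥ (f m - ∑ j, Γ m j j) • B l) =
      (f m - ∑ j, Γ m j j) • a m *ᵥ (∑ l, ∑ k, P k l • c k *ᵥ B l) := fun m => by
    simp only [Matrix.mulVec_sum, Matrix.mulVec_smul, Finset.smul_sum, smul_smul, mul_comm]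
  simp only [e5] at e2
  simp only [Matrix.mulVec_smul] at e2
  simp only [Finset.sum_add_distrib, Matrix.mulVec_add, Matrix.mulVec_sub, smul_sub, smul_add,
    Finset.sum_sub_distrib, e3, e4]
  simp only [sub_smul (f _) _ (B _), smul_sub, Finset.sum_sub_distrib] at e2
  rw [← e1]
  linear_combination (exp := 1) -e2

end alg

variable {n : ℕ} {σ : Type} [Fintype σ] {z : E n} {U V : E n → σ → ℂ} {f : E n → ℂ}

theorem cp (h : ContDiffAt ℝ ∞ U z) (i : σ) : ContDiffAt ℝ ∞ (fun w => U w i) z :=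
  contDiffAt_pi.1 h i

theorem sm_dzv (h : ContDiffAt ℝ ∞ U z) (k : Fin n) : ContDiffAt ℝ ∞ (dzv k U) z :=
  contDiffAt_pi.2 fun i => cd_dz (cp h i) k

theorem sm_dzbv (h : ContDiffAt ℝ ∞ U z) (k : Fin n) : ContDiffAt ℝ ∞ (dzbv k U) z :=
  contDiffAt_pi.2 fun i => cd_dzb (cp h i) k

theorem sm_mv {A : E n → Mx σ} (hA : ∀ i j, ContDiffAt ℝ ∞ (fun w => A w i j) z)
    (h : ContDiffAt ℝ ∞ U z) : ContDiffAt ℝ ∞ (fun w => A w *ᵥ U w) z :=
  contDiffAt_pi.2 fun i => ContDiffAt.sum fun j _ => (hA i j).mul (cp h j)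

theorem sm_cv (C : Mx σ) (h : ContDiffAt ℝ ∞ U z) : ContDiffAt ℝ ∞ (fun w => C *ᵥ U w) z :=
  sm_mv (fun _ _ => contDiffAt_const) h

theorem sm_sm (hf : ContDiffAt ℝ ∞ f z) (C : Mx σ) (h : ContDiffAt ℝ ∞ U z) :
    ContDiffAt ℝ ∞ (fun w => f w • C *ᵥ U w) z := hf.smul (sm_cv C h)

theorem dzv_mv {A : E n → Mx σ} (hA : ∀ i j, ContDiffAt ℝ ∞ (fun w => A w i j) z)
    (h : ContDiffAt ℝ ∞ U z) (k : Fin n) : dzv k (fun w => A w *ᵥ U w) z =
      (Matrix.of fun i j => dz k (fun w => A w i j) z) *ᵥ U z + A z *ᵥ dzv k U z := by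
  funext i
  refine (dz_sum fun j _ => cd_diff ((hA i j).mul (cp h j))).trans ?_
  simp only [dz_mul (cd_diff (hA i _)) (cd_diff (cp h _)), Finset.sum_add_distrib]
  rfl

theorem dzbv_mv {A : E n → Mx σ} (hA : ∀ i j, ContDiffAt ℝ ∞ (fun w => A w i j) z)
    (h : ContDiffAt ℝ ∞ U z) (k : Fin n) : dzbv k (fun w => A w *ᵥ U w) z =
      (Matrix.of fun i j => dzb k (fun w => A w i j) z) *ᵥ U z + A z *ᵥ dzbv k U z := by
  funext i
  refine (dzb_sum fun j _ => cd_diff ((hA i j).mul (cp h j))).trans ?_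
  simp only [dzb_mul (cd_diff (hA i _)) (cd_diff (cp h _)), Finset.sum_add_distrib]
  rfl

omit [Fintype σ] in
theorem of_zero : (Matrix.of fun _ _ => (0 : ℂ) : Mx σ) = 0 := rfl

theorem dzv_sm (hf : ContDiffAt ℝ ∞ f z) (C : Mx σ) (h : ContDiffAt ℝ ∞ U z) (k : Fin n) :
    dzv k (fun w => f w • C *ᵥ U w) z = dz k f z • C *ᵥ U z + f z • C *ᵥ dzv k U z := by
  have := dzv_mv (A := fun _ => C) (fun _ _ => contDiffAt_const) h k
  simp only [dz_const, of_zero, Matrix.zero_mulVec, zero_add] at this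
  funext i
  rw [← this]
  exact dz_mul (cd_diff hf) (cd_diff (cp (sm_cv C h) i))

theorem dzbv_cv (C : Mx σ) (h : ContDiffAt ℝ ∞ U z) (k : Fin n) :
    dzbv k (fun w => C *ᵥ U w) z = C *ᵥ dzbv k U z := by
  simpa only [dzb_const, of_zero, Matrix.zero_mulVec, zero_add] using
    dzbv_mv (A := fun _ => C) (fun _ _ => contDiffAt_const) h k

theorem dzbv_sm (hf : ContDiffAt ℝ ∞ f z) (C : Mx σ) (h : ContDiffAt ℝ ∞ U z) (k : Fin n) :
    dzbv k (fun w => f w • C *ᵥ U w) z = dzb k f z • C *ᵥ U z + f z • C *ᵥ dzbv k U z := by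
  funext i
  rw [← dzbv_cv C h]
  exact dzb_mul (cd_diff hf) (cd_diff (cp (sm_cv C h) i))

theorem dzv_sum {κ : Type} [Fintype κ] {U : κ → E n → σ → ℂ} (h : ∀ a, ContDiffAt ℝ ∞ (U a) z)
    (k : Fin n) : dzv k (fun w => ∑ a, U a w) z = ∑ a, dzv k (U a) z := by
  funext i
  simp only [dzv, Finset.sum_apply]
  exact dz_sum fun a _ => cd_diff (cp (h a) i)

theorem dzbv_sum {κ : Type} [Fintype κ] {U : κ → E n → σ → ℂ} (h : ∀ a, ContDiffAt ℝ ∞ (U a) z)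
    (k : Fin n) : dzbv k (fun w => ∑ a, U a w) z = ∑ a, dzbv k (U a) z := by
  funext i
  simp only [dzbv, Finset.sum_apply]
  exact dzb_sum fun a _ => cd_diff (cp (h a) i)

theorem dzbv_sub (h : ContDiffAt ℝ ∞ U z) (h' : ContDiffAt ℝ ∞ V z) (k : Fin n) :
    dzbv k (fun w => U w - V w) z = dzbv k U z - dzbv k V z :=
  funext fun i => dzb_sub (cd_diff (cp h i)) (cd_diff (cp h' i))

theorem comm (h : ContDiffAt ℝ ∞ U z) (m l : Fin n) :
    dzbv l (dzv m U) z = dzv m (dzbv l U) z := funext fun i => (dz_dzb (cp h i) m l).symm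

theorem dz_dot (h : ContDiffAt ℝ ∞ U z) (h' : ContDiffAt ℝ ∞ V z) (k : Fin n) :
    dz k (fun w => star (U w) ⬝ᵥ V w) z = star (dzbv k U z) ⬝ᵥ V z + star (U z) ⬝ᵥ dzv k V z := by
  refine (dz_sum fun j _ => cd_diff ((cd_star (cp h j)).mul (cp h' j))).trans ?_
  simp only [dz_mul (cd_diff (cd_star (cp h _))) (cd_diff (cp h' _)), Finset.sum_add_distrib,
    dz_star (cd_diff (cp h _))]
  rfl

theorem sm_dot (h : ContDiffAt ℝ ∞ U z) (h' : ContDiffAt ℝ ∞ V z) :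
    ContDiffAt ℝ ∞ (fun w => star (U w) ⬝ᵥ V w) z :=
  ContDiffAt.sum fun j _ => (cd_star (cp h j)).mul (cp h' j)

variable {M : Mf n} {H : M.Fam (Mat n)} {L : M.Co} {φ : M.Fam ℝ} {W : M.Fam (Fs n → ℂ)}
  {e : M.Ch}

theorem apQ (W : M.Fam (Fs n → ℂ)) (e : M.Ch) : (oQ H).ap W e = fun w =>
    ∑ l, ∑ k, (H e w)⁻¹ k l • cr k *ᵥ dzbv l (W e) w := by
  funext w
  simp only [Op.ap, oQ, Matrix.zero_mulVec, zero_add, add_zero, Matrix.sum_mulVec,
    Matrix.smul_mulVec]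

theorem apP (W : M.Fam (Fs n → ℂ)) (e : M.Ch) : (oP H φ).ap W e = fun w =>
    ∑ m, an m *ᵥ dzv m (W e) w - ∑ m, dz m (fun y => (phC M H φ e y : ℂ)) w • an m *ᵥ W e w := by
  funext w
  simp only [Op.ap, oP, Matrix.zero_mulVec, add_zero, Matrix.sum_mulVec, Matrix.neg_mulVec,
    Matrix.smul_mulVec, sub_eq_add_neg]

theorem car (h1 : St_FK1) (m k : Fin n) (v : Fs n → ℂ) :
    an m *ᵥ cr k *ᵥ v = (if m = k then v else 0) - cr k *ᵥ an m *ᵥ v := by
  rw [eq_sub_iff_add_eq, Matrix.mulVec_mulVec, Matrix.mulVec_mulVec, ← Matrix.add_mulVec,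
    ((h1 n).1 m k).2.2]
  split_ifs
  · exact Matrix.one_mulVec v
  · exact Matrix.zero_mulVec v

theorem dz_phC (hH : M.Met H) (hφ : M.WtC L φ) (he : e ∈ M.C) (hz : z ∈ e.target) (m : Fin n) :
    dz m (fun y => (phC M H φ e y : ℂ)) z =
      dz m (fun y => (φ e y : ℂ)) z - dz m (ld (H e)) z := by
  rw [← dz_sub (cd_diff (cd_ofReal (hφ.sm e he z hz))) (cd_diff (met_loc hH he hz).smooth_ld)]
  simp only [phC, ld, ofReal_sub]

theorem hess_phC (hH : M.Met H) (hφ : M.WtC L φ) (he : e ∈ M.C) (hz : z ∈ e.target) (l m : Fin n) :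
    dzb l (dz m fun y => (phC M H φ e y : ℂ)) z = (M.hw φ + M.ric H) e z l m := by
  have := congrFun (congrFun (hess_sub (cd_ofReal (hφ.sm e he z hz))
    (met_loc hH he hz).smooth_ld) l) m
  simp only [phC, ofReal_sub, Pi.add_apply, Mf.hw, Mf.ric, ← sub_eq_add_neg]
  exact this

/-- The rough Laplacian. -/
def rl (H : M.Fam (Mat n)) (φ : M.Fam ℝ) (W : M.Fam (Fs n → ℂ)) (e : M.Ch) (z : E n) : Fs n → ℂ :=
  ∑ k, ∑ l, (H e z)⁻¹ k l • (dzv k (dzbv l (W e)) z -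
    dz k (fun y => (φ e y : ℂ)) z • dzbv l (W e) z + dL (gam (H e) k z) *ᵥ dzbv l (W e) z)

theorem pq (h1 : St_FK1) (hH : M.Kae H) (hφ : M.WtC L φ) (he : e ∈ M.C) (hz : z ∈ e.target)
    (hW : ContDiffAt ℝ ∞ (W e) z) :
    (oP H φ).ap ((oQ H).ap W) e z + (oQ H).ap ((oP H φ).ap W) e z = rl H φ W e z -
      ∑ m, ∑ l, (M.hw φ + M.ric H) e z l m • (∑ k, (H e z)⁻¹ k l • cr k) *ᵥ an m *ᵥ W e z := by
  have lH := met_loc hH.toMet he hz
  have kH := clo_kl hH.toClo he hz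
  have hi : ∀ k l, ContDiffAt ℝ ∞ (fun w => (H e w)⁻¹ k l) z := lH.smM_inv
  have hp := fun m => cd_dz (cd_ofReal (phC_sm hH.toMet hφ he hz)) m
  have d1 : ∀ m k l, dz m (fun w => (H e w)⁻¹ k l) z =
      -∑ j, gam (H e) m z k j * (H e z)⁻¹ j l := fun m k l =>
    congrFun (congrFun (lH.dM_inv m) k) l
  have d2 : ∀ m, dz m (fun y => (phC M H φ e y : ℂ)) z =
      dz m (fun y => (φ e y : ℂ)) z - ∑ j, gam (H e) m z j j := fun m => by
    rw [dz_phC hH.toMet hφ he hz, lH.dz_ld]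
    rfl
  have d3 : ∀ m, dzv m ((oQ H).ap W e) z = ∑ l, ∑ k,
      ((-∑ j, gam (H e) m z k j * (H e z)⁻¹ j l) • cr k *ᵥ dzbv l (W e) z +
        (H e z)⁻¹ k l • cr k *ᵥ dzv m (dzbv l (W e)) z) := fun m => by
    rw [apQ, dzv_sum fun l => ContDiffAt.sum fun k _ => sm_sm (hi k l) _ (sm_dzbv hW l)]
    refine Finset.sum_congr rfl fun l _ => ?_
    rw [dzv_sum fun k => sm_sm (hi k l) _ (sm_dzbv hW l)]
    exact Finset.sum_congr rfl fun k _ => by rw [dzv_sm (hi k l) _ (sm_dzbv hW l), d1]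
  have d4 : ∀ l, dzbv l ((oP H φ).ap W e) z = ∑ m, an m *ᵥ dzv m (dzbv l (W e)) z -
      ∑ m, ((M.hw φ + M.ric H) e z l m • an m *ᵥ W e z +
        (dz m (fun y => (φ e y : ℂ)) z - ∑ j, gam (H e) m z j j) • an m *ᵥ dzbv l (W e) z) :=
    fun l => by
    rw [apP, dzbv_sub (ContDiffAt.sum fun m _ => sm_cv _ (sm_dzv hW m))
      (ContDiffAt.sum fun m _ => sm_sm (hp m) _ hW),
      dzbv_sum fun m => sm_cv _ (sm_dzv hW m), dzbv_sum fun m => sm_sm (hp m) _ hW]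
    simp only [dzbv_cv _ (sm_dzv hW _), comm hW, dzbv_sm (hp _) _ hW,
      hess_phC hH.toMet hφ he hz, d2]
  rw [apP, apQ ((oP H φ).ap W)]
  simp only [d3, d4, d2]
  rw [apQ]
  exact weitz (car h1) _ (fun m k j => gam (H e) m z k j) (fun m k j => Loc.gam_symm kH k j m)
    _ _ _ _ _

theorem g_cr (h2 : St_FK2) (hH : M.Met H) (he : e ∈ M.C) (hz : z ∈ e.target) (l : Fin n) :
    (lam H L φ).G e z * ∑ k, (H e z)⁻¹ k l • cr k = cr l * (lam H L φ).G e z := by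
  have hu := (hH.det_ne e he z hz).isUnit
  have e1 : ∀ i, ∑ k, (H e z)⁻¹ k l * H e z i k = if i = l then 1 else 0 := fun i => by
    rw [← Matrix.one_apply, ← Matrix.mul_nonsing_inv _ hu, Matrix.mul_apply]
    simp only [mul_comm]
  have e2 : La (H e z) * ∑ k, (H e z)⁻¹ k l • cr k = cr l * La (H e z) := by
    simp only [Matrix.mul_smul, Matrix.mul_sum, ((h2 n).2 _).2.2.2.1, Finset.smul_sum]
    rw [Finset.sum_comm]
    simp only [smul_smul, ← Finset.sum_smul, e1, ite_smul, one_smul, zero_smul, Finset.sum_ite_eq',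
      Finset.mem_univ, if_true]
  simp only [lam, Matrix.smul_mul, e2]
  rw [Matrix.mul_smul]

theorem dz_G (h3 : St_FK3) (hH : M.Met H) (hφ : M.WtC L φ) (he : e ∈ M.C) (hz : z ∈ e.target)
    (k : Fin n) : (Matrix.of fun i j => dz k (fun w => (lam H L φ).G e w i j) z) =
      (lam H L φ).G e z * dL (gam (H e) k z) -
        dz k (fun y => (φ e y : ℂ)) z • (lam H L φ).G e z := by
  obtain ⟨a, b⟩ := (h3 n (H e) z).2 (hH.sm e he z hz)
  have p := hφ.sm e he z hz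
  have c : dz k (fun w => ((Real.exp (-φ e w) : ℝ) : ℂ)) z =
      ((-Real.exp (-φ e z) : ℝ) : ℂ) * dz k (fun y => (φ e y : ℂ)) z :=
    dz_comp_real (φ := fun s => Real.exp (-s))
      (by simpa using (hasDerivAt_neg (φ e z)).exp) (cd_diff p)
  ext i j
  simp only [lam, Matrix.of_apply, Matrix.smul_apply, smul_eq_mul, Matrix.sub_apply,
    Matrix.smul_mul]
  rw [dz_mul (cd_diff (cd_ofReal p.neg.exp)) (cd_diff (a i j)), c,
    (b (hH.det_ne e he z hz) k i j).1, ofReal_neg, gam]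
  ring

/-- The vector field. -/
def vf (H : M.Fam (Mat n)) (b : Bun M σ) (W : M.Fam (σ → ℂ)) : M.Fam (E n) := fun e z =>
  (H e z)⁻¹ *ᵥ fun l => star (W e z) ⬝ᵥ b.G e z *ᵥ dzbv l (W e) z

theorem vec [DecidableEq σ] {b : Bun M σ} {W : M.Fam (σ → ℂ)} (hH : M.Met H) (hb : b.Ok)
    (hl : b.Hl) (hW : b.Sec W) : M.Vec (vf H b W) := by
  refine ⟨fun e he z hz => (met_loc hH he hz).smM_inv.mulVec (contDiffAt_pi.2 fun l =>
    sm_dot (hW.sm e he z hz) (sm_mv (hb.gsm e he z hz) (sm_dzbv (hW.sm e he z hz) l))),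
    fun e he e' he' x hx hx' => ?_⟩
  obtain ⟨hN, hJ, -, hev, -⟩ := (mTR n M).2.1 e he e' he' x hx hx'
  have hψ : (e ∘ e'.symm) (e' x) = e x := by simp [e'.left_inv hx']
  have z1 := e.map_source hx
  have z2 := e'.map_source hx'
  have s1 := hW.sm e he _ z1
  have a1 : ∀ l, b.T e e' x *ᵥ dzbv l (W e') (e' x) =
      ∑ a, star (M.J e e' x a l) • dzbv a (W e) (e x) := fun l => by
    have t1 := dzbv_mv (hb.tsm e he e' he' x hx hx') (hW.sm e' he' _ z2) l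
    simp only [HS.SIUK.dzb_hol (hl e he e' he' x hx hx' _ _).self_of_nhds, of_zero,
      Matrix.zero_mulVec, zero_add, e'.left_inv hx'] at t1
    rw [← t1]
    funext i
    have t2 := ((mCHN n _ _ hN).2.2.2.2.2.2.2.2.2.1 (fun w => W e w i)
      (hψ ▸ cd_diff (cp s1 i)) l).2
    rw [hψ] at t2
    simp only [Finset.sum_apply, Pi.smul_apply, smul_eq_mul, mul_comm (star _)]
    refine Eq.trans (dzb_congr ?_) t2
    filter_upwards [hev] with y hy
    have := hW.cmp e he e' he' _ hy.2.1 hy.2.2.1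
    beta_reduce at this
    rw [hy.2.2.2.2.2.1] at this
    exact (congrFun this i).symm
  have a2 : (fun l => star (W e' (e' x)) ⬝ᵥ b.G e' (e' x) *ᵥ dzbv l (W e') (e' x)) =
      (M.J e e' x)ᴴ *ᵥ fun l => star (W e (e x)) ⬝ᵥ b.G e (e x) *ᵥ dzbv l (W e) (e x) := by
    funext l
    rw [hb.cmp e he e' he' x hx hx', ← Matrix.mulVec_mulVec, ← Matrix.mulVec_mulVec,
      Matrix.dotProduct_mulVec, ← Matrix.star_mulVec, ← hW.cmp e he e' he' x hx hx', a1,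
      Matrix.mulVec_sum, dotProduct_sum]
    simp only [Matrix.mulVec_smul, dotProduct_smul, smul_eq_mul]
    rfl
  have hu : IsUnit (M.J e e' x).det := hJ.isUnit
  have hu' : IsUnit (M.J e e' x)ᴴ.det := by
    rw [Matrix.det_conjTranspose]
    exact hu.star
  simp only [vf]
  rw [a2, hH.cmp e he e' he' x hx hx', Matrix.mulVec_mulVec, Matrix.mulVec_mulVec,
    Matrix.mul_inv_rev, Matrix.mul_inv_rev, Matrix.mul_nonsing_inv_cancel_left _ _ hu,
    Matrix.nonsing_inv_mul_cancel_right _ _ hu']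

theorem dv_vf (h3 : St_FK3) (hH : M.Kae H) (hφ : M.WtC L φ) (hb : (lam H L φ).Ok) (he : e ∈ M.C)
    (hz : z ∈ e.target) (hW : ContDiffAt ℝ ∞ (W e) z) :
    dv (fun w => (H e w).det • vf H (lam H L φ) W e w) z / (H e z).det =
      ∑ k, ∑ l, (H e z)⁻¹ k l * (star (dzbv k (W e) z) ⬝ᵥ (lam H L φ).G e z *ᵥ dzbv l (W e) z) +
        star (W e z) ⬝ᵥ (lam H L φ).G e z *ᵥ rl H φ W e z := by
  have lH := met_loc hH.toMet he hz
  have hi : ∀ k l, ContDiffAt ℝ ∞ (fun w => (H e w).det * (H e w)⁻¹ k l) z :=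
    fun k l => lH.sm.det.mul (lH.smM_inv k l)
  have hg := hb.gsm e he z hz
  have hα := fun l => sm_dot hW (sm_mv hg (sm_dzbv hW l))
  have e1 : ∀ k, dz k (fun w => ((H e w).det • vf H (lam H L φ) W e w) k) z = ∑ l,
      (dz k (fun w => (H e w).det * (H e w)⁻¹ k l) z *
        (star (W e z) ⬝ᵥ (lam H L φ).G e z *ᵥ dzbv l (W e) z) + (H e z).det * (H e z)⁻¹ k l *
        dz k (fun w => star (W e w) ⬝ᵥ (lam H L φ).G e w *ᵥ dzbv l (W e) w) z) := fun k => by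
    simp only [← dz_mul (cd_diff (hi k _)) (cd_diff (hα _))]
    rw [← dz_sum fun l _ => cd_diff ((hi k l).mul (hα l))]
    simp only [mul_assoc, ← Finset.mul_sum]
    rfl
  rw [div_eq_iff lH.det_ne, dv]
  simp only [e1, Finset.sum_add_distrib]
  rw [Finset.sum_comm]
  simp only [← Finset.sum_mul, lH.div_cof (clo_kl hH.toClo he hz), zero_mul,
    Finset.sum_const_zero, zero_add, dz_dot hW (sm_mv hg (sm_dzbv hW _)),
    dzv_mv hg (sm_dzbv hW _), dz_G h3 hH.toMet hφ he hz, rl, Matrix.mulVec_sum, dotProduct_sum,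
    Matrix.mulVec_smul, dotProduct_smul, smul_eq_mul, Matrix.mulVec_add, Matrix.mulVec_sub,
    dotProduct_add, dotProduct_sub, Matrix.sub_mulVec, Matrix.smul_mulVec,
    ← Matrix.mulVec_mulVec, ← Finset.sum_add_distrib]
  simp only [Finset.sum_mul]
  refine Finset.sum_congr rfl fun k _ => Finset.sum_congr rfl fun l _ => ?_
  ring

end BOC

open BOC in
theorem st_BOC (hFK1 : St_FK1) (hFK2 : St_FK2) (hFK3 : St_FK3) (hLAM : St_LAM) (hSQ : St_SQ)
    (hSP : St_SP) (hADJ : St_ADJ) (hGB : St_GB) (hCU : St_CU) : St_BOC := by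
  intro n M hM H L φ W hH hφ hW
  obtain ⟨ok, hl, -⟩ := hLAM n M H L φ hH.toMet hφ
  have hi := (mMU n M H hH.toMet).2.2.2.2.1
  have hQ := (hSQ n M H L φ W hH.toMet hW).1
  have hP := hSP n M H L φ W hH.toMet hφ hW
  have hPQ := hSP n M H L φ _ hH.toMet hφ hQ
  have hQP := (hSQ n M H L φ _ hH.toMet hP).1
  have ii : ∀ {U V}, (lam H L φ).Sec U → (lam H L φ).Sec V →
      Integrable ((lam H L φ).pp U V) (M.mu H) := fun h h' => hi _ _ (ok.pp_rep h h').2.continuous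
  have re_ip : ∀ {U V}, (lam H L φ).Sec U → (lam H L φ).Sec V →
      ((lam H L φ).ip H U V).re = ∫ x, ((lam H L φ).pp U V x).re ∂M.mu H :=
    fun h h' => (integral_re (ii h h')).symm
  have n1 : (lam H L φ).nr H ((oQ H).ap W) =
      -∫ x, ((lam H L φ).pp W ((oP H φ).ap ((oQ H).ap W)) x).re ∂M.mu H := by
    rw [← re_ip hW hPQ, ← neg_re, ← hADJ n M H L φ _ _ hH hφ hW hQ, re_ip hQ hQ]
    rfl
  have n2 : (lam H L φ).nr H ((oP H φ).ap W) =
      -∫ x, ((lam H L φ).pp W ((oQ H).ap ((oP H φ).ap W)) x).re ∂M.mu H := by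
    have a := congrArg Complex.re (hADJ n M H L φ _ _ hH hφ hP hW)
    rw [neg_re, re_ip hP hP, re_ip hQP hW] at a
    have b : ∀ x, ((lam H L φ).pp W ((oQ H).ap ((oP H φ).ap W)) x).re =
        ((lam H L φ).pp ((oQ H).ap ((oP H φ).ap W)) W x).re := fun x => by
      rw [← Pre.pp_star (g := ⟨H, lam H L φ, hH.toMet, ok⟩)]
      exact conj_re _
    simp only [b, a, neg_neg]
    rfl
  have hθ : M.Ten (M.hw φ + M.ric H) :=
    hφ.clo.toTen.add ((mHES n M).2.2.2.2.2.2.2.2.1 H hH.toMet).toTen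
  obtain ⟨g1, g2, -⟩ := (hGB n M _ H _ hH.toMet ok hl).1 W hW
  obtain ⟨c1, c2, -⟩ := hCU n M H _ L φ W hH.toMet hθ hφ hW
  obtain ⟨-, d1, d2⟩ := (mDIV n M H hH.toMet).2.1 _
    ((mDIV n M H hH.toMet).1 _ (vec hH.toMet ok hl hW))
  have d3 := congrArg Complex.re (d2 hM)
  rw [zero_re] at d3
  have d4 := (integral_re (hi _ _ d1.continuous)).trans d3
  have j1 := (ii hW hPQ).re
  have j2 := (ii hW hQP).re
  have j3 := hi _ _ g2
  have j4 := hi _ _ c2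
  have key : ∫ x, (((lam H L φ).pp W ((oP H φ).ap ((oQ H).ap W)) x).re +
      ((lam H L φ).pp W ((oQ H).ap ((oP H φ).ap W)) x).re +
      (gb H (lam H L φ) W x + cu (M.hw φ + M.ric H) (lam H L φ) W x)) ∂M.mu H = 0 := by
    rw [← d4]
    refine integral_congr_ae (Eventually.of_forall fun x => ?_)
    have he := Mf.ch_mem x
    have hz := Mf.ch_tgt x
    have hs := hW.sm _ he _ hz
    have a := dv_vf hFK3 hH hφ ok he hz hs
    have b := congrArg (fun v => star (W (M.ch x) (M.ch x x)) ⬝ᵥ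
      (lam H L φ).G (M.ch x) (M.ch x x) *ᵥ v) (pq hFK1 hH hφ he hz hs)
    simp only [Matrix.mulVec_add, dotProduct_add, Matrix.mulVec_sub, dotProduct_sub,
      Matrix.mulVec_sum, dotProduct_sum, Matrix.mulVec_smul, dotProduct_smul, smul_eq_mul] at b
    have c : ∀ l (v : Fs n → ℂ), star (W (M.ch x) (M.ch x x)) ⬝ᵥ
        (lam H L φ).G (M.ch x) (M.ch x x) *ᵥ (∑ k, (H (M.ch x) (M.ch x x))⁻¹ k l • cr k) *ᵥ v =
        star (an l *ᵥ W (M.ch x) (M.ch x x)) ⬝ᵥ (lam H L φ).G (M.ch x) (M.ch x x) *ᵥ v :=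
      fun l v => by
      rw [Matrix.mulVec_mulVec, g_cr hFK2 hH.toMet he hz, ← Matrix.mulVec_mulVec,
        Matrix.dotProduct_mulVec, Matrix.star_mulVec, an, Matrix.conjTranspose_conjTranspose]
    simp only [c] at b
    simp only [Bun.pp, gb, cu, Mf.ev, RCLike.re_to_complex]
    rw [a, ← add_re, b, add_re, sub_re]
    ring
  have k2 := (integral_add (j1.add j2) (j3.add j4)).symm.trans key
  have k3 := integral_add j1 j2
  have k4 := integral_add j3 j4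
  simp only [Pi.add_apply, RCLike.re_to_complex] at k2 k3
  rw [n1, n2]
  linarith

end Pool.Agent.Lib.HLK
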