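import Pool.Agent.Lib.HLK.Blue

/-! Project hlk: the theorem. -/

open scoped Classical Topology ContDiff ComplexOrder Matrix ENNReal
open Set MeasureTheory Complex Metric Filter

noncomputable section

namespace Pool.Agent.Lib.HLK

open Pool.Agent.Lib.SV (E)
open Pool.Agent.Lib.HS32 Pool.Agent.Lib.KP
open Pool.Agent.Lib.EXH (aw)

theorem st_HL (hLAM : St_LAM) (hSKW : St_SKW) (hGB : St_GB) (hCU : St_CU) (hBOC : St_BOC)
    (hSOB : St_SOB) (hVL : St_VL) (hONE : St_ONE) : St_HL := by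
  intro n M _ H L φ C hn hH hφ hw hA
  have hm := hH.toMet
  obtain ⟨o0, l0, a0⟩ := hLAM n M H L φ hm hφ
  have it := (mMU n M H hm).2.2.2.2.1 ℝ
  let g : Geo M (Fs n) := ⟨H, lam H L φ, hm, o0⟩
  have fθ := hφ.clo.toForm.add ((mHES n M).2.2.2.2.2.2.2.2.1 H hm).toForm
  obtain ⟨K, K0, -, hK⟩ := (mBD n M H hm).1 _ fθ
  obtain ⟨S, S0, hS⟩ := hSOB n M _ H _ hn hm o0 l0
  have gbd : ∀ W, (lam H L φ).Sec W → (lam H L φ).nr H W = 1 →
      (lam H L φ).nr H ((oD H φ).ap W) ≤ 1 → ∫ x, gb H (lam H L φ) W x ∂M.mu H ≤ 1 + K * n :=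
    fun W hW h1 h2 => by
    obtain ⟨-, cc, cl⟩ := hCU n M H _ L φ W hm fθ.toTen hφ hW
    have cl' := cl K K0.le fun e he z hz => by
      have := hK e he z hz
      simp only [Pi.add_apply, Pi.neg_apply, Pi.zero_apply, sub_neg_eq_add, sub_zero] at this ⊢
      exact this
    have m1 : -(K * n * (lam H L φ).nr H W) ≤
        ∫ x, cu (M.hw φ + M.ric H) (lam H L φ) W x ∂M.mu H := by
      rw [Bun.nr, ← integral_const_mul, ← integral_neg]
      exact integral_mono ((Pre.itg (g := g) (Pre.mk W hW) (Pre.mk W hW)).re.const_mul _).neg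
        (it _ cc) cl'
    have := hBOC n M H L φ W hH hφ hW
    rw [← ((hSKW n M H L φ hH hφ).2.2 W hW).2.2] at this
    rw [h1] at m1
    linarith
  set A := S * C ^ (1 / (2 * n : ℝ)) * (2 + K * n) with hA'
  have step : ∀ j : ℕ, ∃ W, (lam H L φ).Sec W ∧ 1 / 4 ≤ (lam H L φ).nr H W ∧
      (lam H L φ).nr H W ≤ 2 * A + 2 ∧
      ∫ x, gb H (lam H L φ) W x ∂M.mu H ≤ 1 / ((j : ℝ) + 1) * ((n + 1) * (2 * A + 2)) := fun j => by
    obtain ⟨ε, hε, w, w1, w2, w3, w4⟩ := hw (1 / ((j : ℝ) + 1)) (by positivity)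
    obtain ⟨B, -, hB⟩ := w1.neg.exp.exists_bound
    obtain ⟨W, c1, c2, c3, c4⟩ := hONE n M H L φ A ε w hH hφ hε.1 w1 w2 w3 fun η hη => by
      obtain ⟨W, d1, d2, d3⟩ := hA (min η 1) (lt_min hη one_pos)
      refine ⟨W, d1, d2, d3.trans (min_le_left _ _), ?_⟩
      have s := hS W (fun x => Real.exp (-w x)) B d1 w1.neg.exp.continuous.measurable
        fun x => ⟨(Real.exp_pos _).le, (le_abs_self _).trans (hB x)⟩
      have e1 : ∀ x, Real.exp (-w x) ^ (2 * n) = Real.exp (-(2 * n * w x)) := fun x => by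
        rw [← Real.exp_nat_mul]
        exact congrArg _ (by push_cast; ring)
      simp only [e1] at s
      have p := (hGB n M _ H _ hm o0 l0).1 W d1
      have b := gbd W d1 d2 (d3.trans (min_le_right _ _))
      have p0 : 0 ≤ ∫ x, gb H (lam H L φ) W x ∂M.mu H := integral_nonneg p.2.2.1
      have i0 : 0 ≤ ∫ x, Real.exp (-(2 * n * w x)) ∂M.mu H :=
        integral_nonneg fun x => (Real.exp_pos _).le
      rw [Bun.nr]
      simp only [fun x => ((a0 w).2 W W x).2.1, mul_comm ((lam H L φ).pn W _)]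
      refine s.trans (mul_le_mul (mul_le_mul_of_nonneg_left
        (Real.rpow_le_rpow i0 w4 (by positivity)) S0) (by linarith) (by linarith) ?_)
      exact mul_nonneg S0 (Real.rpow_nonneg (i0.trans w4) _)
    refine ⟨W, c1, c2, c3, c4.trans ?_⟩
    rw [mul_assoc]
    exact mul_le_mul_of_nonneg_right hε.2 (mul_nonneg (by positivity) (by linarith))
  choose W s1 s2 s3 s4 using step
  have A0 : 0 ≤ 2 * A + 2 := by linarith [s2 0, s3 0]
  have n0 : (0 : ℝ) ≤ n := n.cast_nonneg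
  obtain ⟨V, v1, v2, v3⟩ := hVL n M _ H _ (hyperfilter ℕ) W ((n + 1) * (2 * A + 2)) hn hm o0 l0
    (fun j => ⟨s1 j, (s3 j).trans (by nlinarith), (s4 j).trans (mul_le_of_le_one_left
      (by positivity) (by rw [div_le_one (by positivity)]; linarith [j.cast_nonneg (α := ℝ)]))⟩)
    (by
      refine (squeeze_zero (fun j => integral_nonneg ((hGB n M _ H _ hm o0 l0).1 _ (s1 j)).2.2.1)
        s4 ?_).mono_left Nat.hyperfilter_le_atTop
      simpa using (tendsto_one_div_add_atTop_nhds_zero_nat (𝕜 := ℝ)).mul_const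
        ((n + 1) * (2 * A + 2)))
  refine ⟨V, v1, v2, by_contra fun h => ?_⟩
  have z : M.All fun e z => V e z = 0 := fun e he z hz => by_contra fun c => h ⟨e, he, z, hz, c⟩
  have e : ∀ j, (lam H L φ).nr H (W j - V) = (lam H L φ).nr H (W j) := fun j => by
    have k : M.All fun e z => (W j - V) e z = W j e z := fun e he y hy => by
      beta_reduce
      rw [Pi.sub_apply, Pi.sub_apply, z e he y hy, sub_zero]
    unfold Bun.nr Bun.pn
    rw [show (lam H L φ).pp (W j - V) (W j - V) = _ from Pre.pp_congr (g := g) k k]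
  simp only [e] at v3
  have := ge_of_tendsto' v3 s2
  norm_num at this

end Pool.Agent.Lib.HLK
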