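import Pool.Agent.Lib.HLK.Blue
import Pool.Agent.Lib.ZK.Blue

/-! Project hlk: the theorem for a nef class with mild singularities. -/

open scoped Classical Topology ContDiff ComplexOrder Matrix ENNReal
open Set MeasureTheory Complex Metric Filter

noncomputable section

namespace Pool.Agent.Lib.HLK

open Pool.Agent.Lib.SV (E)
open Pool.Agent.Lib.HS32 Pool.Agent.Lib.KP

/-- The hard Lefschetz theorem for the multiples of a nef class. -/
def St_HZ : Prop := ∀ (n : ℕ) (M : Mf n) [M.Cpt] (H θ : M.Fam (Mat n)) (L : M.Co) (φ : M.Fam ℝ)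
  (c : ℝ), 0 < n → M.Kae H → M.Clo θ → ZK.Nef M H θ → ZK.Klt M H θ → M.WtC L φ → 0 < c →
  (M.All fun e z => M.hw φ e z + M.ric H e z = c • θ e z) → Ah H L φ →
  ∃ V, (lam H L φ).Sec V ∧ Hol V ∧ Nz V

theorem st_HZ (hHL : St_HL) (hZ : ZK.St_ZK) : St_HZ := by
  intro n M _ H θ L φ c hn hH hθ hN hK hφ hc he hA
  obtain ⟨a, a1, -, a3⟩ := hZ n M H θ hn hH hθ hN hK
  obtain ⟨e₀, h0, C, hC⟩ := a3 (2 * n * c) (by positivity)
  refine hHL n M H L φ C hn hH hφ (fun δ hδ => ?_) hA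
  have p : 0 < min e₀ (δ / c) := lt_min h0.1 (div_pos hδ hc)
  have q := a1 _ ⟨p, (min_le_left _ _).trans h0.2⟩
  refine ⟨c * min e₀ (δ / c), ⟨mul_pos hc p, ?_⟩, fun x => c * a (min e₀ (δ / c)) x,
    q.sm.const_mul c, fun x => mul_nonpos_of_nonneg_of_nonpos hc.le (q.np x),
    fun e h z hz => ?_, ?_⟩
  · rw [← le_div_iff₀' hc]
    exact min_le_right _ _
  · have r := Mf.psd_rsmul (q.kae.pos e h z hz).posSemidef hc.le
    have s := ((mLAP n M _ _ q.sm q.sm).1 c e h z hz).2.2.2.1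
    simp only [Pi.add_apply, Pi.smul_apply, Pi.zero_apply, sub_zero, he e h z hz, s, smul_add,
      smul_smul] at r ⊢
    rwa [add_right_comm]
  · simpa only [mul_assoc] using hC _ ⟨p, min_le_left _ _⟩

end Pool.Agent.Lib.HLK
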