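import Pool.Agent.Lib.HLK.All0
import Pool.Agent.Lib.HLK.B_BOC
import Pool.Agent.Lib.HLK.B_ONE
import Pool.Agent.Lib.HLK.B_HL
import Pool.Agent.Lib.HLK.B_HZ

/-! Project hlk: assembly. -/

namespace Pool.Agent.Lib.HLK

theorem aBOC : St_BOC := st_BOC aFK1 aFK2 aFK3 aLAM aSQ aSP aADJ aGB aCU
theorem aONE : St_ONE := st_ONE aLAM aSQ aSP aADJ aSKW aGB aCU aBOC aWS aDNS aNEAR
theorem aHL : St_HL := st_HL aLAM aSKW aGB aCU aBOC aSOB aVL aONE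
theorem aHZ (hZ : ZK.St_ZK) : St_HZ := st_HZ aHL hZ

end Pool.Agent.Lib.HLK
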