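import Pool.Agent.Lib.EXH.Blue

/-! Project hlk: the Fock space, Hermitian bundles, first order operators, the space of smooth
sections. -/

open scoped Classical Topology ContDiff ComplexOrder Matrix ENNReal
open Set MeasureTheory Complex Metric Filter

set_option linter.unusedVariables false

noncomputable section

namespace Pool.Agent.Lib.HLK

open Pool.Agent.Lib.SV (E)
open Pool.Agent.Lib.HS32 Pool.Agent.Lib.KP
open Pool.Agent.Lib.KP.T60 (phC)

/-! ### The Fock space -/

/-- The index set of the exterior algebra. -/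
abbrev Fs (n : ℕ) : Type := Finset (Fin n)

/-- Square matrices. -/
abbrev Mx (σ : Type) : Type := Matrix σ σ ℂ

/-- The creation operator. -/
def cr {n : ℕ} (k : Fin n) : Mx (Fs n) := Matrix.of fun A B =>
  if k ∉ B ∧ A = insert k B then (-1) ^ (B.filter (· < k)).card else 0

/-- The annihilation operator. -/
def an {n : ℕ} (k : Fin n) : Mx (Fs n) := (cr k)ᴴ

/-- The matrix of the minors. -/
def La {n : ℕ} (g : Mat n) : Mx (Fs n) := Matrix.of fun A B =>
  if h : B.card = A.card then (g.submatrix (A.orderEmbOfFin rfl) (B.orderEmbOfFin h)).det else 0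

/-- The derivation attached to a matrix. -/
def dL {n : ℕ} (a : Mat n) : Mx (Fs n) := ∑ i, ∑ j, a i j • (cr i * an j)

/-! ### Bundles -/

variable {n : ℕ} {σ : Type} [Fintype σ] [DecidableEq σ]

/-- All entries are smooth. -/
def SmX (T : E n → Mx σ) (z : E n) : Prop := ∀ i j, ContDiffAt ℝ ∞ (fun w => T w i j) z

/-- Componentwise derivative in `z_k`. -/
def dzv (k : Fin n) (W : E n → σ → ℂ) (z : E n) : σ → ℂ := fun i => dz k (fun w => W w i) z

/-- Componentwise derivative in the conjugate of `z_k`. -/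
def dzbv (k : Fin n) (W : E n → σ → ℂ) (z : E n) : σ → ℂ := fun i => dzb k (fun w => W w i) z

/-- Transition matrices and a metric. -/
structure Bun (M : Mf n) (σ : Type) where
  T : M.Ch → M.Ch → M.X → Mx σ
  G : M.Fam (Mx σ)

/-- The coefficients of a first order operator. -/
structure Op (M : Mf n) (σ : Type) where
  A : Fin n → M.Fam (Mx σ)
  B : Fin n → M.Fam (Mx σ)
  C : M.Fam (Mx σ)

variable {M : Mf n}

/-- A smooth Hermitian bundle. -/
structure Bun.Ok (b : Bun M σ) : Prop where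
  tsm : M.Ov fun e e' x => SmX (fun w => b.T e e' (e'.symm w)) (e' x)
  one : ∀ e ∈ M.C, ∀ x ∈ e.source, b.T e e x = 1
  mul : M.Ov fun e e' x => ∀ e'' ∈ M.C, x ∈ e''.source → b.T e e'' x = b.T e e' x * b.T e' e'' x
  gsm : M.All fun e z => SmX (b.G e) z
  pos : M.All fun e z => (b.G e z).PosDef
  cmp : M.Ov fun e e' x => b.G e' (e' x) = (b.T e e' x)ᴴ * b.G e (e x) * b.T e e' x

/-- Smooth sections. -/
structure Bun.Sec (b : Bun M σ) (W : M.Fam (σ → ℂ)) : Prop where
  sm : M.All fun e z => ContDiffAt ℝ ∞ (W e) z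
  cmp : M.Ov fun e e' x => W e (e x) = b.T e e' x *ᵥ W e' (e' x)

/-- The components are holomorphic. -/
def Hol (W : M.Fam (σ → ℂ)) : Prop := M.All fun e z => ∀ i, HolN (fun w => W e w i) z

/-- The family does not vanish identically. -/
def Nz (W : M.Fam (σ → ℂ)) : Prop := ∃ e ∈ M.C, ∃ z ∈ e.target, W e z ≠ 0

/-- The pointwise product, antilinear in the first variable. -/
def Bun.pp (b : Bun M σ) (W W' : M.Fam (σ → ℂ)) (x : M.X) : ℂ :=
  star (M.ev W x) ⬝ᵥ M.ev b.G x *ᵥ M.ev W' x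

/-- The pointwise squared norm. -/
def Bun.pn (b : Bun M σ) (W : M.Fam (σ → ℂ)) (x : M.X) : ℝ := (b.pp W W x).re

/-- The global product. -/
def Bun.ip (b : Bun M σ) (H : M.Fam (Mat n)) (W W' : M.Fam (σ → ℂ)) : ℂ :=
  ∫ x, b.pp W W' x ∂M.mu H

/-- The global squared norm. -/
def Bun.nr (b : Bun M σ) (H : M.Fam (Mat n)) (W : M.Fam (σ → ℂ)) : ℝ := ∫ x, b.pn W x ∂M.mu H

/-- The action of an operator. -/
def Op.ap (D : Op M σ) (W : M.Fam (σ → ℂ)) : M.Fam (σ → ℂ) := fun e z =>
  ∑ k, (D.A k e z *ᵥ dzv k (W e) z + D.B k e z *ᵥ dzbv k (W e) z) + D.C e z *ᵥ W e z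

/-- The principal symbol at the covector `ξ`. -/
def Op.sy (D : Op M σ) (e : M.Ch) (z ξ : E n) : Mx σ :=
  ∑ k, (ξ k • D.A k e z + star (ξ k) • D.B k e z)

/-- A skew operator with smooth coefficients. -/
structure Op.Skew (D : Op M σ) (b : Bun M σ) (H : M.Fam (Mat n)) : Prop where
  sm : M.All fun e z => (∀ k, SmX (D.A k e) z ∧ SmX (D.B k e) z) ∧ SmX (D.C e) z
  sec : ∀ W, b.Sec W → b.Sec (D.ap W)
  skew : ∀ W W', b.Sec W → b.Sec W' → b.ip H (D.ap W) W' = -b.ip H W (D.ap W')

/-- The symbol is of Dirac type. -/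
def Op.Dir (D : Op M σ) (b : Bun M σ) (H : M.Fam (Mat n)) : Prop := M.All fun e z => ∀ ξ : E n,
  (D.sy e z ξ)ᴴ * b.G e z * D.sy e z ξ = (star ξ ⬝ᵥ (H e z)⁻¹ᵀ *ᵥ ξ) • b.G e z

/-- The submodule of the smooth sections. -/
def Bun.secs (b : Bun M σ) : Submodule ℂ (M.Fam (σ → ℂ)) where
  carrier := {W | b.Sec W}
  add_mem' h h' := ⟨fun e he z hz => (h.sm e he z hz).add (h'.sm e he z hz),
    fun e he e' he' x hx hx' => by
      simp only [Pi.add_apply, Matrix.mulVec_add, ← h.cmp e he e' he' x hx hx',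
        ← h'.cmp e he e' he' x hx hx']⟩
  zero_mem' := ⟨fun _ _ _ _ => contDiffAt_const, fun _ _ _ _ _ _ _ => by simp⟩
  smul_mem' c W h := ⟨fun e he z hz => (h.sm e he z hz).const_smul c,
    fun e he e' he' x hx hx' => by
      simp only [Pi.smul_apply, Matrix.mulVec_smul, ← h.cmp e he e' he' x hx hx']⟩

theorem Bun.Ok.pp_rep {b : Bun M σ} (hb : b.Ok) {W W' : M.Fam (σ → ℂ)} (h : b.Sec W)
    (h' : b.Sec W') : M.Rep (b.pp W W') (fun e z => star (W e z) ⬝ᵥ b.G e z *ᵥ W' e z) ∧
      M.Sm (b.pp W W') := by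
  have i : M.Inv fun e z => star (W e z) ⬝ᵥ b.G e z *ᵥ W' e z := fun e he e' he' x hx hx' => by
    beta_reduce
    rw [hb.cmp e he e' he' x hx hx', h.cmp e he e' he' x hx hx', h'.cmp e he e' he' x hx hx',
      ← Matrix.mulVec_mulVec, ← Matrix.mulVec_mulVec, Matrix.dotProduct_mulVec,
      ← Matrix.star_mulVec]
  refine ⟨i.rep, i.sm fun e he z hz => ?_⟩
  simp only [dotProduct, Matrix.mulVec, Pi.star_apply]
  exact ContDiffAt.sum fun i _ => (cd_star (contDiffAt_pi.1 (h.sm e he z hz) i)).mul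
    (ContDiffAt.sum fun j _ => (hb.gsm e he z hz i j).mul (contDiffAt_pi.1 (h'.sm e he z hz) j))

/-- A metric on the manifold and a Hermitian bundle. -/
structure Geo (M : Mf n) (σ : Type) [Fintype σ] [DecidableEq σ] where
  H : M.Fam (Mat n)
  b : Bun M σ
  met : M.Met H
  ok : b.Ok

/-- The smooth sections, as a space with a semi-definite product. -/
def Pre (g : Geo M σ) : Type := ↥g.b.secs

namespace Pre

variable {g : Geo M σ}

instance : AddCommGroup (Pre g) := inferInstanceAs (AddCommGroup ↥g.b.secs)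

instance : Module ℂ (Pre g) := inferInstanceAs (Module ℂ ↥g.b.secs)

/-- The underlying family. -/
def val (u : Pre g) : M.Fam (σ → ℂ) := (show ↥g.b.secs from u).1

/-- The element given by a section. -/
def mk (W : M.Fam (σ → ℂ)) (h : g.b.Sec W) : Pre g := (⟨W, h⟩ : ↥g.b.secs)

theorem sec (u : Pre g) : g.b.Sec u.val := (show ↥g.b.secs from u).2

@[simp] theorem val_mk (W : M.Fam (σ → ℂ)) (h : g.b.Sec W) : (mk W h).val = W := rfl

@[simp] theorem val_add (u v : Pre g) : (u + v).val = u.val + v.val := rfl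

@[simp] theorem val_sub (u v : Pre g) : (u - v).val = u.val - v.val := rfl

@[simp] theorem val_neg (u : Pre g) : (-u).val = -u.val := rfl

@[simp] theorem val_zero : (0 : Pre g).val = 0 := rfl

@[simp] theorem val_smul (c : ℂ) (u : Pre g) : (c • u).val = c • u.val := rfl

theorem ext {u v : Pre g} (h : u.val = v.val) : u = v := Subtype.ext h

theorem itg [M.Cpt] (u v : Pre g) : Integrable (g.b.pp u.val v.val) (M.mu g.H) :=
  (mMU n M g.H g.met).2.2.2.2.1 _ _ (g.ok.pp_rep u.sec v.sec).2.continuous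

theorem pp_star (W W' : M.Fam (σ → ℂ)) (x : M.X) : star (g.b.pp W' W x) = g.b.pp W W' x := by
  have h : (M.ev g.b.G x).IsHermitian := (g.ok.pos.ch x).1
  rw [Bun.pp, Bun.pp, Matrix.dotProduct_mulVec, ← h.eq, ← Matrix.star_mulVec, h.eq,
    Matrix.star_dotProduct, star_star]

theorem pn_nonneg (W : M.Fam (σ → ℂ)) (x : M.X) : 0 ≤ g.b.pn W x :=
  (Complex.le_def.1 ((g.ok.pos.ch x).posSemidef.dotProduct_mulVec_nonneg _)).1

/-- The product. -/
@[instance_reducible] def core [M.Cpt] (g : Geo M σ) : PreInnerProductSpace.Core ℂ (Pre g) where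
  inner u v := g.b.ip g.H u.val v.val
  conj_inner_symm u v := by
    rw [Bun.ip, Bun.ip, ← integral_conj]
    exact integral_congr_ae (Eventually.of_forall fun x => pp_star _ _ x)
  re_inner_nonneg u := by
    rw [Bun.ip, ← integral_re (itg u u)]
    exact integral_nonneg fun x => pn_nonneg _ x
  add_left u v w := by
    rw [Bun.ip, Bun.ip, Bun.ip, ← integral_add (itg u w) (itg v w)]
    refine integral_congr_ae (Eventually.of_forall fun x => ?_)
    simp only [Bun.pp, Mf.ev, val_add, Pi.add_apply, star_add, add_dotProduct]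
  smul_left u v c := by
    rw [Bun.ip, Bun.ip, ← integral_const_mul]
    refine integral_congr_ae (Eventually.of_forall fun x => ?_)
    simp only [Bun.pp, Mf.ev, val_smul, Pi.smul_apply, star_smul, smul_dotProduct, smul_eq_mul,
      RCLike.star_def]

instance [M.Cpt] : SeminormedAddCommGroup (Pre g) :=
  @InnerProductSpace.Core.toSeminormedAddCommGroup ℂ (Pre g) _ _ _ (core g)

instance [M.Cpt] : InnerProductSpace ℂ (Pre g) := InnerProductSpace.ofCore (core g)

theorem inner_def [M.Cpt] (u v : Pre g) : inner ℂ u v = g.b.ip g.H u.val v.val := rfl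

theorem norm_sq [M.Cpt] (u : Pre g) : ‖u‖ ^ 2 = g.b.nr g.H u.val := by
  rw [← inner_self_eq_norm_sq (𝕜 := ℂ), inner_def, Bun.ip, ← integral_re (itg u u)]
  rfl

theorem ap_add (D : Op M σ) {W W' : M.Fam (σ → ℂ)} (h : g.b.Sec W) (h' : g.b.Sec W') :
    M.All fun e z => D.ap (W + W') e z = D.ap W e z + D.ap W' e z := fun e he z hz => by
  have du := fun i => cd_diff (contDiffAt_pi.1 (h.sm e he z hz) i)
  have dv := fun i => cd_diff (contDiffAt_pi.1 (h'.sm e he z hz) i)
  have e1 : ∀ k, dzv k ((W + W') e) z = dzv k (W e) z + dzv k (W' e) z :=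
    fun k => funext fun i => dz_add (du i) (dv i)
  have e2 : ∀ k, dzbv k ((W + W') e) z = dzbv k (W e) z + dzbv k (W' e) z :=
    fun k => funext fun i => dzb_add (du i) (dv i)
  have e3 : (W + W') e z = W e z + W' e z := rfl
  simp only [Op.ap, e1, e2, e3, Matrix.mulVec_add, Finset.sum_add_distrib]
  abel

theorem ap_smul (D : Op M σ) (a : ℂ) {W : M.Fam (σ → ℂ)} (h : g.b.Sec W) :
    M.All fun e z => D.ap (a • W) e z = a • D.ap W e z := fun e he z hz => by
  have du := fun i => cd_diff (contDiffAt_pi.1 (h.sm e he z hz) i)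
  have e1 : ∀ k, dzv k ((a • W) e) z = a • dzv k (W e) z :=
    fun k => funext fun i => dz_const_mul a (du i)
  have e2 : ∀ k, dzbv k ((a • W) e) z = a • dzbv k (W e) z :=
    fun k => funext fun i => dzb_const_mul a (du i)
  have e3 : (a • W) e z = a • W e z := rfl
  simp only [Op.ap, e1, e2, e3, Matrix.mulVec_smul, smul_add, Finset.smul_sum]

/-- An operator that preserves the sections, as a linear map. -/
def op (D : Op M σ) (h : ∀ W, g.b.Sec W → g.b.Sec (D.ap W)) : Pre g →ₗ[ℂ] Pre g where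
  toFun u := mk (fun e z => if e ∈ M.C ∧ z ∈ e.target then D.ap u.val e z else 0)
    ⟨fun e he z hz => ((h _ u.sec).sm e he z hz).congr_of_eventuallyEq
      (by filter_upwards [e.open_target.mem_nhds hz] with w hw using if_pos ⟨he, hw⟩),
    fun e he e' he' x hx hx' => by
      beta_reduce
      rw [if_pos ⟨he, e.map_source hx⟩, if_pos ⟨he', e'.map_source hx'⟩]
      exact (h _ u.sec).cmp e he e' he' x hx hx'⟩
  map_add' u v := ext (funext fun e => funext fun z => by
    show (if e ∈ M.C ∧ z ∈ e.target then D.ap (u.val + v.val) e z else 0) =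
      (if e ∈ M.C ∧ z ∈ e.target then D.ap u.val e z else 0) +
        if e ∈ M.C ∧ z ∈ e.target then D.ap v.val e z else 0
    by_cases c : e ∈ M.C ∧ z ∈ e.target
    · simp only [if_pos c]
      exact ap_add D u.sec v.sec e c.1 z c.2
    · simp only [if_neg c, add_zero])
  map_smul' a u := ext (funext fun e => funext fun z => by
    show (if e ∈ M.C ∧ z ∈ e.target then D.ap (a • u.val) e z else 0) =
      a • if e ∈ M.C ∧ z ∈ e.target then D.ap u.val e z else 0
    by_cases c : e ∈ M.C ∧ z ∈ e.target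
    · simp only [if_pos c]
      exact ap_smul D a u.sec e c.1 z c.2
    · simp only [if_neg c, smul_zero])

theorem op_val {D : Op M σ} (h : ∀ W, g.b.Sec W → g.b.Sec (D.ap W)) (u : Pre g) :
    M.All fun e z => (op D h u).val e z = D.ap u.val e z := fun e he z hz => if_pos ⟨he, hz⟩

theorem pp_congr {U U' W W' : M.Fam (σ → ℂ)} (h : M.All fun e z => U e z = W e z)
    (h' : M.All fun e z => U' e z = W' e z) : g.b.pp U U' = g.b.pp W W' := by
  funext x
  rw [Bun.pp, Bun.pp, Mf.ev_congr h, Mf.ev_congr h']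

theorem op_skew [M.Cpt] {D : Op M σ} (h : D.Skew g.b g.H) (u v : Pre g) :
    inner ℂ (op D h.sec u) v = -inner ℂ u (op D h.sec v) := by
  rw [inner_def, inner_def, Bun.ip, Bun.ip, pp_congr (op_val h.sec u) fun _ _ _ _ => rfl,
    pp_congr (fun _ _ _ _ => rfl) (op_val h.sec v)]
  exact h.skew _ _ u.sec v.sec

end Pre

/-- The space of the square integrable sections. -/
abbrev L2 [M.Cpt] (g : Geo M σ) : Type := UniformSpace.Completion (Pre g)

/-! ### Multivectors with values in a line bundle -/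

/-- The bundle of the multivectors with values in `L`, all degrees. -/
def lam (H : M.Fam (Mat n)) (L : M.Co) (φ : M.Fam ℝ) : Bun M (Fs n) where
  T e e' x := (L.c e e' x)⁻¹ • La (M.J e e' x)
  G e z := ((Real.exp (-φ e z) : ℝ) : ℂ) • La (H e z)

/-- The operator that raises the degree. -/
def oQ (H : M.Fam (Mat n)) : Op M (Fs n) where
  A _ _ _ := 0
  B l e z := ∑ k, (H e z)⁻¹ k l • cr k
  C _ _ := 0

/-- The weighted divergence. -/
def oP (H : M.Fam (Mat n)) (φ : M.Fam ℝ) : Op M (Fs n) where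
  A k _ _ := an k
  B _ _ _ := 0
  C e z := -∑ k, dz k (fun w => (phC M H φ e w : ℂ)) z • an k

/-- The sum of the two operators. -/
def oD (H : M.Fam (Mat n)) (φ : M.Fam ℝ) : Op M (Fs n) where
  A k _ _ := an k
  B l e z := ∑ k, (H e z)⁻¹ k l • cr k
  C e z := -∑ k, dz k (fun w => (phC M H φ e w : ℂ)) z • an k

/-- The squared norm of the `(0,1)` derivative. -/
def gb (H : M.Fam (Mat n)) (b : Bun M σ) (W : M.Fam (σ → ℂ)) (x : M.X) : ℝ :=
  (M.ev (fun e z => ∑ k, ∑ l,
    (H e z)⁻¹ k l * (star (dzbv k (W e) z) ⬝ᵥ b.G e z *ᵥ dzbv l (W e) z)) x).re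

/-- The curvature term. -/
def cu (θ : M.Fam (Mat n)) (b : Bun M (Fs n)) (W : M.Fam (Fs n → ℂ)) (x : M.X) : ℝ :=
  (M.ev (fun e z => ∑ k, ∑ l,
    θ e z l k * (star (an l *ᵥ W e z) ⬝ᵥ b.G e z *ᵥ an k *ᵥ W e z)) x).re

/-- Homogeneous of degree `q`. -/
def Deg (q : ℕ) (W : M.Fam (Fs n → ℂ)) : Prop := ∀ e z A, A.card ≠ q → W e z A = 0

end Pool.Agent.Lib.HLK
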