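import Pool.Agent.Lib.HLK.Blue

/-! The adjoint of the operator that raises the degree. -/

open scoped Classical Topology ContDiff ComplexOrder Matrix
open Set MeasureTheory Complex Filter

noncomputable section

namespace Pool.Agent.Lib.HLK

open Pool.Agent.Lib.SV (E)
open Pool.Agent.Lib.HS32 Pool.Agent.Lib.KP
open Pool.Agent.Lib.KP.T60 (phC phC_sm exp_phC)

namespace ADJ

variable {n : ℕ} {σ : Type} [Fintype σ]

theorem sm_mv {K : E n → Mx σ} {U : E n → σ → ℂ} {z : E n}
    (hK : ∀ i j, ContDiffAt ℝ ∞ (fun w => K w i j) z) (hU : ContDiffAt ℝ ∞ U z) :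
    ContDiffAt ℝ ∞ (fun w => K w *ᵥ U w) z := contDiffAt_pi.2 fun i => by
  simp only [Matrix.mulVec, dotProduct]
  exact ContDiffAt.sum fun j _ => (hK i j).mul (contDiffAt_pi.1 hU j)

theorem dzv_mv {K : E n → Mx σ} {U : E n → σ → ℂ} {z : E n} (l : Fin n)
    (hK : ∀ i j, ContDiffAt ℝ ∞ (fun w => K w i j) z) (hU : ContDiffAt ℝ ∞ U z) :
    dzv l (fun w => K w *ᵥ U w) z =
      (Matrix.of fun i j => dz l (fun w => K w i j) z) *ᵥ U z + K z *ᵥ dzv l U z := by
  funext i
  simp only [dzv, Matrix.mulVec, dotProduct, Pi.add_apply, Matrix.of_apply]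
  rw [dz_sum fun j _ => cd_diff ((hK i j).mul (contDiffAt_pi.1 hU j)), ← Finset.sum_add_distrib]
  exact Finset.sum_congr rfl fun j _ => dz_mul (cd_diff (hK i j)) (cd_diff (contDiffAt_pi.1 hU j))

theorem sm_dot {W U : E n → σ → ℂ} {z : E n} (hW : ContDiffAt ℝ ∞ W z)
    (hU : ContDiffAt ℝ ∞ U z) : ContDiffAt ℝ ∞ (fun w => star (W w) ⬝ᵥ U w) z := by
  simp only [dotProduct, Pi.star_apply]
  exact ContDiffAt.sum fun i _ => (cd_star (contDiffAt_pi.1 hW i)).mul (contDiffAt_pi.1 hU i)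

theorem dz_dot {W U : E n → σ → ℂ} {z : E n} (l : Fin n) (hW : ContDiffAt ℝ ∞ W z)
    (hU : ContDiffAt ℝ ∞ U z) : dz l (fun w => star (W w) ⬝ᵥ U w) z =
      star (dzbv l W z) ⬝ᵥ U z + star (W z) ⬝ᵥ dzv l U z := by
  simp only [dotProduct, Pi.star_apply, dzv, dzbv]
  rw [dz_sum fun i _ => cd_diff ((cd_star (contDiffAt_pi.1 hW i)).mul (contDiffAt_pi.1 hU i)),
    ← Finset.sum_add_distrib]
  refine Finset.sum_congr rfl fun i _ => ?_
  rw [dz_mul (cd_diff (cd_star (contDiffAt_pi.1 hW i))) (cd_diff (contDiffAt_pi.1 hU i)),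
    dz_star (cd_diff (contDiffAt_pi.1 hW i))]

theorem sym_zero (hFK1 : St_FK1) {g : Fin n → Mat n} (h : ∀ i j l, g l i j = g j i l) :
    ∑ l, dL (g l) * an l = 0 := by
  have e : ∑ l, dL (g l) * an l = ∑ i, cr i * ∑ l, ∑ j, g l i j • (an j * an l) := by
    simp only [dL, Finset.sum_mul, Finset.mul_sum, Matrix.smul_mul, Matrix.mul_smul,
      Matrix.mul_assoc]
    exact Finset.sum_comm
  rw [e]
  refine Finset.sum_eq_zero fun i _ => ?_
  have e2 : (∑ l, ∑ j, g l i j • (an j * an l) : Mx (Fs n)) =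
      -∑ l, ∑ j, g l i j • (an j * an l) := by
    conv_lhs => rw [Finset.sum_comm]
    simp only [← Finset.sum_neg_distrib]
    refine Finset.sum_congr rfl fun l _ => Finset.sum_congr rfl fun j _ => ?_
    rw [h i l j, eq_neg_of_add_eq_zero_left ((hFK1 n).1 l j).2.1, smul_neg]
  have e3 : (2 : ℂ) • (∑ l, ∑ j, g l i j • (an j * an l) : Mx (Fs n)) = 0 := by
    rw [two_smul]
    exact add_eq_zero_iff_eq_neg.2 e2
  rw [(smul_eq_zero.1 e3).resolve_left two_ne_zero, Matrix.mul_zero]

theorem up (hFK2 : St_FK2) {H : Mat n} (h : H.PosDef) (l : Fin n) :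
    (∑ k, H⁻¹ k l • cr k)ᴴ * La H = La H * an l := by
  have hu : IsUnit H.det := (Mf.pd_det_ne h).isUnit
  have e : La H * ∑ k, H⁻¹ k l • cr k = cr l * La H := by
    simp only [Finset.mul_sum, Matrix.mul_smul, ((hFK2 n).2 H).2.2.2.1, Finset.smul_sum, smul_smul]
    rw [Finset.sum_comm]
    have : ∀ i, ∑ k, (H⁻¹ k l * H i k) • (cr i * La H) = (1 : Mat n) i l • (cr i * La H) :=
      fun i => by
        rw [← Finset.sum_smul, ← Matrix.mul_nonsing_inv H hu, Matrix.mul_apply]
        simp only [mul_comm]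
    simp only [this, Matrix.one_apply, ite_smul, one_smul, zero_smul, Finset.sum_ite_eq',
      Finset.mem_univ, if_true]
  have hh : (La H)ᴴ = La H := by rw [← ((hFK2 n).2 H).1, h.1.eq]
  have := congrArg Matrix.conjTranspose e
  rwa [Matrix.conjTranspose_mul, Matrix.conjTranspose_mul, hh] at this

end ADJ

open ADJ in
theorem st_ADJ (hFK1 : St_FK1) (hFK2 : St_FK2) (hFK3 : St_FK3) (hLAM : St_LAM) (hSQ : St_SQ)
    (hSP : St_SP) : St_ADJ := by
  intro n M _ H L φ W W' hH hw hW hW'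
  have hM := hH.toMet
  have ok := (hLAM n M H L φ hM hw).1
  have hQ := (hSQ n M H L φ W hM hW).1
  have hP := hSP n M H L φ W' hM hw hW'
  set V : M.Fam (E n) := fun e z l => star (W e z) ⬝ᵥ (lam H L φ).G e z *ᵥ an l *ᵥ W' e z with hV
  have hvec : M.Vec V := by
    refine ⟨fun e he z hz => contDiffAt_pi.2 fun l => sm_dot (hW.sm e he z hz)
      (sm_mv (ok.gsm e he z hz) (sm_mv (fun _ _ => contDiffAt_const) (hW'.sm e he z hz))),
      fun e he e' he' x hx hx' => funext fun l => ?_⟩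
    have hT : an l * (lam H L φ).T e e' x =
        ∑ j, M.J e e' x l j • ((lam H L φ).T e e' x * an j) := by
      simp only [lam, Matrix.mul_smul, Matrix.smul_mul, ((hFK2 n).2 _).2.2.2.2.1 l,
        Finset.smul_sum]
      exact Finset.sum_congr rfl fun j _ => smul_comm _ _ _
    simp only [hV]
    rw [hW.cmp e he e' he' x hx hx', hW'.cmp e he e' he' x hx hx', Matrix.mulVec_mulVec _ (an l),
      hT, Matrix.sum_mulVec, Matrix.mulVec_sum, dotProduct_sum, Matrix.mulVec, dotProduct]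
    refine Finset.sum_congr rfl fun j _ => ?_
    rw [ok.cmp e he e' he' x hx hx', Matrix.smul_mulVec, Matrix.mulVec_smul, dotProduct_smul,
      smul_eq_mul, Matrix.star_mulVec, ← Matrix.dotProduct_mulVec]
    simp only [Matrix.mulVec_mulVec, Matrix.mul_assoc]
  have hdiv := (((mDIV n M H hM).2.1 _ ((mDIV n M H hM).1 V hvec)).2.2 inferInstance)
  have key : M.All fun e z => dv (fun w => (H e w).det • V e w) z / (H e z).det =
      star ((oQ H).ap W e z) ⬝ᵥ (lam H L φ).G e z *ᵥ W' e z +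
        star (W e z) ⬝ᵥ (lam H L φ).G e z *ᵥ (oP H φ).ap W' e z := by
    intro e he z hz
    have hd := Mf.pd_det_ne (hM.pos e he z hz)
    have sW := hW.sm e he z hz
    have sW' := hW'.sm e he z hz
    have sψ := phC_sm hM hw he hz
    have sE : ContDiffAt ℝ ∞ (fun w => ((Real.exp (-phC M H φ e w) : ℝ) : ℂ)) z :=
      cd_ofReal sψ.neg.exp
    obtain ⟨sL, dLa⟩ := (hFK3 n (H e) z).2 (hM.sm e he z hz)
    have hex : ∀ w ∈ e.target, ((Real.exp (-phC M H φ e w) : ℝ) : ℂ) =
        (H e w).det * (Real.exp (-φ e w) : ℝ) := fun w hw' => by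
      rw [exp_phC hM he hw', ofReal_mul, Mf.herm_det (hM.herm e he w hw'), mul_comm]
    have hl : ∀ l, dz l (fun w => ((H e w).det • V e w) l) z = (H e z).det *
        (star (dzbv l (W e) z) ⬝ᵥ (lam H L φ).G e z *ᵥ an l *ᵥ W' e z +
          star (W e z) ⬝ᵥ (lam H L φ).G e z *ᵥ (an l *ᵥ dzv l (W' e) z -
            (dz l (fun w => (phC M H φ e w : ℂ)) z • an l) *ᵥ W' e z +
            (dL (gam (H e) l z) * an l) *ᵥ W' e z)) := fun l => by
      have sA : ContDiffAt ℝ ∞ (fun w => an l *ᵥ W' e w) z :=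
        sm_mv (fun _ _ => contDiffAt_const) sW'
      have ev : (fun w => ((H e w).det • V e w) l) =ᶠ[𝓝 z] fun w =>
          ((Real.exp (-phC M H φ e w) : ℝ) : ℂ) *
            (star (W e w) ⬝ᵥ La (H e w) *ᵥ an l *ᵥ W' e w) := by
        filter_upwards [e.open_target.mem_nhds hz] with w hw'
        simp only [hV, lam, Pi.smul_apply, smul_eq_mul, Matrix.smul_mulVec, dotProduct_smul,
          hex w hw', mul_assoc]
      have d1 : dz l (fun w => ((Real.exp (-phC M H φ e w) : ℝ) : ℂ)) z =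
          -(Real.exp (-phC M H φ e z) : ℝ) * dz l (fun w => (phC M H φ e w : ℂ)) z := by
        have := dz_comp_real (j := l) (φ := fun s => Real.exp (-s))
          (c := -Real.exp (-phC M H φ e z)) (u := phC M H φ e)
          (by simpa using (hasDerivAt_neg (phC M H φ e z)).exp) (sψ.differentiableAt (by simp))
        rw [this, ofReal_neg]
      have d2 : (Matrix.of fun i j => dz l (fun w => La (H e w) i j) z) =
          La (H e z) * dL (gam (H e) l z) := by
        ext i j
        exact (dLa hd l i j).1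
      have d3 : dzv l (fun w => an l *ᵥ W' e w) z = an l *ᵥ dzv l (W' e) z := by
        rw [dzv_mv (K := fun _ => an l) l (fun _ _ => contDiffAt_const) sW']
        simp only [dz_const]
        rw [show (Matrix.of fun _ _ => (0 : ℂ) : Mx (Fs n)) = 0 from rfl, Matrix.zero_mulVec,
          zero_add]
      rw [dz_congr ev, dz_mul (cd_diff sE) (cd_diff (sm_dot sW (sm_mv sL sA))), d1,
        dz_dot l sW (sm_mv sL sA), dzv_mv l sL sA, d2, d3, hex z hz]
      simp only [lam, Matrix.smul_mulVec, dotProduct_smul, smul_eq_mul, Matrix.mulVec_add,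
        Matrix.mulVec_sub, dotProduct_add, dotProduct_sub, Matrix.mulVec_smul,
        ← Matrix.mulVec_mulVec]
      ring
    have hz0 := sym_zero hFK1 (g := fun l => gam (H e) l z) fun i j l => by
      simp only [gam, Matrix.mul_apply]
      exact Finset.sum_congr rfl fun a _ => by rw [hH.cl e he z hz a j l]
    rw [dv, Finset.sum_congr rfl fun l _ => hl l, ← Finset.mul_sum, mul_div_cancel_left₀ _ hd,
      Finset.sum_add_distrib, ← dotProduct_sum, ← Matrix.mulVec_sum, Finset.sum_add_distrib,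
      ← Matrix.sum_mulVec, hz0, Matrix.zero_mulVec, add_zero, Finset.sum_sub_distrib,
      ← Matrix.sum_mulVec]
    refine congrArg₂ (· + ·) ?_ ?_
    · simp only [Op.ap, oQ, Matrix.zero_mulVec, zero_add, add_zero, star_sum,
        sum_dotProduct]
      refine Finset.sum_congr rfl fun l _ => ?_
      rw [Matrix.star_mulVec, ← Matrix.dotProduct_mulVec, Matrix.mulVec_mulVec,
        Matrix.mulVec_mulVec]
      simp only [lam, Matrix.mul_smul, Matrix.smul_mul, up hFK2 (hM.pos e he z hz) l]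
    · simp only [Op.ap, oP, Matrix.zero_mulVec, add_zero, Matrix.neg_mulVec,
        sub_eq_add_neg]
  have i1 := (mMU n M H hM).2.2.2.2.1 _ _ (ok.pp_rep hQ hW').2.continuous
  have i2 := (mMU n M H hM).2.2.2.2.1 _ _ (ok.pp_rep hW hP).2.continuous
  rw [Mf.ev_congr key] at hdiv
  rw [eq_neg_iff_add_eq_zero, Bun.ip, Bun.ip, ← integral_add i1 i2]
  exact hdiv

end Pool.Agent.Lib.HLK
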