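import Pool.Agent.Lib.HLK.Blue

/-! Project hlk, row SKW: the operator `D` is skew and of Dirac type. -/

open scoped Classical Topology ContDiff ComplexOrder Matrix
open Set MeasureTheory Complex Filter

set_option linter.unusedVariables false

noncomputable section

namespace Pool.Agent.Lib.HLK

open Pool.Agent.Lib.SV (E)
open Pool.Agent.Lib.HS32 Pool.Agent.Lib.KP
open Pool.Agent.Lib.KP.T60 (phC)

namespace SKW

variable {n : ℕ}

theorem anti (α β : Fin n → ℂ) (X Y : Fin n → Mx (Fs n)) :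
    (∑ i, α i • X i) * (∑ j, β j • Y j) + (∑ j, β j • Y j) * (∑ i, α i • X i) =
      ∑ i, ∑ j, (α i * β j) • (X i * Y j + Y j * X i) := by
  rw [Finset.sum_mul_sum, Finset.sum_mul_sum, Finset.sum_comm (f := fun j i => β j • Y j * α i • X i),
    ← Finset.sum_add_distrib]
  refine Finset.sum_congr rfl fun i _ => ?_
  rw [← Finset.sum_add_distrib]
  refine Finset.sum_congr rfl fun j _ => ?_
  rw [smul_mul_smul_comm, smul_mul_smul_comm, mul_comm (β j), smul_add]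

theorem sq_zero (α : Fin n → ℂ) (X : Fin n → Mx (Fs n)) (h : ∀ i j, X i * X j + X j * X i = 0) :
    (∑ i, α i • X i) * (∑ i, α i • X i) = 0 := by
  have h1 := anti α α X X
  simp only [h, smul_zero, Finset.sum_const_zero] at h1
  rw [← two_smul ℂ] at h1
  exact (smul_eq_zero.1 h1).resolve_left two_ne_zero

theorem dir (hFK1 : St_FK1) (hFK2 : St_FK2) {H : Mat n} (hH : H.PosDef) (c : ℂ) (ξ : E n) :
    (∑ k, (ξ k • an k + star (ξ k) • ∑ m, H⁻¹ m k • cr m))ᴴ * (c • La H) *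
      (∑ k, (ξ k • an k + star (ξ k) • ∑ m, H⁻¹ m k • cr m)) =
      (star ξ ⬝ᵥ H⁻¹ᵀ *ᵥ ξ) • c • La H := by
  obtain ⟨h1, -⟩ := hFK1 n
  obtain ⟨hct, -, -, hcr, -, -⟩ := (hFK2 n).2 H
  rw [hH.1.eq] at hct
  set η : Fin n → ℂ := H⁻¹ *ᵥ star ξ with hη
  have e1 : ∑ k, star (ξ k) • ∑ m, H⁻¹ m k • cr m = ∑ m, η m • cr m := by
    simp only [Finset.smul_sum, smul_smul]
    rw [Finset.sum_comm]
    refine Finset.sum_congr rfl fun m _ => ?_
    rw [← Finset.sum_smul]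
    simp only [hη, Matrix.mulVec, dotProduct, Pi.star_apply, mul_comm]
  have e2 : H *ᵥ η = star ξ := by
    rw [hη, Matrix.mulVec_mulVec, Matrix.mul_nonsing_inv _ (Mf.pd_det_ne hH).isUnit,
      Matrix.one_mulVec]
  rw [Finset.sum_add_distrib, e1]
  set a : Mx (Fs n) := ∑ k, ξ k • an k with ha
  set b : Mx (Fs n) := ∑ m, η m • cr m with hb
  have e3 : La H * b = aᴴ * La H := by
    simp only [ha, hb, Finset.mul_sum, Matrix.mul_smul, hcr, Finset.smul_sum, smul_smul,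
      Matrix.conjTranspose_sum, Matrix.conjTranspose_smul, an, Matrix.conjTranspose_conjTranspose,
      Finset.sum_mul, Matrix.smul_mul]
    rw [Finset.sum_comm]
    refine Finset.sum_congr rfl fun i _ => ?_
    rw [← Finset.sum_smul, ← Pi.star_apply, ← e2]
    simp only [Matrix.mulVec, dotProduct, mul_comm]
  have e4 : bᴴ * La H = La H * a := by
    have := congrArg Matrix.conjTranspose e3
    rwa [Matrix.conjTranspose_mul, Matrix.conjTranspose_mul, Matrix.conjTranspose_conjTranspose,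
      ← hct] at this
  have e5 : a * b + b * a = (star ξ ⬝ᵥ H⁻¹ᵀ *ᵥ ξ) • (1 : Mx (Fs n)) := by
    rw [ha, hb, anti]
    simp only [(h1 _ _).2.2, smul_ite, smul_zero, Finset.sum_ite_eq, Finset.mem_univ, if_true]
    rw [← Finset.sum_smul, Matrix.mulVec_transpose, dotProduct_comm, ← Matrix.dotProduct_mulVec]
    rfl
  have e6 : a * a = 0 := sq_zero _ _ fun i j => (h1 i j).2.1
  have e7 : b * b = 0 := sq_zero _ _ fun i j => (h1 i j).1
  have e8 : (a + b) * (a + b) = (star ξ ⬝ᵥ H⁻¹ᵀ *ᵥ ξ) • (1 : Mx (Fs n)) := by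
    rw [← e5, add_mul, mul_add, mul_add, e6, e7, zero_add, add_zero]
  rw [Matrix.mul_smul, Matrix.conjTranspose_add, add_mul, ← e3, e4, ← mul_add, add_comm b,
    Matrix.smul_mul, mul_assoc, e8, Matrix.mul_smul, mul_one, smul_comm]

variable {M : Mf n}

theorem ap_eq (H : M.Fam (Mat n)) (φ : M.Fam ℝ) (W : M.Fam (Fs n → ℂ)) :
    (oD H φ).ap W = (oQ H).ap W + (oP H φ).ap W := by
  funext e z
  simp only [Op.ap, oD, oQ, oP, Pi.add_apply, Matrix.zero_mulVec, zero_add, add_zero,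
    Finset.sum_add_distrib]
  abel

end SKW

theorem st_SKW (hFK1 : St_FK1) (hFK2 : St_FK2) (hFK3 : St_FK3) (hLAM : St_LAM) (hSQ : St_SQ)
    (hSP : St_SP) (hADJ : St_ADJ) : St_SKW := by
  intro n M _ H L φ hH hφ
  let g : Geo M (Fs n) := ⟨H, lam H L φ, hH.toMet, (hLAM n M H L φ hH.toMet hφ).1⟩
  have hQ : ∀ W, g.b.Sec W → g.b.Sec ((oQ H).ap W) := fun W h => (hSQ n M H L φ W hH.toMet h).1
  have hP : ∀ W, g.b.Sec W → g.b.Sec ((oP H φ).ap W) := fun W h =>
    hSP n M H L φ W hH.toMet hφ h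
  have hA : ∀ u v : Pre g, inner ℂ (Pre.mk _ (hQ _ u.sec)) v =
      -inner ℂ u (Pre.mk _ (hP _ v.sec)) := fun u v => hADJ n M H L φ _ _ hH hφ u.sec v.sec
  refine ⟨⟨fun e he z hz => ⟨fun k => ⟨fun i j => contDiffAt_const, fun i j => ?_⟩, fun i j => ?_⟩,
    fun W h => ?_, fun W W' h h' => ?_⟩, fun e he z hz ξ => ?_, fun W h => ⟨fun e z => ?_, ?_⟩⟩
  · simp only [oD, Matrix.sum_apply, Matrix.smul_apply, smul_eq_mul]
    exact ContDiffAt.sum fun m _ =>
      (((mCOF n _ z (hH.sm e he z hz)).2.2.2.2.1 (hH.toMet.det_ne e he z hz)).1 m k).mul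
        contDiffAt_const
  · simp only [oD, Matrix.neg_apply, Matrix.sum_apply, Matrix.smul_apply, smul_eq_mul]
    exact (ContDiffAt.sum fun m _ =>
      (cd_dz (cd_ofReal (T60.phC_sm hH.toMet hφ he hz)) m).mul contDiffAt_const).neg
  · rw [SKW.ap_eq]
    exact g.b.secs.add_mem (hQ W h) (hP W h)
  · have h1 := hA (Pre.mk W h) (Pre.mk W' h')
    have h2 := congrArg (starRingEnd ℂ) (hA (Pre.mk W' h') (Pre.mk W h))
    rw [map_neg, inner_conj_symm, inner_conj_symm] at h2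
    have h3 := inner_add_left (𝕜 := ℂ) (Pre.mk _ (hQ W h)) (Pre.mk _ (hP W h)) (Pre.mk W' h')
    have h4 := inner_add_right (𝕜 := ℂ) (Pre.mk W h) (Pre.mk _ (hQ W' h')) (Pre.mk _ (hP W' h'))
    simp only [Pre.inner_def, Pre.val_add, Pre.val_mk] at h1 h2 h3 h4
    rw [SKW.ap_eq, SKW.ap_eq]
    refine h3.trans (Eq.trans ?_ (congrArg Neg.neg h4).symm)
    rw [h1, h2]
    ring
  · exact SKW.dir hFK1 hFK2 (hH.pos e he z hz) _ ξ
  · rw [SKW.ap_eq]; rfl
  · have h0 : ∀ W', g.b.Sec W' → g.b.ip H ((oQ H).ap W) ((oP H φ).ap W') = 0 := fun W' h' => by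
      have h1 := hADJ n M H L φ _ _ hH hφ (hQ W h) h'
      have h2 : g.b.pp ((oQ H).ap ((oQ H).ap W)) W' = g.b.pp 0 W' :=
        Pre.pp_congr ((hSQ n M H L φ W hH.toMet h).2 hH) fun _ _ _ _ => rfl
      have h3 : g.b.ip H 0 W' = 0 := inner_zero_left (𝕜 := ℂ) (Pre.mk W' h')
      have h4 : g.b.ip H ((oQ H).ap ((oQ H).ap W)) W' = 0 := by
        rw [← h3, Bun.ip, Bun.ip, h2]
      exact neg_eq_zero.1 (h1.symm.trans h4)
    refine ⟨h0, ?_⟩
    have h1 := norm_add_sq_eq_norm_sq_add_norm_sq_of_inner_eq_zero (𝕜 := ℂ)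
      (Pre.mk _ (hQ W h)) (Pre.mk _ (hP W h)) (h0 W h)
    rw [← sq, ← sq, ← sq, Pre.norm_sq, Pre.norm_sq, Pre.norm_sq] at h1
    rw [SKW.ap_eq]
    exact h1

end Pool.Agent.Lib.HLK
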