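import Pool.Agent.Lib.HLK.Defs
import Pool.Agent.Lib.TH.Flat5

/-! Project hlk: the hard Lefschetz theorem for weights with small negative curvature.
Blueprint. -/

open scoped Classical Topology ContDiff ComplexOrder Matrix ENNReal
open Set MeasureTheory Complex Metric Filter

set_option linter.unusedVariables false

noncomputable section

namespace Pool.Agent.Lib.HLK

open Pool.Agent.Lib.SV (E)
open Pool.Agent.Lib.HS32 Pool.Agent.Lib.KP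
open Pool.Agent.Lib.EXH (aw)

/-- The transition matrices are holomorphic. -/
def Bun.Hl {n : ℕ} {σ : Type} {M : Mf n} (b : Bun M σ) : Prop :=
  M.Ov fun e e' x => ∀ i j, HolN (fun w => b.T e e' (e'.symm w) i j) (e' x)

/-- The real product. -/
instance realL2 {n : ℕ} {σ : Type} [Fintype σ] [DecidableEq σ] {M : Mf n} [M.Cpt] (g : Geo M σ) :
    InnerProductSpace ℝ (L2 g) := InnerProductSpace.rclikeToReal ℂ (L2 g)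

/-! ### The Fock space -/

/-- The anticommutation relations; the vacuum generates the space. -/
def St_FK1 : Prop := ∀ n : ℕ, (∀ i j : Fin n, cr i * cr j + cr j * cr i = 0 ∧
    an i * an j + an j * an i = 0 ∧ an i * cr j + cr j * an i = if i = j then 1 else 0) ∧
  ∀ (Y : Mx (Fs n)) (X : Fin n → Mx (Fs n)), (∀ k, Y * cr k = X k * Y) → (∀ A, Y A ∅ = 0) → Y = 0

/-- The matrix of the minors. -/
def St_FK2 : Prop := ∀ n : ℕ, La (1 : Mat n) = 1 ∧ ∀ g : Mat n, La gᴴ = (La g)ᴴ ∧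
  (∀ A, La g A ∅ = if A = ∅ then 1 else 0) ∧ (∀ h, La (g * h) = La g * La h) ∧
  (∀ k, La g * cr k = ∑ i, g i k • (cr i * La g)) ∧
  (∀ k, an k * La g = ∑ j, g k j • (La g * an j)) ∧ (g.PosDef → (La g).PosDef)

/-- The derivative of the matrix of the minors. -/
def St_FK3 : Prop := ∀ (n : ℕ) (T : E n → Mat n) (z : E n),
  ((∀ i j, HolN (fun w => T w i j) z) → ∀ A B, HolN (fun w => La (T w) A B) z) ∧
  (SmM T z → SmX (fun w => La (T w)) z ∧ ((T z).det ≠ 0 → ∀ k A B,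
    dz k (fun w => La (T w) A B) z = (La (T z) * dL ((T z)⁻¹ * dM k T z)) A B ∧
    dzb k (fun w => La (T w) A B) z = (La (T z) * dL ((T z)⁻¹ * dMb k T z)) A B))

/-! ### The bundle of the multivectors -/

/-- The bundle; change of the weight. -/
def St_LAM : Prop := ∀ (n : ℕ) (M : Mf n) (H : M.Fam (Mat n)) (L : M.Co) (φ : M.Fam ℝ),
  M.Met H → M.WtC L φ → (lam H L φ).Ok ∧ (lam H L φ).Hl ∧ ∀ w : M.X → ℝ,
    (M.Sm w → M.WtC L (aw M φ w) ∧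
      M.All fun e z => M.hw (aw M φ w) e z = M.hw φ e z + M.hs w e z) ∧
    ∀ W W' x, (lam H L (aw M φ w)).pp W W' x = (lam H L φ).pp W W' x * (Real.exp (-w x) : ℝ) ∧
      (lam H L (aw M φ w)).pn W x = (lam H L φ).pn W x * Real.exp (-w x) ∧
      gb H (lam H L (aw M φ w)) W x = gb H (lam H L φ) W x * Real.exp (-w x)

/-- The operator `Q` preserves the sections and has square zero. -/
def St_SQ : Prop := ∀ (n : ℕ) (M : Mf n) (H : M.Fam (Mat n)) (L : M.Co) (φ : M.Fam ℝ)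
  (W : M.Fam (Fs n → ℂ)), M.Met H → (lam H L φ).Sec W → (lam H L φ).Sec ((oQ H).ap W) ∧
  (M.Kae H → M.All fun e z => (oQ H).ap ((oQ H).ap W) e z = 0)

/-- The operator `P` preserves the sections. -/
def St_SP : Prop := ∀ (n : ℕ) (M : Mf n) (H : M.Fam (Mat n)) (L : M.Co) (φ : M.Fam ℝ)
  (W : M.Fam (Fs n → ℂ)), M.Met H → M.WtC L φ → (lam H L φ).Sec W →
  (lam H L φ).Sec ((oP H φ).ap W)

/-- The adjoint of `Q` is `-P`. -/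
def St_ADJ : Prop := ∀ (n : ℕ) (M : Mf n) [M.Cpt] (H : M.Fam (Mat n)) (L : M.Co) (φ : M.Fam ℝ)
  (W W' : M.Fam (Fs n → ℂ)), M.Kae H → M.WtC L φ → (lam H L φ).Sec W → (lam H L φ).Sec W' →
  (lam H L φ).ip H ((oQ H).ap W) W' = -(lam H L φ).ip H W ((oP H φ).ap W')

/-- The operator `D`. -/
def St_SKW : Prop := ∀ (n : ℕ) (M : Mf n) [M.Cpt] (H : M.Fam (Mat n)) (L : M.Co) (φ : M.Fam ℝ),
  M.Kae H → M.WtC L φ → (oD H φ).Skew (lam H L φ) H ∧ (oD H φ).Dir (lam H L φ) H ∧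
  ∀ W, (lam H L φ).Sec W → (∀ e z, (oD H φ).ap W e z = (oQ H).ap W e z + (oP H φ).ap W e z) ∧
    (∀ W', (lam H L φ).Sec W' → (lam H L φ).ip H ((oQ H).ap W) ((oP H φ).ap W') = 0) ∧
    (lam H L φ).nr H ((oD H φ).ap W) =
      (lam H L φ).nr H ((oQ H).ap W) + (lam H L φ).nr H ((oP H φ).ap W)

/-- The gradient term. -/
def St_GB : Prop := ∀ (n : ℕ) (M : Mf n) (σ : Type) [Fintype σ] [DecidableEq σ]
  (H : M.Fam (Mat n)) (b : Bun M σ), M.Met H → b.Ok → b.Hl →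
  (∀ W, b.Sec W → M.Rep (gb H b W) (fun e z => (∑ k, ∑ l,
      (H e z)⁻¹ k l * (star (dzbv k (W e) z) ⬝ᵥ b.G e z *ᵥ dzbv l (W e) z)).re) ∧
    Continuous (gb H b W) ∧ (∀ x, 0 ≤ gb H b W x) ∧
    ∀ V, b.Sec V → Hol V → gb H b (W - V) = gb H b W) ∧
  ∀ e ∈ M.C, ∃ c : E n → ℝ, ∀ z ∈ e.target, ContinuousAt c z ∧ 0 < c z ∧ ∀ W, b.Sec W →
    (∀ i, ‖W e z i‖ ^ 2 ≤ c z * b.pn W (e.symm z)) ∧
    (∀ k i, ‖dzbv k (W e) z i‖ ^ 2 ≤ c z * gb H b W (e.symm z)) ∧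
    b.pn W (e.symm z) ≤ c z * ∑ i, ‖W e z i‖ ^ 2

/-- The curvature term. -/
def St_CU : Prop := ∀ (n : ℕ) (M : Mf n) (H θ : M.Fam (Mat n)) (L : M.Co) (φ : M.Fam ℝ)
  (W : M.Fam (Fs n → ℂ)), M.Met H → M.Ten θ → M.WtC L φ → (lam H L φ).Sec W →
  M.Rep (cu θ (lam H L φ) W) (fun e z => (∑ k, ∑ l,
    θ e z l k * (star (an l *ᵥ W e z) ⬝ᵥ (lam H L φ).G e z *ᵥ an k *ᵥ W e z)).re) ∧
  Continuous (cu θ (lam H L φ) W) ∧ ∀ ε : ℝ, 0 ≤ ε → M.Le 0 (θ + ε • H) →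
    ∀ x, -(ε * n * (lam H L φ).pn W x) ≤ cu θ (lam H L φ) W x

/-- The identity of Bochner, Kodaira and Nakano. -/
def St_BOC : Prop := ∀ (n : ℕ) (M : Mf n) [M.Cpt] (H : M.Fam (Mat n)) (L : M.Co) (φ : M.Fam ℝ)
  (W : M.Fam (Fs n → ℂ)), M.Kae H → M.WtC L φ → (lam H L φ).Sec W →
  (lam H L φ).nr H ((oQ H).ap W) + (lam H L φ).nr H ((oP H φ).ap W) =
    ∫ x, gb H (lam H L φ) W x ∂M.mu H + ∫ x, cu (M.hw φ + M.ric H) (lam H L φ) W x ∂M.mu H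

/-! ### Analysis on a bundle -/

/-- A local smooth factorisation. -/
def St_GAU : Prop := ∀ (n : ℕ) (σ : Type) [Fintype σ] [DecidableEq σ] (G : E n → Mx σ)
  (U : Set (E n)) (z : E n), IsOpen U → z ∈ U → (∀ w ∈ U, SmX G w ∧ (G w).PosDef) →
  ∃ (R S : E n → Mx σ) (r : ℝ), 0 < r ∧ ball z r ⊆ U ∧ ∀ w ∈ ball z r,
    SmX R w ∧ SmX S w ∧ R w * S w = 1 ∧ S w * R w = 1 ∧ G w = (R w)ᴴ * R w

/-- Operators of order zero are bounded. -/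
def St_ZER : Prop := ∀ (n : ℕ) (M : Mf n) [M.Cpt] (σ τ : Type) [Fintype σ] [DecidableEq σ]
  [Fintype τ] [DecidableEq τ] (b : Bun M σ) (b' : Bun M τ) (Φ : M.Fam (Matrix τ σ ℂ)), b.Ok →
  b'.Ok → (M.All fun e z => ∀ i j, ContDiffAt ℝ ∞ (fun w => Φ e w i j) z) →
  ((∀ W, b.Sec W → b'.Sec fun e z => Φ e z *ᵥ W e z) ↔
    M.Ov fun e e' x => Φ e (e x) * b.T e e' x = b'.T e e' x * Φ e' (e' x)) ∧
  ((∀ W, b.Sec W → b'.Sec fun e z => Φ e z *ᵥ W e z) → ∃ C : ℝ, 0 ≤ C ∧ ∀ W x,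
    b'.pn (fun e z => Φ e z *ᵥ W e z) x ≤ C * b.pn W x)

/-- Multiplication by a function, and its commutator with an operator. -/
def St_CUT : Prop := ∀ (n : ℕ) (M : Mf n) [M.Cpt] (σ : Type) [Fintype σ] [DecidableEq σ]
  (g : Geo M σ) (D : Op M σ) (hD : D.Skew g.b g.H) (χ : M.X → ℝ), M.Sm χ →
  ∃ (m : Pre g →ₗ[ℂ] Pre g) (C : ℝ), 0 ≤ C ∧ ∀ s,
    (∀ e z, (m s).val e z = (χ (e.symm z) : ℂ) • s.val e z) ∧ ‖m s‖ ≤ C * ‖s‖ ∧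
    ‖Pre.op D hD.sec (m s) - m (Pre.op D hD.sec s)‖ ≤ C * ‖s‖ ∧
    ∀ s', inner ℂ (m s) s' = inner ℂ s (m s')

/-- The chart. -/
def St_CHT : Prop := ∀ (n : ℕ) (M : Mf n) [M.Cpt] (σ : Type) [Fintype σ] [DecidableEq σ]
  (g : Geo M σ) (D : Op M σ) (hD : D.Skew g.b g.H) (x : M.X), ∃ e ∈ M.C, ∃ U : Set (E n),
  U ⊆ e.target ∧ x ∈ e.source ∧ e x ∈ U ∧
  ∃ (γ : Fin n × Bool → E n → EuclideanSpace ℂ σ →L[ℝ] EuclideanSpace ℂ σ)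
    (v : Fin n × Bool → E n → E n) (c : E n → EuclideanSpace ℂ σ →L[ℝ] EuclideanSpace ℂ σ)
    (ext : (E n → EuclideanSpace ℂ σ) → Pre g),
    TH.Chart volume U (fun z => (g.H e z).det.re) γ v c (fun f => (ext f : L2 g)) ∧
    (∀ f, TH.Test U f → (ext (TH.Pfr γ v c f) : L2 g) = (Pre.op D hD.sec (ext f) : Pre g)) ∧
    (∀ K, IsCompact K → K ⊆ U → ∀ s : Pre g, (∀ y ∉ e.symm '' K, g.b.pn s.val y = 0) →
      ∃ f, TH.Test U f ∧ tsupport f ⊆ K ∧ (ext f : L2 g) = s) ∧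
    (D.Dir g.b g.H → ∀ z ∈ U, ∀ L : E n →L[ℝ] EuclideanSpace ℂ σ, L ≠ 0 →
      0 < TH.ell (fun i => γ i z) fun i => L (v i z))

/-- Weak solutions have approximants with bounded image. -/
def St_WS : Prop := ∀ (n : ℕ) (M : Mf n) [M.Cpt] (σ : Type) [Fintype σ] [DecidableEq σ]
  (g : Geo M σ) (D : Op M σ) (hD : D.Skew g.b g.H) (u w : L2 g),
  (∀ s : Pre g, inner ℂ u ((Pre.op D hD.sec s : Pre g) : L2 g) = inner ℂ w (s : L2 g)) →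
  ∃ C : ℝ, ∀ η : ℝ, 0 < η → ∃ s : Pre g, ‖u - s‖ < η ∧ ‖Pre.op D hD.sec s‖ ≤ C

/-- The theorem of Rellich. -/
def St_REL : Prop := ∀ (n : ℕ) (M : Mf n) [M.Cpt] (σ : Type) [Fintype σ] [DecidableEq σ]
  (g : Geo M σ) (D : Op M σ) (hD : D.Skew g.b g.H), D.Dir g.b g.H →
  TotallyBounded ((fun s : Pre g => (s : L2 g)) '' {s | ‖s‖ ≤ 1 ∧ ‖Pre.op D hD.sec s‖ ≤ 1})

/-- Dense range, and weak solutions are strong solutions. -/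
def St_DNS : Prop := ∀ (C : Type) [SeminormedAddCommGroup C] [InnerProductSpace ℂ C]
  (T : C →ₗ[ℂ] C), (∀ a b, inner ℂ (T a) b = -inner ℂ a (T b)) →
  (∀ u w : UniformSpace.Completion C, (∀ s : C, inner ℂ u (T s : UniformSpace.Completion C) =
    inner ℂ w (s : UniformSpace.Completion C)) →
    ∃ A : ℝ, ∀ η : ℝ, 0 < η → ∃ s : C, ‖u - s‖ < η ∧ ‖T s‖ ≤ A) →
  (∀ (t d : ℝ) (f : C), 0 < d → ∃ s, ‖s + (t : ℂ) • T s - f‖ ≤ d) ∧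
  ∀ u w : UniformSpace.Completion C, (∀ s : C, inner ℂ u (T s : UniformSpace.Completion C) =
    inner ℂ w (s : UniformSpace.Completion C)) →
    ∀ η : ℝ, 0 < η → ∃ s : C, ‖u - s‖ < η ∧ ‖w + (T s : C)‖ < η

/-- Almost minimal representatives. -/
def St_NEAR : Prop := ∀ (C : Type) [SeminormedAddCommGroup C] [InnerProductSpace ℂ C]
  (P Q : C →ₗ[ℂ] C), (∀ a b, inner ℂ (Q a) b = -inner ℂ a (P b)) →
  (∀ a b, inner ℂ (Q a) (P b) = 0) →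
  (∀ (t d : ℝ) (f : C), 0 < d → ∃ s, ‖s + (t : ℂ) • (Q s + P s) - f‖ ≤ d) →
  ∀ (t d : ℝ) (f : C), 0 < t → 0 < d → ∃ w y r : C, w + (t : ℂ) • (Q y + P y) = f + r ∧ ‖r‖ ≤ d ∧
    ‖w‖ ≤ ‖f‖ + d ∧ ‖y‖ ≤ ‖f‖ + d ∧ t * ‖Q w + P w‖ ≤ ‖f‖ + d ∧
    (t * ‖P y‖) ^ 2 ≤ 2 * t * ‖Q f‖ * (‖f‖ + d) + 2 * d ^ 2

/-- The inequality of Sobolev. -/
def St_SOB : Prop := ∀ (n : ℕ) (M : Mf n) [M.Cpt] (σ : Type) [Fintype σ] [DecidableEq σ]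
  (H : M.Fam (Mat n)) (b : Bun M σ), 0 < n → M.Met H → b.Ok → b.Hl → ∃ C : ℝ, 0 ≤ C ∧
  ∀ (W : M.Fam (σ → ℂ)) (ρ : M.X → ℝ) (A : ℝ), b.Sec W → Measurable ρ → (∀ x, 0 ≤ ρ x ∧ ρ x ≤ A) →
    ∫ x, ρ x * b.pn W x ∂M.mu H ≤ C * (∫ x, ρ x ^ (2 * n) ∂M.mu H) ^ (1 / (2 * n : ℝ)) *
      (b.nr H W + ∫ x, gb H b W x ∂M.mu H)

/-- Holomorphic limit of almost holomorphic sections. -/
def St_VL : Prop := ∀ (n : ℕ) (M : Mf n) [M.Cpt] (σ : Type) [Fintype σ] [DecidableEq σ]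
  (H : M.Fam (Mat n)) (b : Bun M σ) (l : Ultrafilter ℕ) (W : ℕ → M.Fam (σ → ℂ)) (D : ℝ), 0 < n →
  M.Met H → b.Ok → b.Hl → (∀ j, b.Sec (W j) ∧ b.nr H (W j) ≤ D ∧ ∫ x, gb H b (W j) x ∂M.mu H ≤ D) →
  Tendsto (fun j => ∫ x, gb H b (W j) x ∂M.mu H) l (𝓝 0) →
  ∃ V, b.Sec V ∧ Hol V ∧ Tendsto (fun j => b.nr H (W j - V)) l (𝓝 0)

/-- Almost harmonic sections. -/
def Ah {n : ℕ} {M : Mf n} (H : M.Fam (Mat n)) (L : M.Co) (φ : M.Fam ℝ) : Prop :=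
  ∀ η : ℝ, 0 < η → ∃ W, (lam H L φ).Sec W ∧ (lam H L φ).nr H W = 1 ∧
    (lam H L φ).nr H ((oD H φ).ap W) ≤ η

/-- One step: an almost holomorphic section that is not small. -/
def St_ONE : Prop := ∀ (n : ℕ) (M : Mf n) [M.Cpt] (H : M.Fam (Mat n)) (L : M.Co) (φ : M.Fam ℝ)
  (A ε : ℝ) (w : M.X → ℝ), M.Kae H → M.WtC L φ → 0 < ε → M.Sm w → (∀ x, w x ≤ 0) →
  M.Le 0 (M.hw φ + M.ric H + M.hs w + ε • H) →
  (∀ η : ℝ, 0 < η → ∃ W, (lam H L φ).Sec W ∧ (lam H L φ).nr H W = 1 ∧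
    (lam H L φ).nr H ((oD H φ).ap W) ≤ η ∧ (lam H L (aw M φ w)).nr H W ≤ A) →
  ∃ W, (lam H L φ).Sec W ∧ 1 / 4 ≤ (lam H L φ).nr H W ∧ (lam H L φ).nr H W ≤ 2 * A + 2 ∧
    ∫ x, gb H (lam H L φ) W x ∂M.mu H ≤ ε * (n + 1) * (2 * A + 2)

/-- The hard Lefschetz theorem. -/
def St_HL : Prop := ∀ (n : ℕ) (M : Mf n) [M.Cpt] (H : M.Fam (Mat n)) (L : M.Co) (φ : M.Fam ℝ)
  (C : ℝ), 0 < n → M.Kae H → M.WtC L φ →
  (∀ δ : ℝ, 0 < δ → ∃ ε ∈ Ioc 0 δ, ∃ w : M.X → ℝ, M.Sm w ∧ (∀ x, w x ≤ 0) ∧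
    M.Le 0 (M.hw φ + M.ric H + M.hs w + ε • H) ∧
    ∫ x, Real.exp (-(2 * n * w x)) ∂M.mu H ≤ C) →
  Ah H L φ → ∃ V, (lam H L φ).Sec V ∧ Hol V ∧ Nz V

end Pool.Agent.Lib.HLK
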